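import Mathlib
import Pool.Agent.AHR.Two2

/-!
# Families of predicates on the automorphisms of `ℂ`

`P σ` will be: the conjugate by `σ` of a fixed datum is not real.
-/

namespace Pool.Agent.AHT

open Pool.Agent.AHC Pool.Agent.AHI Pool.Agent.AHR Cardinal

/-- the automorphisms which fix `cl S` pointwise -/
def Fx (S : Set ℂ) : Set (ℂ ≃+* ℂ) := {σ | ∀ z ∈ cl S, σ z = z}

/-- there are automorphisms over `cl S` with the property `P`, arbitrarily near the identity -/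
def Inv (S : Set ℂ) (P : (ℂ ≃+* ℂ) → Prop) : Prop :=
  ∀ (Y : Finset ℂ) (ε : ℝ), 0 < ε → ∃ h ∈ Fx S, (∀ y ∈ Y, ‖h y - y‖ < ε) ∧ P h

/-- the translate of a predicate -/
def shf (g : ℂ ≃+* ℂ) (P : (ℂ ≃+* ℂ) → Prop) : (ℂ ≃+* ℂ) → Prop := fun h => P (g.trans h)

/-- `P σ` only depends on the restriction of `σ` to `X` -/
def Dep (X : Finset ℂ) (P : (ℂ ≃+* ℂ) → Prop) : Prop :=
  ∀ g h : ℂ ≃+* ℂ, (∀ x ∈ X, g x = h x) → (P g ↔ P h)

/-- the set is contained in the set of the points of a disc where a holomorphic function, which is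
not real on the whole disc, is real -/
def IsThin (B : Set ℂ) : Prop :=
  ∃ (c : ℂ) (r : ℝ) (f : ℂ → ℂ), DifferentiableOn ℂ f (Metric.ball c r) ∧
    (∃ z ∈ Metric.ball c r, (f z).im ≠ 0) ∧ ∀ z ∈ B, z ∈ Metric.ball c r ∧ (f z).im = 0

/-- the properties of the family of the predicates `the conjugate by σ of the datum is not real`
which are used in the construction of the test automorphism -/
structure Fam (C : Set ((ℂ ≃+* ℂ) → Prop)) : Prop where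
  dep : ∀ P ∈ C, ∃ X : Finset ℂ, Dep X P
  shift : ∀ P ∈ C, ∀ g, shf g P ∈ C
  opn : ∀ P ∈ C, P (RingEquiv.refl ℂ) → ∃ (Y : Finset ℂ) (ε : ℝ), 0 < ε ∧
    ∀ g : ℂ ≃+* ℂ, (∀ y ∈ Y, ‖g y - y‖ < ε) → P g
  thin : ∀ P ∈ C, ∀ S : Set ℂ, #S < 𝔠 → Inv S P → ∀ t, t ∉ cl S →
    ∃ (X : Finset ℂ) (ε : ℝ), 0 < ε ∧ IsThin {u | ∃ h ∈ Fx S, (∀ x ∈ X, ‖h x - x‖ < ε) ∧
      h t = u ∧ ¬ Inv (insert u S) (shf h P)}
  count : ∃ D : Set ((ℂ ≃+* ℂ) → Prop), D ⊆ C ∧ D.Countable ∧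
    ∀ P ∈ C, ∃ Q ∈ D, ∃ g, P = shf g Q

theorem refl_mem_Fx (S : Set ℂ) : RingEquiv.refl ℂ ∈ Fx S := fun _ _ => rfl

theorem Fx_anti {S T : Set ℂ} (h : S ⊆ T) {g : ℂ ≃+* ℂ} (hg : g ∈ Fx T) : g ∈ Fx S :=
  fun z hz => hg z (cl_mono h hz)

theorem Fx_trans {S : Set ℂ} {g h : ℂ ≃+* ℂ} (hg : g ∈ Fx S) (hh : h ∈ Fx S) :
    g.trans h ∈ Fx S := by
  intro z hz
  rw [RingEquiv.trans_apply, hg z hz, hh z hz]

theorem Fx_symm {S : Set ℂ} {g : ℂ ≃+* ℂ} (hg : g ∈ Fx S) : g.symm ∈ Fx S := by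
  intro z hz
  rw [RingEquiv.symm_apply_eq, hg z hz]

theorem shf_apply (g h : ℂ ≃+* ℂ) (P : (ℂ ≃+* ℂ) → Prop) : shf g P h = P (g.trans h) := rfl

theorem shf_shf (g h : ℂ ≃+* ℂ) (P : (ℂ ≃+* ℂ) → Prop) :
    shf g (shf h P) = shf (h.trans g) P := rfl

theorem shf_refl (P : (ℂ ≃+* ℂ) → Prop) : shf (RingEquiv.refl ℂ) P = P := rfl

/-- two automorphisms which agree on `X` give the same translate -/
theorem Dep.shf_eq {X : Finset ℂ} {P : (ℂ ≃+* ℂ) → Prop} (hP : Dep X P) {g h : ℂ ≃+* ℂ}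
    (hgh : ∀ x ∈ X, g x = h x) : shf g P = shf h P := by
  funext k
  refine propext (hP _ _ fun x hx => ?_)
  rw [RingEquiv.trans_apply, RingEquiv.trans_apply, hgh x hx]

theorem Dep.shf {X : Finset ℂ} {P : (ℂ ≃+* ℂ) → Prop} (hP : Dep X P) (g : ℂ ≃+* ℂ) :
    Dep (X.image g) (AHT.shf g P) := by
  classical
  intro h k hk
  refine hP _ _ fun x hx => ?_
  rw [RingEquiv.trans_apply, RingEquiv.trans_apply]
  exact hk _ (Finset.mem_image_of_mem _ hx)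

theorem Inv.congr {S T : Set ℂ} (h : cl S = cl T) {P : (ℂ ≃+* ℂ) → Prop} (hI : Inv S P) :
    Inv T P := by
  intro Y ε hε
  obtain ⟨k, h1, h2⟩ := hI Y ε hε
  refine ⟨k, fun z hz => h1 z ?_, h2⟩
  rw [h]
  exact hz

end Pool.Agent.AHT
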