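import Mathlib
import Pool.Agent.AHT.Defs

/-!
# Automorphisms over `cl S` near the identity with given values on an independent family

Relative form of `AHR.exists_nearby` (file `AHR/Nby.lean`, where `S = ∅`).  Proof: copy
`exists_family` and `exists_nearby`, with `IntermediateField.adjoin (clF ∅) (cl S ∪ range t ∪ X)` for
`K`; `exists_move_seq` is available over any set `S`.
-/

namespace Pool.Agent.AHT

open Pool.Agent.AHC Pool.Agent.AHI Pool.Agent.AHR Filter
open scoped Topology

/-- the elements before the step -/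
private theorem Nrb_isIntegral {T : Set ℂ} {K : IntermediateField (clF ∅) ℂ}
    (ht : T ⊆ (K : Set ℂ)) {x : ℂ} (hx : x ∈ cl T) : IsIntegral K x := by
  have h1 : ∀ y ∈ Algebra.adjoin ℚ T, y ∈ K := by
    intro y hy
    have h2 : Algebra.adjoin ℚ T ≤ (K.restrictScalars ℚ).toSubalgebra :=
      Algebra.adjoin_le ht
    exact h2 hy
  let f : Algebra.adjoin ℚ T →+* K :=
    { toFun := fun y => ⟨y.1, h1 y.1 y.2⟩
      map_one' := rfl
      map_mul' := fun _ _ => rfl
      map_zero' := rfl
      map_add' := fun _ _ => rfl }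
  have h3 : IsAlgebraic K ((RingHom.id ℂ) x) := by
    refine IsAlgebraic.ringHom_of_comp_eq (S := K) f (RingHom.id ℂ) hx ?_ ?_
    · intro a b hab
      have h4 : ((f a : K) : ℂ) = ((f b : K) : ℂ) := congrArg Subtype.val hab
      exact Subtype.ext h4
    · rfl
  exact h3.isIntegral

/-- the family of automorphisms -/
private theorem Nrb_family {S : Set ℂ} {n : ℕ} {t : Fin n → ℂ} (ht : SeqInd S t) {X : Set ℂ}
    (hX : X.Finite) (hXt : X ⊆ cl (S ∪ Set.range t)) :
    ∃ Θ : {t' : Fin n → ℂ // SeqInd S t'} → ℂ ≃+* ℂ, (∀ a, Θ a ∈ Fx S) ∧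
      (∀ a i, Θ a (t i) = a.1 i) ∧
      ∀ x ∈ X, Tendsto (fun a => Θ a x) (comap Subtype.val (𝓝 t)) (𝓝 x) := by
  induction X, hX using Set.Finite.induction_on with
  | empty =>
    have h1 : ∀ a : {t' : Fin n → ℂ // SeqInd S t'}, ∃ α : ℂ ≃+* ℂ, (∀ z ∈ cl S, α z = z) ∧
        ∀ i, α (t i) = a.1 i := fun a => exists_move_seq t a.1 ht a.2
    choose Θ hΘ1 hΘ2 using h1
    exact ⟨Θ, hΘ1, hΘ2, fun x hx => absurd hx (Set.notMem_empty x)⟩
  | @insert x X _ _ ih =>
    obtain ⟨Θ, h1, h2, h3⟩ := ih ((Set.subset_insert _ _).trans hXt)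
    set l : Filter {t' : Fin n → ℂ // SeqInd S t'} := comap Subtype.val (𝓝 t) with hl
    have h0 : ∀ y ∈ clF ∅, Tendsto (fun a => Θ a y) l (𝓝 ((RingEquiv.refl ℂ) y)) := by
      intro y hy
      have h4 : (fun a => Θ a y) = fun _ => y := by
        funext a
        exact h1 a y (cl_mono (Set.empty_subset S) hy)
      rw [h4]
      exact tendsto_const_nhds
    let K : IntermediateField (clF ∅) ℂ :=
      IntermediateField.adjoin (clF ∅) (cl S ∪ (Set.range t ∪ X))
    have hK : K ≤ limField l Θ (RingEquiv.refl ℂ) (clF ∅) h0 := by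
      refine IntermediateField.adjoin_le_iff.2 ?_
      rintro y (hy | ⟨i, rfl⟩ | hy)
      · change Tendsto (fun a => Θ a y) l (𝓝 y)
        have h4 : (fun a : {t' : Fin n → ℂ // SeqInd S t'} => Θ a y) = fun _ => y := by
          funext a
          exact h1 a y hy
        rw [h4]
        exact tendsto_const_nhds
      · change Tendsto (fun a => Θ a (t i)) l (𝓝 (t i))
        have h4 : (fun a : {t' : Fin n → ℂ // SeqInd S t'} => Θ a (t i)) = fun a => a.1 i := by
          funext a
          exact h2 a i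
        rw [h4]
        exact ((continuous_apply i).tendsto t).comp tendsto_comap
      · exact h3 y hy
    have hSK : cl S ⊆ (K : Set ℂ) := fun y hy =>
      IntermediateField.subset_adjoin _ _ (Or.inl hy)
    have htK : Set.range t ⊆ (K : Set ℂ) := fun y hy =>
      IntermediateField.subset_adjoin _ _ (Or.inr (Or.inl hy))
    have hXK : X ⊆ (K : Set ℂ) := fun y hy =>
      IntermediateField.subset_adjoin _ _ (Or.inr (Or.inr hy))
    have hint : IsIntegral K x :=
      Nrb_isIntegral (Set.union_subset ((subset_cl S).trans hSK) htK) (hXt (Set.mem_insert _ _))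
    set p := minpoly K x with hp
    have hpm : p.Monic := minpoly.monic hint
    have hd : p.natDegree ≠ 0 := (minpoly.natDegree_pos hint).ne'
    have hp0 : p ≠ 0 := hpm.ne_zero
    have h4 : ∀ a, ∃ x' : ℂ, Polynomial.aeval x' p = 0 ∧
        ∀ y : ℂ, Polynomial.aeval y p = 0 → ‖Θ a x' - x‖ ≤ ‖Θ a y - x‖ := by
      intro a
      obtain ⟨x', hx', hmin⟩ := Finset.exists_min_image (p.rootSet_finite ℂ).toFinset
        (fun x' => ‖Θ a x' - x‖) ⟨x, by
          rw [Set.Finite.mem_toFinset, Polynomial.mem_rootSet]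
          exact ⟨hp0, minpoly.aeval _ _⟩⟩
      rw [Set.Finite.mem_toFinset, Polynomial.mem_rootSet] at hx'
      refine ⟨x', hx'.2, fun y hy => hmin y ?_⟩
      rw [Set.Finite.mem_toFinset, Polynomial.mem_rootSet]
      exact ⟨hp0, hy⟩
    choose r hr hrmin using h4
    have h5 : ∀ a, ∃ h : ℂ ≃+* ℂ, (∀ y ∈ K, h y = y) ∧ h x = r a := fun a =>
      exists_aut_root K hint (hr a)
    choose h hhK hhx using h5
    refine ⟨fun a => (h a).trans (Θ a), fun a => ?_, fun a i => ?_, fun y hy => ?_⟩
    · intro z hz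
      rw [RingEquiv.trans_apply, hhK a z (hSK hz)]
      exact h1 a z hz
    · rw [RingEquiv.trans_apply, hhK a (t i) (htK ⟨i, rfl⟩)]
      exact h2 a i
    · rcases hy with rfl | hy
      · have h6 : (fun a => ((h a).trans (Θ a)) y) = fun a => Θ a (r a) := by
          funext a
          rw [RingEquiv.trans_apply, hhx a]
        rw [h6]
        let f : {t' : Fin n → ℂ // SeqInd S t'} → K →+* ℂ :=
          fun a => (Θ a : ℂ →+* ℂ).comp (algebraMap K ℂ)
        have hev : Tendsto (fun a => Polynomial.eval₂ (f a) y p) l (𝓝 0) := by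
          have e3 : Polynomial.eval₂ (algebraMap K ℂ) y p = 0 := minpoly.aeval _ _
          rw [← e3]
          simp only [Polynomial.eval₂_eq_sum_range]
          refine tendsto_finsetSum _ fun k _ => ?_
          have h7 : Tendsto (fun a => Θ a (p.coeff k : ℂ)) l (𝓝 (p.coeff k : ℂ)) :=
            hK (p.coeff k).2
          exact h7.mul_const _
        rw [Metric.tendsto_nhds]
        intro ε hε
        have h7 : ∀ᶠ a in l, ‖Polynomial.eval₂ (f a) y p‖ < (ε / 2) ^ p.natDegree := by
          have h8 := (tendsto_norm_zero.comp hev)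
          have h9 : (0 : ℝ) < (ε / 2) ^ p.natDegree := by positivity
          exact h8.eventually (gt_mem_nhds h9)
        filter_upwards [h7] with a h8
        have h9 : ∃ s, (p.map (f a)).IsRoot s ∧ ‖y - s‖ < ε / 2 := by
          by_contra hcon
          push Not at hcon
          have h10 := pow_le_norm_eval (p.map (f a)) (hpm.map _) y
            (by positivity : 0 ≤ ε / 2) hcon
          rw [hpm.natDegree_map, Polynomial.eval_map] at h10
          linarith
        obtain ⟨s, hs1, hs2⟩ := h9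
        have h10 : Polynomial.aeval ((Θ a).symm s) p = 0 := by
          have h11 := Polynomial.hom_eval₂ p (algebraMap K ℂ) (Θ a : ℂ →+* ℂ) ((Θ a).symm s)
          have h12 : ((Θ a : ℂ →+* ℂ)) ((Θ a).symm s) = s := (Θ a).apply_symm_apply s
          rw [h12] at h11
          have h13 : Polynomial.eval₂ (f a) s p = 0 := by
            rw [← Polynomial.eval_map]
            exact hs1
          rw [h13] at h11
          exact (map_eq_zero (Θ a)).1 h11
        have h11 := hrmin a _ h10
        rw [RingEquiv.apply_symm_apply] at h11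
        rw [dist_eq_norm]
        have h12 : ‖s - y‖ = ‖y - s‖ := norm_sub_rev _ _
        linarith
      · have h6 : (fun a => ((h a).trans (Θ a)) y) = fun a => Θ a y := by
          funext a
          rw [RingEquiv.trans_apply, hhK a y (hXK hy)]
        rw [h6]
        exact h3 y hy

theorem nearby_rel {S : Set ℂ} {n : ℕ} {t : Fin n → ℂ} (ht : SeqInd S t) {X : Set ℂ}
    (hX : X.Finite) (hXt : X ⊆ cl (S ∪ Set.range t)) {η : ℝ} (hη : 0 < η) :
    ∃ δ > 0, ∀ t' : Fin n → ℂ, SeqInd S t' → (∀ i, ‖t' i - t i‖ < δ) →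
      ∃ β ∈ Fx S, (∀ i, β (t i) = t' i) ∧ ∀ x ∈ X, ‖β x - x‖ < η := by
  obtain ⟨Θ, h1, h2, h3⟩ := Nrb_family ht hX hXt
  have h4 : ∀ᶠ a in comap Subtype.val (𝓝 t), ∀ x ∈ X, ‖Θ a x - x‖ < η := by
    refine (eventually_all_finite hX).2 fun x hx => ?_
    have h5 := (Metric.tendsto_nhds.1 (h3 x hx)) η hη
    filter_upwards [h5] with a ha
    rwa [dist_eq_norm] at ha
  rw [eventually_comap] at h4
  obtain ⟨δ, hδ, hball⟩ := Metric.eventually_nhds_iff.1 h4
  refine ⟨δ, hδ, fun t' ht' hd => ?_⟩
  have h5 : dist t' t < δ := by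
    rw [dist_pi_lt_iff hδ]
    intro i
    rw [dist_eq_norm]
    exact hd i
  exact ⟨Θ ⟨t', ht'⟩, h1 _, fun i => h2 _ i, hball h5 ⟨t', ht'⟩ rfl⟩

end Pool.Agent.AHT
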