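import Mathlib
import Pool.Agent.AHT.Nrb
import Pool.Agent.AHR.Root
import Pool.Agent.AHU.Ext

/-!
# A holomorphic chart for the automorphisms over `cl S` near the identity

Proof.  `X ⊆ cl (S₀ ∪ range t)` for a finite `S₀ ⊆ S` (`exists_finite_of_mem_cl`), and
`S₀ ⊆ cl (range a)` for a family `a : Fin m → ℂ` in `S₀` with `SeqInd ∅ a` (`exists_basis`).  So
`X ⊆ cl (range (Fin.append a t))`.  Let `φ₀ x`, `r x`, `η x` be from `exists_root'` for
`Fin.append a t` and `x ∈ X`, and `φ y x = φ₀ x (Fin.append a y)`; `r, η` are small enough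
(`exists_pos_le` from `AHR`, continuity of `φ` at `t` with `φ t = inc X` for the neighbourhood `U`).
Third statement: `exists_root'` for `β ∈ Fx S` (`β` fixes `a`).  Fourth statement: `nearby_rel` with
this `η` (make `r` smaller than its `δ`) and the third statement.
-/

namespace Pool.Agent.AHT

open Pool.Agent.AHC Pool.Agent.AHI Pool.Agent.AHR Pool.Agent.AHU Filter
open scoped Topology

private theorem chr_pos_le {ι : Type} [Finite ι] (r : ι → ℝ) (hr : ∀ i, 0 < r i) :
    ∃ a > 0, ∀ i, a ≤ r i := by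
  rcases isEmpty_or_nonempty ι with h | h
  · exact ⟨1, one_pos, fun i => h.elim i⟩
  · obtain ⟨i, hi⟩ := Finite.exists_min r
    exact ⟨r i, hr i, hi⟩

private theorem chr_finite {S : Set ℂ} {n : ℕ} {t : Fin n → ℂ} (X : Finset ℂ)
    (hX : (X : Set ℂ) ⊆ cl (S ∪ Set.range t)) :
    ∃ (m : ℕ) (a : Fin m → ℂ), (∀ i, a i ∈ S) ∧
      (X : Set ℂ) ⊆ cl (Set.range (Fin.append a t)) := by
  choose I hI hIf _ hxI using fun x : X => exists_finite_of_mem_cl (hX (Finset.mem_coe.2 x.2))
  have hfin : ((⋃ x, I x) ∩ S).Finite := (Set.finite_iUnion hIf).inter_of_left S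
  obtain ⟨m, a, -, h2, h3⟩ := exists_basis ∅ hfin
  rw [Set.empty_union] at h3
  refine ⟨m, a, fun i => (h2 ⟨i, rfl⟩).2, fun x hx => ?_⟩
  have h4 : x ∈ cl (I ⟨x, hx⟩) := hxI ⟨x, hx⟩
  have h5 : I ⟨x, hx⟩ ⊆ cl (Set.range (Fin.append a t)) := by
    intro z hz
    rcases hI ⟨x, hx⟩ hz with h | ⟨j, rfl⟩
    · refine cl_mono ?_ (h3 ⟨Set.mem_iUnion.2 ⟨_, hz⟩, h⟩)
      rintro w ⟨i, rfl⟩
      exact ⟨Fin.castAdd n i, Fin.append_left _ _ _⟩
    · exact subset_cl _ ⟨Fin.natAdd m j, Fin.append_right _ _ _⟩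
  exact cl_subset_iff.2 h5 h4

private theorem chr_mem_ball {n m : ℕ} {a : Fin m → ℂ} {t y : Fin n → ℂ} {r : ℝ} (hr : 0 < r)
    (hy : y ∈ Metric.ball t r) : Fin.append a y ∈ Metric.ball (Fin.append a t) r := by
  rw [Metric.mem_ball, dist_pi_lt_iff hr] at hy ⊢
  intro i
  induction i using Fin.addCases with
  | left i =>
    rw [Fin.append_left, Fin.append_left, dist_self]
    exact hr
  | right i =>
    rw [Fin.append_right, Fin.append_right]
    exact hy i

private theorem chr_diff {n m : ℕ} (a : Fin m → ℂ) :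
    Differentiable ℂ fun y : Fin n → ℂ => (Fin.append a y : Fin (m + n) → ℂ) := by
  rw [differentiable_pi]
  intro i
  induction i using Fin.addCases with
  | left i =>
    simp only [Fin.append_left]
    exact differentiable_const _
  | right i =>
    simp only [Fin.append_right]
    exact differentiable_apply i

theorem chart {S : Set ℂ} {n : ℕ} {t : Fin n → ℂ} (ht : SeqInd S t) (X : Finset ℂ)
    (hX : (X : Set ℂ) ⊆ cl (S ∪ Set.range t)) {U : Set (X → ℂ)} (hU : U ∈ 𝓝 (inc X)) :
    ∃ (r η : ℝ) (φ : (Fin n → ℂ) → (X → ℂ)), 0 < r ∧ 0 < η ∧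
      DifferentiableOn ℂ φ (Metric.ball t r) ∧ (∀ y ∈ Metric.ball t r, φ y ∈ U) ∧
      (∀ β ∈ Fx S, (fun i => β (t i)) ∈ Metric.ball t r → (∀ x ∈ X, ‖β x - x‖ < η) →
        res X β = φ fun i => β (t i)) ∧
      ∀ y ∈ Metric.ball t r, SeqInd S y → ∃ β ∈ Fx S, (∀ i, β (t i) = y i) ∧ res X β = φ y := by
  obtain ⟨m, a, haS, hXa⟩ := chr_finite X hX
  choose r hr η hη φ hφd hφt hφβ using fun x : X => exists_root' (hXa (Finset.mem_coe.2 x.2))
  obtain ⟨r0, hr0, hr0'⟩ := chr_pos_le r hr
  obtain ⟨η0, hη0, hη0'⟩ := chr_pos_le η hη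
  have hdiff : DifferentiableOn ℂ (fun (y : Fin n → ℂ) (x : X) => φ x (Fin.append a y))
      (Metric.ball t r0) := by
    rw [differentiableOn_pi]
    intro x
    refine (hφd x).comp (chr_diff a).differentiableOn fun y hy => ?_
    exact Metric.ball_subset_ball (hr0' x) (chr_mem_ball hr0 hy)
  have hval : (fun x : X => φ x (Fin.append a t)) = inc X := by
    funext x
    exact hφt x
  have hcont : ContinuousAt (fun (y : Fin n → ℂ) (x : X) => φ x (Fin.append a y)) t :=
    hdiff.continuousOn.continuousAt (Metric.ball_mem_nhds t hr0)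
  have hU' : ∀ᶠ y in 𝓝 t, (fun x : X => φ x (Fin.append a y)) ∈ U := by
    refine hcont.eventually_mem ?_
    rw [hval]
    exact hU
  obtain ⟨r1, hr1, hr1'⟩ := Metric.eventually_nhds_iff_ball.1 hU'
  obtain ⟨δ, hδ, hnear⟩ := nearby_rel ht X.finite_toSet hX hη0
  have h3 : ∀ β ∈ Fx S, (fun i => β (t i)) ∈ Metric.ball t (min (min r0 r1) δ) →
      (∀ x ∈ X, ‖β x - x‖ < η0) →
        res X β = fun x : X => φ x (Fin.append a fun i => β (t i)) := by
    intro β hβ hb hx
    have hrb : min (min r0 r1) δ ≤ r0 := (min_le_left _ _).trans (min_le_left _ _)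
    have happ : (fun i => β (Fin.append a t i)) =
        (Fin.append a (fun i => β (t i)) : Fin (m + n) → ℂ) := by
      funext i
      induction i using Fin.addCases with
      | left i =>
        rw [Fin.append_left, Fin.append_left]
        exact hβ _ (subset_cl _ (haS i))
      | right i => rw [Fin.append_right, Fin.append_right]
    funext x
    have h4 := hφβ x β (by
      rw [happ]
      exact Metric.ball_subset_ball (hr0' x)
        (chr_mem_ball hr0 (Metric.ball_subset_ball hrb hb)))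
      ((hx x x.2).trans_le (hη0' x))
    rw [happ] at h4
    exact h4
  refine ⟨min (min r0 r1) δ, η0, fun y x => φ x (Fin.append a y), lt_min (lt_min hr0 hr1) hδ,
    hη0, hdiff.mono ?_, fun y hy => hr1' y ?_, h3, fun y hy hyS => ?_⟩
  · exact Metric.ball_subset_ball ((min_le_left _ _).trans (min_le_left _ _))
  · exact Metric.ball_subset_ball ((min_le_left _ _).trans (min_le_right _ _)) hy
  · have hy' : ∀ i, ‖y i - t i‖ < δ := by
      intro i
      rw [← dist_eq_norm]
      exact ((dist_pi_lt_iff (lt_min (lt_min hr0 hr1) hδ)).1 (Metric.mem_ball.1 hy) i).trans_le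
        (min_le_right _ _)
    obtain ⟨β, h5, h6, h7⟩ := hnear y hyS hy'
    have h8 : (fun i => β (t i)) = y := funext h6
    refine ⟨β, h5, h6, ?_⟩
    have h9 := h3 β h5 (by rw [h8]; exact hy) fun x hx => h7 x (Finset.mem_coe.2 hx)
    rw [h8] at h9
    exact h9

end Pool.Agent.AHT
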