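import Mathlib
import Pool.Agent.AHT.Defs

/-!
# Cardinalities: independent families over small sets

Proofs.  `mk_cl_le`: `cl S` is the set of the elements algebraic over `Algebra.adjoin ℚ S`
(`Algebra.IsAlgebraic.cardinalMk_le_max` or similar, compare `AHC.base_mk` in `AHC/Base.lean` and
`cl_countable` in `AHC/Two.lean`).  `exists_seqInd_small`: as `exists_seqInd_near'` in
`AHR/Two2.lean`; a ball of positive radius in `ℂ` has cardinality `𝔠`.  `mk_not_seqInd`: as
`countable_not_seqInd` in `AHR/Cnt.lean` with polynomials with coefficients in `clF S`; their number is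
at most `max (#S) ℵ₀`.
-/

namespace Pool.Agent.AHT

open Pool.Agent.AHC Pool.Agent.AHI Pool.Agent.AHR Cardinal

theorem mk_cl_le (S : Set ℂ) : #(cl S) ≤ max #S ℵ₀ := by
  have h1 : #(cl S) ≤ max #(Algebra.adjoin ℚ S) ℵ₀ :=
    Algebraic.cardinalMk_le_max (Algebra.adjoin ℚ S) ℂ
  have h2 : #(Algebra.adjoin ℚ S) ≤ max #S ℵ₀ := by
    refine (Algebra.cardinalMk_adjoin_le ℚ S).trans ?_
    rw [Cardinal.mkRat]
    exact max_le (max_le (le_max_right _ _) (le_max_left _ _)) (le_max_right _ _)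
  exact h1.trans (max_le h2 (le_max_right _ _))

theorem mk_cl_lt {S : Set ℂ} (hS : #S < 𝔠) : #(cl S) < 𝔠 :=
  (mk_cl_le S).trans_lt (max_lt hS aleph0_lt_continuum)

/-- the complement of a small set is dense -/
theorem dense_compl_small {M : Set ℂ} (hM : #M < 𝔠) : Dense Mᶜ := by
  rw [← interior_eq_empty_iff_dense_compl]
  by_contra h
  have h1 : 𝔠 ≤ #(interior M) :=
    continuum_le_cardinal_of_isOpen ℂ isOpen_interior (Set.nonempty_iff_ne_empty.2 h)
  exact absurd (h1.trans (Cardinal.mk_le_mk_of_subset interior_subset)) (not_le.2 hM)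

theorem exists_seqInd_small {S : Set ℂ} (hS : #S < 𝔠) {δ : ℝ} (hδ : 0 < δ) {n : ℕ}
    (c : Fin n → ℂ) : ∃ b : Fin n → ℂ, SeqInd S b ∧ ∀ i, ‖b i - c i‖ < δ := by
  induction n with
  | zero => exact ⟨Fin.elim0, fun i => i.elim0, fun i => i.elim0⟩
  | succ n ih =>
    obtain ⟨b, hb, hbc⟩ := ih (fun i => c i.castSucc)
    have hsm : #(cl (S ∪ Set.range b)) < 𝔠 := by
      refine mk_cl_lt ((Cardinal.mk_union_le _ _).trans_lt ?_)
      refine Cardinal.add_lt_of_lt aleph0_le_continuum hS ?_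
      exact lt_of_lt_of_le (Set.finite_range b).lt_aleph0 aleph0_le_continuum
    obtain ⟨z, hz, hzc⟩ := (dense_compl_small hsm).exists_dist_lt (c (Fin.last n)) hδ
    refine ⟨Fin.snoc b z, SeqInd.snoc ?_ ?_, fun i => ?_⟩
    · simpa using hb
    · simpa using hz
    · induction i using Fin.lastCases with
      | last => simpa [dist_eq_norm, norm_sub_rev] using hzc
      | cast i => simpa using hbc i

private theorem Cd_of_subset_cl {X Y : Set ℂ} (h : Y ⊆ cl X) {n : ℕ} {b : Fin n → ℂ}
    (hb : SeqInd X b) : SeqInd Y b := by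
  intro i hi
  refine hb i (cl_subset_iff.2 ?_ hi)
  rintro z (hz | hz)
  · exact cl_mono Set.subset_union_left (h hz)
  · exact subset_cl _ (Or.inr hz)

private lemma Cd_iff {X : Set ℂ} (hX : MC.Indep X) {n : ℕ} {b : Fin n → ℂ} :
    SeqInd X b ↔ AlgebraicIndependent (Algebra.adjoin ℚ (Set.range ((↑) : X → ℂ))) b := by
  have hX' : AlgebraicIndependent ℚ ((↑) : X → ℂ) := by
    rwa [AlgebraicIndependent.matroid_indep_iff] at hX
  have e : Set.range (Sum.elim b ((↑) : X → ℂ)) = X ∪ Set.range b := by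
    rw [Set.Sum.elim_range, Subtype.range_coe, Set.union_comm]
  have h0 : SeqInd X b ↔ AlgebraicIndependent ℚ (Sum.elim b ((↑) : X → ℂ)) := by
    constructor
    · intro h
      obtain ⟨h1, h2⟩ := h.indep hX
      rw [AlgebraicIndependent.matroid_indep_iff, ← e] at h1
      refine AlgebraicIndependent.of_subtype_range ?_ h1
      refine Function.Injective.sumElim h.injective Subtype.val_injective fun i x hx => ?_
      exact Set.disjoint_left.1 h2 x.2 ⟨i, hx⟩
    · intro h
      have hi := h.injective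
      have h1 := h.to_subtype_range
      rw [e] at h1
      refine SeqInd.of_indep (fun i j hij => ?_) (AlgebraicIndependent.matroid_indep_iff.2 h1) ?_
      · exact Sum.inl_injective (hi hij)
      · rw [Set.disjoint_left]
        rintro x hx ⟨i, hi'⟩
        exact absurd (@hi (Sum.inl i) (Sum.inr ⟨x, hx⟩) hi') (by simp)
  rw [h0, AlgebraicIndependent.sumElim_iff]
  exact ⟨fun h => h.2, fun h => ⟨hX', h⟩⟩

private lemma Cd_zeros {R : Type} [CommRing R] [Algebra R ℂ] {n : ℕ} {t : Fin n → ℂ} (u : Fin n → ℂ)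
    (P : MvPolynomial (Fin n) R) (hP : MvPolynomial.aeval t P ≠ 0) :
    {s : ℂ | MvPolynomial.aeval (fun i => t i + s * u i) P = 0}.Finite := by
  let Q : Polynomial ℂ :=
    MvPolynomial.aeval (fun i => Polynomial.C (t i) + Polynomial.X * Polynomial.C (u i)) P
  have hQ : ∀ s : ℂ, Q.eval s = MvPolynomial.aeval (fun i => t i + s * u i) P := by
    intro s
    have h1 := MvPolynomial.comp_aeval_apply
      (fun i : Fin n => (Polynomial.C (t i) + Polynomial.X * Polynomial.C (u i) : Polynomial ℂ))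
      ((Polynomial.aeval s : Polynomial ℂ →ₐ[ℂ] ℂ).restrictScalars R) P
    have h2 : (((Polynomial.aeval s : Polynomial ℂ →ₐ[ℂ] ℂ).restrictScalars R) Q) = Q.eval s := by
      rw [AlgHom.restrictScalars_apply, Polynomial.coe_aeval_eq_eval]
    rw [← h2]
    rw [h1]
    congr 2
    funext i
    rw [AlgHom.restrictScalars_apply, Polynomial.coe_aeval_eq_eval]
    simp
    exact mul_comm _ _
  have hQ0 : Q ≠ 0 := by
    intro h
    apply hP
    have h3 := hQ 0
    rw [h, Polynomial.eval_zero] at h3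
    simp only [zero_mul, add_zero] at h3
    exact h3.symm
  have h4 := Polynomial.finite_setOfPred_isRoot hQ0
  refine h4.subset fun s hs => ?_
  show Q.eval s = 0
  rw [hQ s]
  exact hs

/-- on a complex line through an independent point almost all points are independent -/
theorem mk_not_seqInd {S : Set ℂ} (hS : #S < 𝔠) {n : ℕ} {t : Fin n → ℂ} (u : Fin n → ℂ)
    (ht : SeqInd S t) : #{s : ℂ | ¬ SeqInd S fun i => t i + s * u i} < 𝔠 := by
  obtain ⟨X, hX⟩ := MC.exists_isBasis S (by simp)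
  have hcl : cl X = cl S := by
    rw [← closure_eq, ← closure_eq]
    exact hX.closure_eq_closure
  have hiff : ∀ b : Fin n → ℂ, SeqInd S b ↔ SeqInd X b := fun b =>
    ⟨fun h => h.mono hX.subset, fun h => Cd_of_subset_cl (X := X) (by rw [hcl]; exact subset_cl S) h⟩
  have ht' := (Cd_iff hX.indep).1 ((hiff t).1 ht)
  have h1 : {s : ℂ | ¬ SeqInd S fun i => t i + s * u i} ⊆
      ⋃ P : {P : MvPolynomial (Fin n) (Algebra.adjoin ℚ (Set.range ((↑) : X → ℂ))) // P ≠ 0},
        {s : ℂ | MvPolynomial.aeval (fun i => t i + s * u i) P.1 = 0} := by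
    intro s hs
    rw [Set.mem_ofPred_eq, hiff, Cd_iff hX.indep, algebraicIndependent_iff] at hs
    push Not at hs
    obtain ⟨P, hP1, hP2⟩ := hs
    exact Set.mem_iUnion.2 ⟨⟨P, hP2⟩, hP1⟩
  have hX𝔠 : #X < 𝔠 := (Cardinal.mk_le_mk_of_subset hX.subset).trans_lt hS
  have hR : #(Algebra.adjoin ℚ (Set.range ((↑) : X → ℂ))) < 𝔠 := by
    refine (Algebra.cardinalMk_adjoin_le ℚ _).trans_lt ?_
    rw [Subtype.range_coe, Cardinal.mkRat]
    exact max_lt (max_lt aleph0_lt_continuum hX𝔠) aleph0_lt_continuum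
  have hP : #{P : MvPolynomial (Fin n) (Algebra.adjoin ℚ (Set.range ((↑) : X → ℂ))) // P ≠ 0} < 𝔠 := by
    refine (Cardinal.mk_subtype_le _).trans_lt (MvPolynomial.cardinalMk_le_max.trans_lt ?_)
    refine max_lt (max_lt hR ?_) aleph0_lt_continuum
    exact lt_of_lt_of_le (Cardinal.lt_aleph0_of_finite _) aleph0_le_continuum
  refine (Cardinal.mk_le_mk_of_subset h1).trans_lt ((Cardinal.mk_iUnion_le _).trans_lt ?_)
  refine Cardinal.mul_lt_of_lt aleph0_le_continuum hP (lt_of_le_of_lt ?_ aleph0_lt_continuum)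
  refine ciSup_le' fun P => ?_
  exact ((Cd_zeros u P.1 fun h => P.2 ((algebraicIndependent_iff.1 ht') P.1 h)).lt_aleph0).le

end Pool.Agent.AHT
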