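import Mathlib
import Pool.Agent.AHT.Nrb
import Pool.Agent.AHT.Cd
import Pool.Agent.AHU.Ext

/-!
# An automorphism over `cl S` near the identity on `X` can be changed outside `X` to be near the
identity on `X₂`

Relative form of `AHU.near_ext_id` (file `AHU/Ext.lean`, where `S = ∅`).  Proof: copy it, with
`exists_basis S`, `nearby_rel` in the place of `exists_nearby`, `exists_seqInd_small` in the place of
`exists_seqInd_near'`.  Uniqueness (`ext_uniq`): if `X ⊆ cl (S ∪ range t)` then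
`X ⊆ cl (range (a, t))` for a finite family `a` in `S` (`exists_finite_of_mem_cl`), and `ext_uniq`
applies to `Fin.append a t` (automorphisms in `Fx S` fix `a`).
-/

namespace Pool.Agent.AHT

open Pool.Agent.AHC Pool.Agent.AHI Pool.Agent.AHR Pool.Agent.AHU Cardinal

private theorem Exr_uniq {S : Set ℂ} {n : ℕ} {t : Fin n → ℂ} {X : Finset ℂ}
    (hX : (X : Set ℂ) ⊆ cl (S ∪ Set.range t)) :
    ∃ r : ℝ, 0 < r ∧ ∀ x ∈ X, ∀ β ∈ Fx S, ∀ β' ∈ Fx S, (∀ i, β' (t i) = β (t i)) →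
      (∀ i, ‖β (t i) - t i‖ < r) → ‖β x - x‖ < r → ‖β' x - x‖ < r → β' x = β x := by
  classical
  have h1 : ∀ x : ℂ, ∃ I : Set ℂ, x ∈ X → I ⊆ S ∪ Set.range t ∧ I.Finite ∧ x ∈ cl I := by
    intro x
    by_cases hx : x ∈ X
    · obtain ⟨I, h1, h2, -, h3⟩ := exists_finite_of_mem_cl (hX (Finset.mem_coe.2 hx))
      exact ⟨I, fun _ => ⟨h1, h2, h3⟩⟩
    · exact ⟨∅, fun h => absurd h hx⟩
  choose I hI using h1
  have hAf : (S ∩ ⋃ x ∈ X, I x).Finite :=
    Set.Finite.subset (Set.Finite.biUnion X.finite_toSet fun x hx => (hI x hx).2.1)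
      Set.inter_subset_right
  obtain ⟨k, a, -, ha⟩ := hAf.fin_param
  have haS : ∀ i, a i ∈ S := by
    intro i
    have h2 : a i ∈ Set.range a := ⟨i, rfl⟩
    rw [ha] at h2
    exact h2.1
  have hX' : (X : Set ℂ) ⊆ cl (Set.range (Fin.append a t)) := by
    intro x hx
    have hx' := Finset.mem_coe.1 hx
    refine cl_mono ?_ (hI x hx').2.2
    intro z hz
    rcases (hI x hx').1 hz with h2 | ⟨i, rfl⟩
    · have h3 : z ∈ Set.range a := by
        rw [ha]
        exact ⟨h2, Set.mem_biUnion hx' hz⟩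
      obtain ⟨i, rfl⟩ := h3
      exact ⟨Fin.castAdd n i, Fin.append_left _ _ _⟩
    · exact ⟨Fin.natAdd k i, Fin.append_right _ _ _⟩
  obtain ⟨r, hr, hQ⟩ := ext_uniq hX'
  refine ⟨r, hr, fun x hx β hβ β' hβ' h2 h3 h4 h5 => hQ x hx β β' (fun i => ?_) (fun i => ?_) h4 h5⟩
  · induction i using Fin.addCases with
    | left i =>
      rw [Fin.append_left, hβ' _ (subset_cl S (haS i)), hβ _ (subset_cl S (haS i))]
    | right i =>
      rw [Fin.append_right]
      exact h2 i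
  · induction i using Fin.addCases with
    | left i =>
      rw [Fin.append_left, hβ _ (subset_cl S (haS i)), sub_self, norm_zero]
      exact hr
    | right i =>
      rw [Fin.append_right]
      exact h3 i

theorem ext_rel {S : Set ℂ} (hS : #S < 𝔠) (X X₂ : Finset ℂ) {ε₂ : ℝ} (hε₂ : 0 < ε₂) :
    ∃ ε > 0, ∀ β ∈ Fx S, (∀ x ∈ X, ‖β x - x‖ < ε) →
      ∃ β₃ ∈ Fx S, (∀ x ∈ X, β₃ x = β x) ∧ ∀ x ∈ X₂, ‖β₃ x - x‖ < ε₂ := by
  classical
  obtain ⟨n, t, ht1, ht2, ht3⟩ := exists_basis S X.finite_toSet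
  obtain ⟨m, v, hv1, -, hv3⟩ := exists_basis (S ∪ Set.range t) (X ∪ X₂).finite_toSet
  have hb : SeqInd S (Fin.append t v) := seqInd_append ht1 hv1
  have hb3 : ((X ∪ X₂ : Finset ℂ) : Set ℂ) ⊆ cl (S ∪ Set.range (Fin.append t v)) := by
    refine hv3.trans (cl_mono ?_)
    rintro z ((hz | ⟨i, rfl⟩) | ⟨i, rfl⟩)
    · exact Or.inl hz
    · exact Or.inr ⟨Fin.castAdd m i, Fin.append_left _ _ _⟩
    · exact Or.inr ⟨Fin.natAdd n i, Fin.append_right _ _ _⟩
  obtain ⟨r, hr, hQ⟩ := Exr_uniq ht3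
  obtain ⟨δ, hδ, hnear⟩ := nearby_rel hb (X ∪ X₂).finite_toSet hb3 (lt_min hε₂ hr)
  refine ⟨min r δ, lt_min hr hδ, fun β hβS hβ => ?_⟩
  have hβt : ∀ i, ‖β (t i) - t i‖ < min r δ := fun i => hβ _ (Finset.mem_coe.1 (ht2 ⟨i, rfl⟩))
  have hS2 : #(S ∪ Set.range (fun i => β (t i)) : Set ℂ) < 𝔠 :=
    (mk_union_le _ _).trans_lt (add_lt_of_lt aleph0_le_continuum hS
      ((Set.finite_range _).lt_aleph0.trans aleph0_lt_continuum))
  obtain ⟨a, ha1, ha2⟩ := exists_seqInd_small hS2 hδ v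
  have hSim : β '' S = S := by
    ext z
    constructor
    · rintro ⟨y, hy, rfl⟩
      rw [hβS y (subset_cl S hy)]
      exact hy
    · intro hz
      exact ⟨z, hz, hβS z (subset_cl S hz)⟩
  have h1 : SeqInd S (fun i => β (t i)) := by
    have h := ht1.map β
    rwa [hSim] at h
  have h2 : SeqInd S (Fin.append (fun i => β (t i)) a) := seqInd_append h1 ha1
  obtain ⟨β₃, h3, h4, h5⟩ := hnear _ h2 (fun i => by
    induction i using Fin.addCases with
    | left i =>
      rw [Fin.append_left, Fin.append_left]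
      exact (hβt i).trans_le (min_le_right _ _)
    | right i =>
      rw [Fin.append_right, Fin.append_right]
      exact ha2 i)
  refine ⟨β₃, h3, fun x hx => ?_, fun x hx => ?_⟩
  · refine hQ x hx β hβS β₃ h3 (fun i => ?_) (fun i => (hβt i).trans_le (min_le_left _ _))
      ((hβ x hx).trans_le (min_le_left _ _)) ?_
    · have h6 := h4 (Fin.castAdd m i)
      rwa [Fin.append_left, Fin.append_left] at h6
    · exact (h5 x (Finset.mem_coe.2 (Finset.mem_union_left _ hx))).trans_le (min_le_right _ _)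
  · exact (h5 x (Finset.mem_coe.2 (Finset.mem_union_right _ hx))).trans_le (min_le_left _ _)

end Pool.Agent.AHT
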