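import Mathlib
import Pool.Agent.AHT.Exr
import Pool.Agent.AHU.Gluer

/-!
# Independent extensions of the base field

Proof.  Let `Y, ε` be given (for `Inv S' P`), `ε'` from `ext_rel hS' X Y hε`.  By `Inv S P` there is
`g ∈ Fx S` within `ε' / 2` of the identity on `X` with `P g`.  `h𝒫.opn` for `shf g P` (which holds at the
identity): `Y₁, ε₁`, so `P (g.trans k)` for all `k` within `ε₁` of the identity on `Y₁`.  The family
`g v` is independent over `S` (`SeqInd.map`, `g` fixes `S`); let `b` be a basis of `Y₁` over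
`S ∪ range (g v)` (`exists_basis`); `t = Fin.append (g v) b` is independent over `S`
(`AHU.seqInd_append`) and `Y₁ ∪ g X ⊆ cl (S ∪ range t)`.  `δ` from `nearby_rel` for
`η = min ε₁ (ε' / 2)` and `Y₁ ∪ g X`.  Choose `t'` independent over `S'` within `δ` of `t`
(`exists_seqInd_small`); so there is `k ∈ Fx S` with `k t = t'`, near the identity on `Y₁ ∪ g X`.
`v' = k (g v)` is independent over `S'` (it is the first part of `t'`).  By `AHU.glue_rel` with
`X := S'`, `B := range v`, `B' := range v'`, `Ψ := g.trans k`, `A := X` (`SeqInd.indOver`) there is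
`β ∈ Fx S'` with `β = g.trans k` on `X`; it is within `ε'` of the identity on `X`, so `ext_rel` gives
`β₃ ∈ Fx S'`, near the identity on `Y`, with `β₃ = g.trans k` on `X`: `P β₃` by `Dep X P`.
-/

namespace Pool.Agent.AHT

open Pool.Agent.AHC Pool.Agent.AHI Pool.Agent.AHR Pool.Agent.AHU Cardinal

/-- the image of a set in `cl (S ∪ range v)` under an automorphism which fixes `S` -/
theorem Up_map_mem {S : Set ℂ} {m : ℕ} {v : Fin m → ℂ} {g : ℂ ≃+* ℂ} (hg : g ∈ Fx S) {z : ℂ}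
    (hz : z ∈ cl (S ∪ Set.range v)) : g z ∈ cl (S ∪ Set.range fun i => g (v i)) := by
  refine cl_mono ?_ (map_mem_cl g hz)
  rintro _ ⟨y, (hy | ⟨i, rfl⟩), rfl⟩
  · left
    rw [hg y (subset_cl _ hy)]
    exact hy
  · exact Or.inr ⟨i, rfl⟩

theorem Up_seqInd {S : Set ℂ} {m : ℕ} {v : Fin m → ℂ} (hv : SeqInd S v) {g : ℂ ≃+* ℂ}
    (hg : g ∈ Fx S) : SeqInd S fun i => g (v i) := by
  refine (hv.map g).mono ?_
  intro z hz
  exact ⟨z, hz, hg z (subset_cl _ hz)⟩

theorem Up_first {S : Set ℂ} {m n : ℕ} {t : Fin (m + n) → ℂ} (ht : SeqInd S t) :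
    SeqInd S fun i : Fin m => t (Fin.castAdd n i) := by
  intro i hi
  refine ht (Fin.castAdd n i) (cl_mono (Set.union_subset_union_right _ ?_) hi)
  rintro z ⟨j, hj, rfl⟩
  refine ⟨Fin.castAdd n j, ?_, rfl⟩
  have h1 := Fin.lt_def.1 hj
  exact Fin.lt_def.2 (by simpa using h1)

theorem inv_up {C : Set ((ℂ ≃+* ℂ) → Prop)} (hC : Fam C) {P : (ℂ ≃+* ℂ) → Prop} (hP : P ∈ C)
    {X : Finset ℂ} (hX : Dep X P) {S S' : Set ℂ} (hSS : S ⊆ S') (hS' : #S' < 𝔠) {m : ℕ}
    {v : Fin m → ℂ} (hv : SeqInd S' v) (hXv : (X : Set ℂ) ⊆ cl (S ∪ Set.range v))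
    (h : Inv S P) : Inv S' P := by
  intro Y ε hε
  obtain ⟨ε', hε', hext⟩ := ext_rel hS' X Y hε
  obtain ⟨g, hg, hgX, hPg⟩ := h X (ε' / 2) (half_pos hε')
  obtain ⟨Y₁, ε₁, hε₁, hopn⟩ := hC.opn (shf g P) (hC.shift P hP g) (by
    rw [shf_apply]
    exact (hX g (g.trans (RingEquiv.refl ℂ)) fun x _ => rfl).1 hPg)
  have hw : SeqInd S fun i => g (v i) := Up_seqInd (hv.mono hSS) hg
  obtain ⟨n, b, hb1, -, hb3⟩ := exists_basis (S ∪ Set.range fun i => g (v i)) Y₁.finite_toSet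
  have ht : SeqInd S (Fin.append (fun i => g (v i)) b) := seqInd_append hw hb1
  have hsub : (Y₁ : Set ℂ) ∪ g '' X ⊆
      cl (S ∪ Set.range (Fin.append (fun i => g (v i)) b)) := by
    rintro z (hz | ⟨x, hx, rfl⟩)
    · refine cl_mono ?_ (hb3 hz)
      rintro y ((hy | ⟨i, rfl⟩) | ⟨i, rfl⟩)
      · exact Or.inl hy
      · exact Or.inr ⟨Fin.castAdd n i, Fin.append_left _ _ _⟩
      · exact Or.inr ⟨Fin.natAdd m i, Fin.append_right _ _ _⟩
    · refine cl_mono ?_ (Up_map_mem hg (hXv hx))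
      rintro y (hy | ⟨i, rfl⟩)
      · exact Or.inl hy
      · exact Or.inr ⟨Fin.castAdd n i, Fin.append_left _ _ _⟩
  obtain ⟨δ, hδ, hnear⟩ := nearby_rel ht (Y₁.finite_toSet.union (X.finite_toSet.image g)) hsub
    (lt_min hε₁ (half_pos hε'))
  obtain ⟨t', ht1, ht2⟩ := exists_seqInd_small hS' hδ (Fin.append (fun i => g (v i)) b)
  obtain ⟨k, hk, hkt, hkx⟩ := hnear t' (ht1.mono hSS) ht2
  have hv' : SeqInd S' fun i => k (g (v i)) := by
    have h1 := Up_first ht1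
    have h2 : (fun i : Fin m => t' (Fin.castAdd n i)) = fun i => k (g (v i)) := by
      funext i
      rw [← hkt (Fin.castAdd n i), Fin.append_left]
    rwa [h2] at h1
  have hΨ : g.trans k ∈ Fx S := Fx_trans hg hk
  obtain ⟨β, hβ, hβX⟩ := glue_rel hSS hv.indOver hv'.indOver (g.trans k) hΨ X.finite_toSet hXv
    (by
      rintro _ ⟨x, hx, rfl⟩
      exact Up_map_mem hΨ (hXv hx))
  obtain ⟨β₃, h1, h2, h3⟩ := hext β hβ (fun x hx => by
    rw [hβX x (Finset.mem_coe.2 hx), RingEquiv.trans_apply]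
    have h4 : ‖k (g x) - g x‖ < ε' / 2 :=
      (hkx (g x) (Or.inr ⟨x, Finset.mem_coe.2 hx, rfl⟩)).trans_le (min_le_right _ _)
    calc ‖k (g x) - x‖ = ‖(k (g x) - g x) + (g x - x)‖ := by
          congr 1
          ring
      _ ≤ ‖k (g x) - g x‖ + ‖g x - x‖ := norm_add_le _ _
      _ < ε' / 2 + ε' / 2 := add_lt_add h4 (hgX x hx)
      _ = ε' := add_halves ε')
  refine ⟨β₃, h1, h3, ?_⟩
  refine (hX β₃ (g.trans k) fun x hx => ?_).2 ?_
  · rw [h2 x hx, hβX x (Finset.mem_coe.2 hx)]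
  · exact hopn k fun y hy => (hkx y (Or.inl (Finset.mem_coe.2 hy))).trans_le (min_le_left _ _)

end Pool.Agent.AHT
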