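import Mathlib
import Pool.Agent.AHT.Exr

/-!
# The bad values of one element

Proof (Lindelöf).  Let `X₀` be a finite set with `Dep X₀ P`, and `X₁ = X₀ ∪ {t}`.  For `h` in
`E = {h ∈ Fx S | Inv S (shf h P) ∧ ¬ Inv (insert (h t) S) (shf h P)}` let `X_h, ε_h` be from
`hC.thin` for `shf h P` and the element `h t` (`h t ∉ cl S` because `h ∈ Fx S`, `t ∉ cl S`), and `B_h`
the thin set.  By `ext_rel` (with `X := X₁.image h`, `X₂ := X_h`, `ε₂ := ε_h`) there is `δ_h > 0` such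
that every `g ∈ Fx S` within `δ_h` of the identity on `h '' X₁` agrees on `h '' X₁` with some
`g₃ ∈ Fx S` within `ε_h` of the identity on `X_h`.  If `h' ∈ E` is within `δ_h` of `h` on `X₁`, put
`g = h.symm.trans h'` and take `g₃`: `g₃ (h t) = h' t`, and `shf h' P = shf (h.trans g₃) P` because
`h'` and `h.trans g₃` agree on `X₀` (`Dep.shf_eq`); so `h' t ∈ B_h`
(`shf g₃ (shf h P) = shf (h.trans g₃) P`).  The restrictions of the elements of `E` to `X₁` are points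
of `X₁ → ℂ`, which is second countable, so countably many of the balls of radius `δ_h` around the
`h|X₁` cover all of them (`TopologicalSpace.countable_cover_nhdsWithin`).
-/

namespace Pool.Agent.AHT

open Pool.Agent.AHC Pool.Agent.AHI Pool.Agent.AHR Cardinal

/-- one thin set for all the elements near `h` -/
private theorem Lin_near {C : Set ((ℂ ≃+* ℂ) → Prop)} (hC : Fam C) {P : (ℂ ≃+* ℂ) → Prop}
    (hP : P ∈ C) {S : Set ℂ} (hS : #S < 𝔠) {t : ℂ} (ht : t ∉ cl S) {X₁ : Finset ℂ}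
    (htX : t ∈ X₁) (hX : Dep X₁ P) {h : ℂ ≃+* ℂ} (hh : h ∈ Fx S) (hI : Inv S (shf h P)) :
    ∃ δ : ℝ, 0 < δ ∧ ∃ B : Set ℂ, IsThin B ∧ ∀ h' ∈ Fx S,
      ¬ Inv (insert (h' t) S) (shf h' P) → (∀ x ∈ X₁, ‖h' x - h x‖ < δ) → h' t ∈ B := by
  classical
  have hht : h t ∉ cl S := by
    intro h0
    have h1 : h (h t) = h t := hh _ h0
    rw [h.injective h1] at h0
    exact ht h0
  obtain ⟨X₂, ε, hε, hthin⟩ := hC.thin _ (hC.shift P hP h) S hS hI (h t) hht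
  obtain ⟨δ, hδ, hext⟩ := ext_rel hS (X₁.image h) X₂ hε
  refine ⟨δ, hδ, _, hthin, ?_⟩
  intro h' hh' hn hnear
  have hβ : h.symm.trans h' ∈ Fx S := Fx_trans (Fx_symm hh) hh'
  obtain ⟨g, hg, hg1, hg2⟩ := hext _ hβ (by
    intro y hy
    obtain ⟨x, hx, rfl⟩ := Finset.mem_image.mp hy
    rw [RingEquiv.trans_apply, RingEquiv.symm_apply_apply]
    exact hnear x hx)
  have hg3 : ∀ x ∈ X₁, g (h x) = h' x := by
    intro x hx
    rw [hg1 _ (Finset.mem_image_of_mem _ hx), RingEquiv.trans_apply,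
      RingEquiv.symm_apply_apply]
  refine ⟨g, hg, hg2, hg3 t htX, ?_⟩
  rw [shf_shf]
  have h2 : shf (h.trans g) P = shf h' P := by
    refine hX.shf_eq fun x hx => ?_
    rw [RingEquiv.trans_apply, hg3 x hx]
  rw [h2]
  exact hn

theorem bad_thin {C : Set ((ℂ ≃+* ℂ) → Prop)} (hC : Fam C) {P : (ℂ ≃+* ℂ) → Prop} (hP : P ∈ C)
    {S : Set ℂ} (hS : #S < 𝔠) {t : ℂ} (ht : t ∉ cl S) :
    ∃ D : Set (Set ℂ), D.Countable ∧ (∀ B ∈ D, IsThin B) ∧
      ∀ h ∈ Fx S, Inv S (shf h P) → ¬ Inv (insert (h t) S) (shf h P) → ∃ B ∈ D, h t ∈ B := by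
  classical
  obtain ⟨X₀, hX₀⟩ := hC.dep P hP
  let X₁ : Finset ℂ := insert t X₀
  have htX : t ∈ X₁ := Finset.mem_insert_self _ _
  have hX₁ : Dep X₁ P := fun g h hgh => hX₀ g h fun x hx => hgh x (Finset.mem_insert_of_mem hx)
  let E : Set (ℂ ≃+* ℂ) := {h | h ∈ Fx S ∧ Inv S (shf h P) ∧ ¬ Inv (insert (h t) S) (shf h P)}
  have key : ∀ h ∈ E, ∃ δ : ℝ, 0 < δ ∧ ∃ B : Set ℂ, IsThin B ∧ ∀ h' ∈ Fx S,
      ¬ Inv (insert (h' t) S) (shf h' P) → (∀ x ∈ X₁, ‖h' x - h x‖ < δ) → h' t ∈ B :=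
    fun h hh => Lin_near hC hP hS ht htX hX₁ hh.1 hh.2.1
  choose! δ hδ B hB hB' using key
  let ρ : (ℂ ≃+* ℂ) → (X₁ → ℂ) := fun h x => h x
  have hsel : ∀ v ∈ ρ '' E, ∃ h, h ∈ E ∧ ρ h = v := fun v hv => hv
  choose! g hgE hgρ using hsel
  obtain ⟨T, hTs, hTc, hcov⟩ := TopologicalSpace.countable_cover_nhdsWithin
    (f := fun v : X₁ → ℂ => Metric.ball v (δ (g v))) (s := ρ '' E)
    (fun v hv => mem_nhdsWithin_of_mem_nhds (Metric.ball_mem_nhds v (hδ _ (hgE v hv))))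
  refine ⟨(fun v => B (g v)) '' T, hTc.image _, ?_, ?_⟩
  · rintro _ ⟨v, hv, rfl⟩
    exact hB _ (hgE v (hTs hv))
  · intro h hh hI hn
    have hE : h ∈ E := ⟨hh, hI, hn⟩
    obtain ⟨v, hv, hball⟩ := Set.mem_iUnion₂.mp (hcov (Set.mem_image_of_mem ρ hE))
    refine ⟨_, Set.mem_image_of_mem _ hv, ?_⟩
    refine hB' _ (hgE v (hTs hv)) h hh hn fun x hx => ?_
    have h1 : dist (ρ h ⟨x, hx⟩) (v ⟨x, hx⟩) < δ (g v) :=
      (dist_le_pi_dist (ρ h) v ⟨x, hx⟩).trans_lt hball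
    have h2 : v ⟨x, hx⟩ = g v x := by
      conv_lhs => rw [← hgρ v (hTs hv)]
    rw [h2, dist_eq_norm] at h1
    exact h1

end Pool.Agent.AHT
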