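import Mathlib
import Pool.Agent.AHT.Defs

/-!
# Fewer than `𝔠` thin sets do not cover `ℂ`

Proof.  `thin_line`: let `f` be holomorphic on the disc `ball c₀ r`, not real everywhere, and
`B ⊆ {z ∈ ball c₀ r | Im f z = 0}`.  For a real number `c` the set `B ∩ {Re z = c}` is countable
unless `Im f = 0` on the whole chord `{Re z = c} ∩ ball c₀ r` (the real analytic function
`s ↦ Im f (c + i s)` on an interval has isolated zeros or vanishes; one can use the holomorphic
function `s ↦ f (c + i s) - conj (f (c + i (conj s)))`).  If the set of these `c` were uncountable, it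
would have an accumulation point `c₁` with `|c₁ - Re c₀| < r`; then for every `s` near `Im c₀` the real
analytic function `x ↦ Im f (x + i s)` vanishes on an infinite set which accumulates at an interior
point, so it vanishes identically; so `f` is real valued on an open set, so it is constant there
and on the disc (compare `const_of_real` in `AHU/Real.lean` or `AHR`), and real: contradiction.
`exists_notMem_thin`: the set of the `c` with `B ∩ {Re z = c}` uncountable for some `B ∈ D` has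
cardinality at most `#D * ℵ₀ < 𝔠`; choose `c` outside; on the line `Re z = c` (cardinality `𝔠`) the
union of the sets `B` and `M` has cardinality less than `𝔠`.
-/

namespace Pool.Agent.AHT

open Pool.Agent.AHC Pool.Agent.AHI Pool.Agent.AHR Cardinal

open Filter Topology in
private theorem ThinC_countable {g : ℝ → ℝ} {J : Set ℝ} (hg : AnalyticOnNhd ℝ g J) (hJ : IsPreconnected J)
    (hne : ∃ s ∈ J, g s ≠ 0) : {s ∈ J | g s = 0}.Countable := by
  apply (HereditarilyLindelofSpace.isLindelof _).countable_of_isDiscrete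
  rw [isDiscrete_iff_discreteTopology, discreteTopology_subtype_iff]
  intro x hx
  by_contra hcon
  have h1 : ∃ᶠ z in 𝓝[≠] x, g z = 0 := by
    intro h2
    apply hcon
    rw [← disjoint_iff, disjoint_principal_right]
    filter_upwards [h2] with z hz hz'
    exact hz hz'.2
  obtain ⟨s, hs, hgs⟩ := hne
  exact hgs (hg.eqOn_zero_of_preconnected_of_frequently_eq_zero hJ hx.1 h1 hs)

private theorem ThinC_pre {c₀ : ℂ} {r : ℝ} (a b : ℂ) :
    IsPreconnected {s : ℝ | a + s * b ∈ Metric.ball c₀ r} := by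
  have h1 : Convex ℝ {s : ℝ | a + s * b ∈ Metric.ball c₀ r} := by
    intro x hx y hy α β hα hβ hαβ
    have h2 := (convex_ball c₀ r) hx hy hα hβ hαβ
    have h3 : a + ((α • x + β • y : ℝ) : ℂ) * b = α • (a + x * b) + β • (a + y * b) := by
      have h4 : (α : ℂ) + β = 1 := by exact_mod_cast hαβ
      simp only [smul_eq_mul, Complex.real_smul, Complex.ofReal_add, Complex.ofReal_mul]
      linear_combination (-a) * h4
    change a + ((α • x + β • y : ℝ) : ℂ) * b ∈ Metric.ball c₀ r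
    rw [h3]
    exact h2
  exact h1.isPreconnected

private theorem ThinC_an {c₀ : ℂ} {r : ℝ} {f : ℂ → ℂ} (hf : DifferentiableOn ℂ f (Metric.ball c₀ r)) (a b : ℂ) :
    AnalyticOnNhd ℝ (fun s : ℝ => (f (a + s * b)).im) {s : ℝ | a + s * b ∈ Metric.ball c₀ r} := by
  intro s hs
  have h1 : AnalyticAt ℝ f (a + s * b) := ((hf.analyticOnNhd Metric.isOpen_ball) _ hs).restrictScalars
  have h2 : AnalyticAt ℝ (fun s : ℝ => a + s * b) s :=
    analyticAt_const.add ((Complex.ofRealCLM.analyticAt s).mul analyticAt_const)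
  have h3 : AnalyticAt ℝ (fun s : ℝ => f (a + s * b)) s := h1.comp_of_eq h2 rfl
  exact (Complex.imCLM.analyticAt _).comp h3

private theorem ThinC_an2 {c₀ : ℂ} {r : ℝ} {f : ℂ → ℂ} (hf : DifferentiableOn ℂ f (Metric.ball c₀ r)) :
    AnalyticOnNhd ℝ (fun z : ℂ => (f z).im) (Metric.ball c₀ r) := by
  intro z hz
  have h1 : AnalyticAt ℝ f z := ((hf.analyticOnNhd Metric.isOpen_ball) _ hz).restrictScalars
  exact (Complex.imCLM.analyticAt _).comp h1

open Filter Topology in
private theorem ThinC_acc {A : Set ℝ} (hA : ¬ A.Countable) : ∃ c ∈ A, ∃ᶠ x in 𝓝[≠] c, x ∈ A := by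
  by_contra hcon
  push Not at hcon
  apply hA
  apply (HereditarilyLindelofSpace.isLindelof _).countable_of_isDiscrete
  rw [isDiscrete_iff_discreteTopology, discreteTopology_subtype_iff]
  intro x hx
  rw [← disjoint_iff, disjoint_principal_right]
  exact hcon x hx

theorem thin_line {B : Set ℂ} (hB : IsThin B) :
    {c : ℝ | ¬ (B ∩ {z : ℂ | z.re = c}).Countable}.Countable := by
  obtain ⟨c₀, r, f, hf, ⟨z₁, hz₁, hfz⟩, hBf⟩ := hB
  -- on a bad line the function is real
  have hA : ∀ c : ℝ, ¬ (B ∩ {z : ℂ | z.re = c}).Countable → ∀ s : ℝ,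
      (c : ℂ) + s * Complex.I ∈ Metric.ball c₀ r → (f ((c : ℂ) + s * Complex.I)).im = 0 := by
    intro c hc
    by_contra hcon
    push Not at hcon
    obtain ⟨s, hs, hfs⟩ := hcon
    apply hc
    have h1 := ThinC_countable (ThinC_an hf (c : ℂ) Complex.I) (ThinC_pre (c : ℂ) Complex.I) ⟨s, hs, hfs⟩
    refine (h1.image fun s : ℝ => (c : ℂ) + s * Complex.I).mono ?_
    rintro z ⟨hz, hzc⟩
    have h2 : (c : ℂ) + (z.im : ℂ) * Complex.I = z := by
      have h3 : z.re = c := hzc
      rw [← h3]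
      exact Complex.re_add_im z
    obtain ⟨h4, h5⟩ := hBf z hz
    refine ⟨z.im, ⟨?_, ?_⟩, h2⟩
    · change (c : ℂ) + (z.im : ℂ) * Complex.I ∈ Metric.ball c₀ r
      rw [h2]
      exact h4
    · rw [h2]
      exact h5
  by_contra hnc
  obtain ⟨c₁, hc₁, hacc⟩ := ThinC_acc hnc
  -- the bad line meets the disc
  have hne : (B ∩ {z : ℂ | z.re = c₁}).Nonempty := by
    by_contra h
    rw [Set.not_nonempty_iff_eq_empty] at h
    apply hc₁
    rw [h]
    exact Set.countable_empty
  obtain ⟨z₂, hz₂B, hz₂c⟩ := hne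
  have hz₂ : z₂ ∈ Metric.ball c₀ r := (hBf z₂ hz₂B).1
  have hz₂' : (c₁ : ℂ) + (z₂.im : ℂ) * Complex.I = z₂ := by
    have h3 : z₂.re = c₁ := hz₂c
    rw [← h3]
    exact Complex.re_add_im z₂
  -- real on the horizontal lines near z₂
  have hrow : ∀ s : ℝ, (c₁ : ℂ) + s * Complex.I ∈ Metric.ball c₀ r → ∀ x : ℝ,
      (x : ℂ) + s * Complex.I ∈ Metric.ball c₀ r → (f ((x : ℂ) + s * Complex.I)).im = 0 := by
    intro s hs x hx
    have h1 := ThinC_an hf ((s : ℂ) * Complex.I) 1
    have h2 : IsPreconnected {x : ℝ | (s : ℂ) * Complex.I + x * 1 ∈ Metric.ball c₀ r} :=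
      ThinC_pre ((s : ℂ) * Complex.I) 1
    have h3 : ∀ x : ℝ, (s : ℂ) * Complex.I + x * 1 = (x : ℂ) + s * Complex.I := fun x => by ring
    have h4 : c₁ ∈ {x : ℝ | (s : ℂ) * Complex.I + x * 1 ∈ Metric.ball c₀ r} := by
      change (s : ℂ) * Complex.I + c₁ * 1 ∈ Metric.ball c₀ r
      rw [h3]
      exact hs
    have h5 : IsOpen {x : ℝ | (s : ℂ) * Complex.I + x * 1 ∈ Metric.ball c₀ r} :=
      Metric.isOpen_ball.preimage (by fun_prop)
    have h6 : ∃ᶠ x in nhdsWithin c₁ {c₁}ᶜ, (f ((s : ℂ) * Complex.I + (x : ℝ) * 1)).im = 0 := by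
      have h7 : ∀ᶠ x in nhdsWithin c₁ {c₁}ᶜ, x ∈ {x : ℝ | (s : ℂ) * Complex.I + x * 1 ∈ Metric.ball c₀ r} :=
        nhdsWithin_le_nhds (h5.mem_nhds h4)
      refine (hacc.and_eventually h7).mono ?_
      rintro y ⟨hy1, hy2⟩
      rw [h3]
      refine hA y hy1 s ?_
      rw [← h3]
      exact hy2
    have h8 := h1.eqOn_zero_of_preconnected_of_frequently_eq_zero h2 h4 h6
    have h9 : x ∈ {x : ℝ | (s : ℂ) * Complex.I + x * 1 ∈ Metric.ball c₀ r} := by
      change (s : ℂ) * Complex.I + x * 1 ∈ Metric.ball c₀ r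
      rw [h3]
      exact hx
    have h10 := h8 h9
    simp only [h3, Pi.zero_apply] at h10
    exact h10
  have hloc : (fun z : ℂ => (f z).im) =ᶠ[nhds z₂] 0 := by
    have h1 : ∀ᶠ z in nhds z₂, z ∈ Metric.ball c₀ r := Metric.isOpen_ball.mem_nhds hz₂
    have h2 : ∀ᶠ z : ℂ in nhds z₂, (c₁ : ℂ) + (z.im : ℂ) * Complex.I ∈ Metric.ball c₀ r := by
      have h3 : ContinuousAt (fun z : ℂ => (c₁ : ℂ) + (z.im : ℂ) * Complex.I) z₂ := by fun_prop
      refine h3.eventually_mem ?_
      rw [hz₂']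
      exact Metric.isOpen_ball.mem_nhds hz₂
    filter_upwards [h1, h2] with z hz hz'
    have h4 := hrow z.im hz' z.re (by rw [Complex.re_add_im]; exact hz)
    rw [Complex.re_add_im] at h4
    exact h4
  have hall := (ThinC_an2 hf).eqOn_zero_of_preconnected_of_eventuallyEq_zero
    (convex_ball c₀ r).isPreconnected hz₂ hloc
  exact hfz (hall hz₁)

theorem exists_notMem_thin {D : Set (Set ℂ)} (hD : ∀ B ∈ D, IsThin B) (hc : #D < 𝔠) {M : Set ℂ}
    (hM : #M < 𝔠) : ∃ z : ℂ, z ∉ M ∧ ∀ B ∈ D, z ∉ B := by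
  have hDc : #D * ℵ₀ < 𝔠 := mul_lt_of_lt aleph0_le_continuum hc aleph0_lt_continuum
  -- a good line
  obtain ⟨c, hcA⟩ : ∃ c : ℝ, c ∉ ⋃ B : D, {c : ℝ | ¬ ((B : Set ℂ) ∩ {z : ℂ | z.re = c}).Countable} := by
    by_contra hcon
    push Not at hcon
    have h1 : (⋃ B : D, {c : ℝ | ¬ ((B : Set ℂ) ∩ {z : ℂ | z.re = c}).Countable}) = Set.univ :=
      Set.eq_univ_of_forall hcon
    have h2 : #(⋃ B : D, {c : ℝ | ¬ ((B : Set ℂ) ∩ {z : ℂ | z.re = c}).Countable}) ≤ #D * ℵ₀ := by
      refine (mk_iUnion_le _).trans (mul_le_mul' le_rfl (ciSup_le' fun B => ?_))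
      exact (thin_line (hD B B.2)).le_aleph0
    rw [h1, mk_univ_real] at h2
    exact absurd h2 (not_le.mpr hDc)
  have hcB : ∀ B ∈ D, (B ∩ {z : ℂ | z.re = c}).Countable := by
    intro B hB
    by_contra h
    exact hcA (Set.mem_iUnion.mpr ⟨⟨B, hB⟩, h⟩)
  -- a good point on the line
  have h1 : #(M ∪ ⋃ B : D, ((B : Set ℂ) ∩ {z : ℂ | z.re = c}) : Set ℂ) < 𝔠 := by
    refine (mk_union_le _ _).trans_lt (add_lt_of_lt aleph0_le_continuum hM ?_)
    refine lt_of_le_of_lt ?_ hDc
    refine (mk_iUnion_le _).trans (mul_le_mul' le_rfl (ciSup_le' fun B => ?_))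
    exact (hcB B B.2).le_aleph0
  have hinj : Function.Injective fun s : ℝ => (c : ℂ) + s * Complex.I := by
    intro s t hst
    have h2 := congrArg Complex.im hst
    simpa using h2
  by_contra hcon
  push Not at hcon
  have h2 : Set.range (fun s : ℝ => (c : ℂ) + s * Complex.I) ⊆
      M ∪ ⋃ B : D, ((B : Set ℂ) ∩ {z : ℂ | z.re = c}) := by
    rintro _ ⟨s, rfl⟩
    by_cases hm : (c : ℂ) + s * Complex.I ∈ M
    · exact Or.inl hm
    · obtain ⟨B, hB, hzB⟩ := hcon _ hm
      refine Or.inr (Set.mem_iUnion.mpr ⟨⟨B, hB⟩, hzB, ?_⟩)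
      simp
  have h3 := mk_le_mk_of_subset h2
  rw [mk_range_eq _ hinj, mk_real] at h3
  exact absurd h3 (not_le.mpr h1)

end Pool.Agent.AHT
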