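import Mathlib
import Pool.Agent.AHT.Lin
import Pool.Agent.AHT.ThinC

/-!
# Existence of a free element

Proof.  `exists_move_fin`: let `b` be a basis of the finite set `X` over `S` (`exists_basis`,
`n` elements) and `c i = u i` (`i < n`); `exists_move_seq` gives `α ∈ Fx S` with `α b = c`, so
`α '' X ⊆ cl (S ∪ range u)` (`map_mem_cl`).
`exists_free`: choose `u : ℕ → ℂ` independent over `S` (the set `S ∪ u '' {j | j < i}` is small,
`exists_indep_seq`, by recursion), `E₁ = cl (S ∪ range u)`, `#E₁ < 𝔠` (`mk_cl_lt`).  Let `D₀` be the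
countable set of `hC.count` and for `Q ∈ D₀` let `X_Q` be a finite set with `Dep X_Q Q`.  For every
`Q ∈ D₀`, every function `y : X_Q → E₁` and every `t' ∈ E₁` with `t' ∉ cl S` for which there is an
automorphism `g` with `g x = y x` for all `x ∈ X_Q` choose such a `g` and the countable set of thin
sets of `bad_thin` for `shf g Q` and `t'`.  All these thin sets together form a set of cardinality
`< 𝔠` (`#(X_Q → E₁) ≤ max (#E₁) ℵ₀`, `X_Q` is finite).  By `exists_notMem_thin` there is `t ∉ cl S` outside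
all of them.  Let `P ∈ C` with `Inv S P`, `¬ Inv (insert t S) P`, `P = shf g' Q`, `Q ∈ D₀`.  By
`exists_move_fin` there is `α ∈ Fx S` with `α '' (g' '' X_Q ∪ {t}) ⊆ E₁`.  Put `h = α.symm`,
`t' = α t`, `y x = α (g' x)`, and `g` the automorphism chosen for `Q, y, t'`.  Then `P = shf h (shf g Q)`
(`g.trans h` and `g'` agree on `X_Q`), `h t' = t`, so `t` is in one of the thin sets: contradiction.
-/

namespace Pool.Agent.AHT

open Pool.Agent.AHC Pool.Agent.AHI Pool.Agent.AHR Cardinal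

private theorem Free_exists_notMem {M : Set ℂ} (hM : #M < 𝔠) : ∃ z : ℂ, z ∉ M := by
  by_contra hcon
  push Not at hcon
  have h1 : M = Set.univ := Set.eq_univ_of_forall hcon
  rw [h1, mk_univ_complex] at hM
  exact lt_irrefl _ hM

private theorem Free_union_lt {S T : Set ℂ} (hS : #S < 𝔠) (hT : #T < 𝔠) : #(S ∪ T : Set ℂ) < 𝔠 :=
  (mk_union_le S T).trans_lt (add_lt_of_lt aleph0_le_continuum hS hT)

theorem exists_indep_seq {S : Set ℂ} (hS : #S < 𝔠) :
    ∃ u : ℕ → ℂ, ∀ n, SeqInd S fun i : Fin n => u i := by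
  classical
  have h1 : ∀ s : Finset ℂ, ∃ z : ℂ, z ∉ cl (S ∪ (s : Set ℂ)) := by
    intro s
    refine Free_exists_notMem (mk_cl_lt (Free_union_lt hS ?_))
    exact (s.finite_toSet.lt_aleph0).trans aleph0_lt_continuum
  choose st hst using h1
  let f : ℕ → Finset ℂ := fun n => Nat.rec ∅ (fun _ s => insert (st s) s) n
  have hf : ∀ n, f (n + 1) = insert (st (f n)) (f n) := fun n => rfl
  have hmono : Monotone f := by
    refine monotone_nat_of_le_succ fun n => ?_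
    rw [hf]
    exact Finset.subset_insert _ _
  have hmem : ∀ m n, m < n → st (f m) ∈ f n := by
    intro m n hmn
    have h2 : f (m + 1) ⊆ f n := hmono (Nat.succ_le_of_lt hmn)
    refine h2 ?_
    rw [hf]
    exact Finset.mem_insert_self _ _
  refine ⟨fun n => st (f n), fun n i hi => hst (f i) (cl_mono ?_ hi)⟩
  refine Set.union_subset_union_right _ ?_
  rintro _ ⟨j, hj, rfl⟩
  exact hmem _ _ hj

theorem exists_move_fin {S : Set ℂ} {u : ℕ → ℂ} (hu : ∀ n, SeqInd S fun i : Fin n => u i)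
    {X : Set ℂ} (hX : X.Finite) : ∃ α ∈ Fx S, ∀ x ∈ X, α x ∈ cl (S ∪ Set.range u) := by
  obtain ⟨n, b, h1, -, h3⟩ := exists_basis S hX
  obtain ⟨α, h4, h5⟩ := exists_move_seq b (fun i : Fin n => u i) h1 (hu n)
  refine ⟨α, h4, fun x hx => ?_⟩
  refine cl_mono ?_ (map_mem_cl α (h3 hx))
  rintro _ ⟨z, hz | ⟨i, rfl⟩, rfl⟩
  · rw [h4 z (subset_cl _ hz)]
    exact Or.inl hz
  · rw [h5 i]
    exact Or.inr ⟨_, rfl⟩

private theorem Free_mk_index {D₀ : Set ((ℂ ≃+* ℂ) → Prop)} (hD : D₀.Countable) (X : D₀ → Finset ℂ)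
    {E : Set ℂ} (hE : #E < 𝔠) : #(Σ Q : D₀, ((X Q → E) × E)) < 𝔠 := by
  have hκ : max #E ℵ₀ < 𝔠 := max_lt hE aleph0_lt_continuum
  have hκ0 : ℵ₀ ≤ max #E ℵ₀ := le_max_right _ _
  have h1 : ∀ Q : D₀, #((X Q → E) × E) ≤ max #E ℵ₀ := by
    intro Q
    have h2 : #(X Q → E) ≤ max #E ℵ₀ := by
      have h3 : #(X Q → E) = #E ^ #(X Q) := by simp
      rw [h3, mk_coe_finset, power_natCast]
      exact (pow_le_pow_left₀ zero_le (le_max_left _ _) _).trans (power_nat_le hκ0)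
    rw [mk_prod, lift_id, lift_id]
    exact (mul_le_mul' h2 (le_max_left _ _)).trans (mul_eq_self hκ0).le
  have h2 : #D₀ ≤ ℵ₀ := le_aleph0_iff_set_countable.2 hD
  rw [mk_sigma]
  refine (sum_le_sum _ _ h1).trans_lt ?_
  rw [sum_const']
  exact mul_lt_of_lt aleph0_le_continuum (h2.trans_lt aleph0_lt_continuum) hκ

theorem exists_free {C : Set ((ℂ ≃+* ℂ) → Prop)} (hC : Fam C) {S : Set ℂ} (hS : #S < 𝔠) :
    ∃ t, t ∉ cl S ∧ ∀ P ∈ C, Inv S P → Inv (insert t S) P := by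
  classical
  obtain ⟨u, hu⟩ := exists_indep_seq hS
  have hE : #(cl (S ∪ Set.range u)) < 𝔠 :=
    mk_cl_lt (Free_union_lt hS
      ((le_aleph0_iff_set_countable.2 (Set.countable_range u)).trans_lt aleph0_lt_continuum))
  set E : Set ℂ := cl (S ∪ Set.range u) with hEdef
  obtain ⟨D₀, hD₀C, hD₀c, hD₀⟩ := hC.count
  choose X hX using fun Q : D₀ => hC.dep Q.1 (hD₀C Q.2)
  have hch : ∀ j : Σ Q : D₀, ((X Q → E) × E), ∃ D : Set (Set ℂ), D.Countable ∧ (∀ B ∈ D, IsThin B) ∧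
      ((j.2.2 : ℂ) ∉ cl S → ∀ g₀ : ℂ ≃+* ℂ, (∀ x : X j.1, g₀ x = (j.2.1 x : ℂ)) →
        ∃ g : ℂ ≃+* ℂ, (∀ x : X j.1, g x = (j.2.1 x : ℂ)) ∧
          ∀ h ∈ Fx S, Inv S (shf h (shf g j.1.1)) →
            ¬ Inv (insert (h j.2.2) S) (shf h (shf g j.1.1)) → ∃ B ∈ D, h j.2.2 ∈ B) := by
    rintro ⟨Q, y, t'⟩
    by_cases ht' : (t' : ℂ) ∉ cl S
    · by_cases hg : ∃ g : ℂ ≃+* ℂ, ∀ x : X Q, g x = (y x : ℂ)
      · obtain ⟨g, hg⟩ := hg
        obtain ⟨D, h1, h2, h3⟩ := bad_thin hC (hC.shift Q.1 (hD₀C Q.2) g) hS ht'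
        exact ⟨D, h1, h2, fun _ _ _ => ⟨g, hg, h3⟩⟩
      · refine ⟨∅, Set.countable_empty, fun B hB => absurd hB (Set.notMem_empty B), ?_⟩
        intro _ g₀ hg₀
        exact absurd ⟨g₀, hg₀⟩ hg
    · refine ⟨∅, Set.countable_empty, fun B hB => absurd hB (Set.notMem_empty B), ?_⟩
      intro h
      exact absurd h ht'
  choose D hDc hDt hD using hch
  have hcard : #(⋃ j, D j : Set (Set ℂ)) < 𝔠 := by
    refine (mk_iUnion_le_sum_mk).trans_lt ?_
    refine (sum_le_sum _ (fun _ => ℵ₀) fun j => le_aleph0_iff_set_countable.2 (hDc j)).trans_lt ?_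
    rw [sum_const']
    exact mul_lt_of_lt aleph0_le_continuum (Free_mk_index hD₀c X hE) aleph0_lt_continuum
  obtain ⟨t, ht, htB⟩ := exists_notMem_thin (D := ⋃ j, D j) (by
    intro B hB
    obtain ⟨j, hj⟩ := Set.mem_iUnion.1 hB
    exact hDt j B hj) hcard (mk_cl_lt hS)
  refine ⟨t, ht, fun P hP hI => ?_⟩
  by_contra hcon
  obtain ⟨Q, hQ, g', rfl⟩ := hD₀ P hP
  obtain ⟨α, hα, hαX⟩ := exists_move_fin hu
    (X := ((insert t ((X ⟨Q, hQ⟩).image g') : Finset ℂ) : Set ℂ)) (Finset.finite_toSet _)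
  have htE : α t ∈ E := hαX t (by
    rw [Finset.mem_coe]
    exact Finset.mem_insert_self _ _)
  have hxE : ∀ x : X ⟨Q, hQ⟩, α (g' x) ∈ E := fun x => hαX _ (by
    rw [Finset.mem_coe]
    exact Finset.mem_insert_of_mem (Finset.mem_image_of_mem _ x.2))
  have ht' : α t ∉ cl S := by
    intro h
    have h1 := hα _ h
    have h2 : α t = t := α.injective h1
    rw [h2] at h
    exact ht h
  have hh : α.symm ∈ Fx S := Fx_symm hα
  obtain ⟨g, hg, hgB⟩ := hD ⟨⟨Q, hQ⟩, (fun x => ⟨α (g' x), hxE x⟩, ⟨α t, htE⟩)⟩ ht' (g'.trans α)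
    (fun x => rfl)
  have hPe : shf g' Q = shf α.symm (shf g Q) := by
    rw [shf_shf]
    refine (hX ⟨Q, hQ⟩).shf_eq fun x hx => ?_
    have h1 : g x = α (g' x) := hg ⟨x, hx⟩
    rw [RingEquiv.trans_apply, h1, RingEquiv.symm_apply_apply]
  have hht : α.symm (α t) = t := α.symm_apply_apply t
  obtain ⟨B, hB, htB'⟩ := hgB α.symm hh (by
    change Inv S (shf α.symm (shf g Q))
    rw [← hPe]
    exact hI) (by
    change ¬ Inv (insert (α.symm (α t)) S) (shf α.symm (shf g Q))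
    rw [← hPe, hht]
    exact hcon)
  refine htB B (Set.mem_iUnion.2 ⟨_, hB⟩) ?_
  have h9 : α.symm (α t) ∈ B := htB'
  rwa [hht] at h9

end Pool.Agent.AHT
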