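import Mathlib
import Pool.Agent.AHT.Chr
import Pool.Agent.AHT.Exr
import Pool.Agent.AHU.Sta

/-!
# The bad values of one element are thin, for the predicates of the data

`NR d σ`: the periods of the conjugate of the datum `d` by `σ` are not all real.

Proof of `thin_datum`.
(1) `up d.smooth d.hodge {t}` (file `AHU/UP.lean`) gives `X ∋ t` and `δ > 0`.  Let `b` be a basis of
`X` over `insert t S` (`exists_basis`, `range b ⊆ X`), `T = Fin.cons t b : Fin (n + 1) → ℂ`, so
`SeqInd S T` and `X ⊆ cl (S ∪ range T)`.  `r, η, φ` from `chart` for `T`, `X`, `U = ball (inc X) δ`.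
Put `R = r / 8`, `ρ = min R (min (η / 2) (δ / 2))`.
(2) By `hI` choose `h₀ ∈ Fx S` within `ρ` of the identity on `X` with `NR d h₀`; `hd h₀` gives `W₀` and
by `NR` there is a cycle `z₀` such that `evc W₀ z₀` is not `(2πi)^k` times a real number.  Let `Q` be from
`up` for `β₂ = h₀`, `W₀`, `z₀`.  `y₀ i = h₀ (T i)` is independent over `S`.  For `τ` in the disc
`ball (y₀ 0) (2 R)` put `A τ = ((2πi)^k)⁻¹ * Q (φ (Function.update y₀ 0 τ))`.  It is holomorphic (last
statement of `up` for `γ s = φ (Function.update y₀ 0 (y₀ 0 + s R))`, `s ∈ ball 0 2`; the points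
`Function.update y₀ 0 (y₀ 0 + s R) = y₀ + s u`, `u = Pi.single 0 R`, are independent over `S` for a
dense set of `s` by `mk_not_seqInd` and `dense_compl_small`, and then `γ s = res X β`, `β ∈ Fx S ⊆ GA`,
by the last statement of `chart`), and `A (y₀ 0) = ((2πi)^k)⁻¹ * evc W₀ z₀` is not real
(`res X h₀ = φ y₀`).
(3) The answer is `X, ρ`, with the disc `ball (y₀ 0) (2 R)` and the function `A`.  Let
`h ∈ Fx S` be within `ρ` of the identity on `X`, `u = h t`, `¬ Inv (insert u S) (shf h (NR d))`: there are
`Y', ε' > 0` with `¬ NR d (h.trans k)`, so `PerIn RC` for `d.conj (h.trans k)`, for all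
`k ∈ Fx (insert u S)` within `ε'` of the identity on `Y'`.  `|u - y₀ 0| ≤ |h t - t| + |t - h₀ t| < 2 R`.  Let
`y i = h (T i)`, `y' = Function.update y₀ 0 u`, `L s = y + s (y' - y)`; `L s ∈ ball T r` for
`|s| < 2`, and `L s 0 = u` for all `s`.  `g s = ((2πi)^k)⁻¹ * Q (φ (L s))` is holomorphic on `ball 0 2`
(as in (2), `y` is independent over `S`), `g 1 = A u`.
(4) `g s` is real for all `s` near `0` with `SeqInd S (L s)`: the tail of `L s` is independent over
`insert u S` and near the tail `h b` of `y` (which is independent over `insert u S`, `SeqInd.map`).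
By `nearby_rel` for `insert u S`, `h b` and `X.image h ⊆ cl (insert u S ∪ range (h b))` there is
`k₁ ∈ Fx (insert u S)` with `k₁ (h b) =` tail of `L s`, near the identity on `X.image h`; by `ext_rel` (with
`X := X.image h`, `X₂ := Y'`, `ε₂ := ε'`) there is `k ∈ Fx (insert u S)` with `k = k₁` on `X.image h`, within
`ε'` of the identity on `Y'`.  So `PerIn RC` for `d.conj (h.trans k)`, and
`res X (h.trans k) = res X (h.trans k₁) = φ (L s)` (third statement of `chart`), so by `up`
`Q (φ (L s))` is a period of `d.conj (h.trans k)`: `g s` is real.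
(5) These `s` are dense near `0`, so `g` is constant near `0` (`const_of_real`, as in the proof of
`local_dich` in `AHU/Loc.lean`), so it is constant on `ball 0 2` (identity theorem) and
`A u = g 1 = g 0` is real.
-/

namespace Pool.Agent.AHT

open MvPolynomial Pool.Agent.AHC Pool.Agent.AHI Pool.Agent.AHR Pool.Agent.AHU Cardinal

/-- the conjugate of the datum by `σ` is not real -/
def NR (d : Datum) : (ℂ ≃+* ℂ) → Prop := fun σ =>
  ¬ PerIn RC (d.conj σ).F (d.conj σ).k (d.conj σ).w

private theorem Tdat_image_cons {n : ℕ} (a : ℂ) (b : Fin n → ℂ) (i : Fin n) :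
    (Fin.cons a b : Fin (n + 1) → ℂ) '' {j | j < i.succ} = insert a (b '' {j | j < i}) := by
  ext z
  constructor
  · rintro ⟨j, hj, rfl⟩
    induction j using Fin.cases with
    | zero => left; simp
    | succ j =>
      right
      exact ⟨j, Fin.succ_lt_succ_iff.1 hj, by simp⟩
  · rintro (rfl | ⟨j, hj, rfl⟩)
    · exact ⟨0, Fin.succ_pos i, by simp⟩
    · exact ⟨j.succ, Fin.succ_lt_succ_iff.2 hj, by simp⟩

private theorem Tdat_union_insert (S A : Set ℂ) (a : ℂ) : S ∪ insert a A = insert a S ∪ A := by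
  rw [Set.union_insert, Set.insert_union]

private theorem Tdat_cons {S : Set ℂ} {n : ℕ} {a : ℂ} {b : Fin n → ℂ} (ha : a ∉ cl S)
    (hb : SeqInd (insert a S) b) : SeqInd S (Fin.cons a b : Fin (n + 1) → ℂ) := by
  intro i
  induction i using Fin.cases with
  | zero =>
    have h1 : (Fin.cons a b : Fin (n + 1) → ℂ) '' {j | j < 0} = ∅ := by
      rw [Set.image_eq_empty]
      ext j
      simp
    rw [h1, Set.union_empty, Fin.cons_zero]
    exact ha
  | succ i =>
    rw [Tdat_image_cons, Tdat_union_insert, Fin.cons_succ]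
    exact hb i

private theorem Tdat_tail {S : Set ℂ} {n : ℕ} {y : Fin (n + 1) → ℂ} (hy : SeqInd S y)
    {y0 : ℂ} {yt : Fin n → ℂ} (h0 : y 0 = y0) (ht : ∀ i, y (Fin.succ i) = yt i) :
    SeqInd (insert y0 S) yt := by
  obtain rfl : (fun i : Fin n => y i.succ) = yt := funext ht
  subst h0
  intro i
  have h1 := hy i.succ
  have h2 : y '' {j | j < i.succ} = insert (y 0) ((fun i : Fin n => y i.succ) '' {j | j < i}) := by
    have h3 := Tdat_image_cons (y 0) (fun i : Fin n => y i.succ) i
    have h4 : (Fin.cons (y 0) (fun i : Fin n => y i.succ) : Fin (n + 1) → ℂ) = y :=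
      Fin.cons_self_tail y
    rw [h4] at h3
    exact h3
  rw [h2, Tdat_union_insert] at h1
  exact h1

private theorem Tdat_Fx_sub (S : Set ℂ) {β : ℂ ≃+* ℂ} (hβ : β ∈ Fx S) : β ∈ GA :=
  fun z hz => hβ z (cl_mono (Set.empty_subset S) hz)

private theorem Tdat_image {S : Set ℂ} {h : ℂ ≃+* ℂ} (hh : h ∈ Fx S) : h '' S = S := by
  ext z
  constructor
  · rintro ⟨y, hy, rfl⟩
    rw [hh y (subset_cl _ hy)]
    exact hy
  · intro hz
    exact ⟨z, hz, hh z (subset_cl _ hz)⟩

theorem thin_datum (d : Datum) (hd : AllClosed d) {S : Set ℂ} (hS : #S < 𝔠)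
    (hI : Inv S (NR d)) {t : ℂ} (ht : t ∉ cl S) :
    ∃ (X : Finset ℂ) (ε : ℝ), 0 < ε ∧ IsThin {u | ∃ h ∈ Fx S, (∀ x ∈ X, ‖h x - x‖ < ε) ∧
      h t = u ∧ ¬ Inv (insert u S) (shf h (NR d))} := by
  classical
  obtain ⟨X, δ, hYX, hδ, hup⟩ := up d.smooth d.hodge {t}
  have htX : t ∈ X := hYX (Finset.mem_singleton_self t)
  obtain ⟨n, b, hb, hbX, hXb⟩ := exists_basis (insert t S) X.finite_toSet
  set T : Fin (n + 1) → ℂ := Fin.cons t b with hTdef
  have hT : SeqInd S T := Tdat_cons ht hb
  have hT0 : T 0 = t := by rw [hTdef, Fin.cons_zero]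
  have hTs : ∀ i : Fin n, T i.succ = b i := fun i => by rw [hTdef, Fin.cons_succ]
  have hTX : ∀ i, T i ∈ X := by
    intro i
    induction i using Fin.cases with
    | zero => rw [hT0]; exact htX
    | succ i => rw [hTs]; exact hbX ⟨i, rfl⟩
  have hXT : (X : Set ℂ) ⊆ cl (S ∪ Set.range T) := by
    have h1 : Set.range T = insert t (Set.range b) := by
      rw [hTdef, Fin.range_cons]
    rw [h1, Tdat_union_insert]
    exact hXb
  obtain ⟨r, η, φ, hr, hη, hφd, hφU, hφ3, hφ4⟩ :=
    chart hT X hXT (Metric.ball_mem_nhds (inc X) hδ)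
  set R : ℝ := r / 8 with hR
  have hR0 : 0 < R := by positivity
  have hρ : 0 < min R (η / 2) := lt_min hR0 (by positivity)
  have hdist : ∀ β : ℂ ≃+* ℂ, (∀ x ∈ X, ‖β x - x‖ < min (min R (η / 2)) δ) →
      dist (res X β) (inc X) < δ := by
    intro β hβ
    rw [dist_pi_lt_iff hδ]
    intro x
    rw [dist_eq_norm]
    exact (hβ x x.2).trans_le (min_le_right _ _)
  have hball : ∀ y : Fin (n + 1) → ℂ, (∀ i, ‖y i - T i‖ < r) → y ∈ Metric.ball T r := by
    intro y hy
    rw [Metric.mem_ball, dist_pi_lt_iff hr]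
    intro i
    rw [dist_eq_norm]
    exact hy i
  have hpi : (2 * (Real.pi : ℂ) * Complex.I) ^ d.k ≠ 0 :=
    pow_ne_zero _ (by simp [Real.pi_ne_zero])
  set c := (2 * (Real.pi : ℂ) * Complex.I) ^ d.k with hc
  -- the starting automorphism
  obtain ⟨h₀, hh₀, hnear₀, hNR⟩ := hI X (min (min R (η / 2)) δ) (lt_min hρ hδ)
  obtain ⟨W₀, hW₀⟩ := hd h₀
  obtain ⟨z₀, hz₀, hz₀r⟩ : ∃ z₀, IsCyc (d.conj h₀).F (d.conj h₀).k z₀ ∧
      ∀ a ∈ RC, evc W₀ z₀ ≠ c * a := by
    by_contra hcon
    push Not at hcon
    exact hNR ⟨W₀, hW₀, hcon⟩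
  obtain ⟨Q, hQ1, hQ2, hQ3⟩ := hup h₀ (hdist h₀ hnear₀) W₀ hW₀ z₀ hz₀
  -- independent points on a line are dense
  have hdense : ∀ y u : Fin (n + 1) → ℂ, SeqInd S y →
      Dense {s : ℂ | SeqInd S fun i => y i + s * u i} := by
    intro y u hy
    have h1 := dense_compl_small (mk_not_seqInd hS u hy)
    have h2 : {s : ℂ | ¬ SeqInd S fun i => y i + s * u i}ᶜ =
        {s : ℂ | SeqInd S fun i => y i + s * u i} := by
      ext s
      simp
    rwa [h2] at h1
  -- holomorphy along lines
  have hline : ∀ y u : Fin (n + 1) → ℂ, SeqInd S y →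
      (∀ s ∈ Metric.ball (0 : ℂ) 2, (fun i => y i + s * u i) ∈ Metric.ball T r) →
      DifferentiableOn ℂ (fun s : ℂ => c⁻¹ * Q (φ fun i => y i + s * u i)) (Metric.ball 0 2) := by
    intro y u hy hyu
    refine DifferentiableOn.const_mul ?_ _
    refine hQ3 (fun s => φ fun i => y i + s * u i) ?_ (fun s hs => hφU _ (hyu s hs)) ?_
    · refine hφd.comp (g := φ) (f := fun (s : ℂ) i => y i + s * u i) ?_ hyu
      refine differentiableOn_pi.2 fun i => ?_
      fun_prop
    · intro s hs
      have h1 := Metric.isOpen_ball.inter_closure ⟨hs, (hdense y u hy) s⟩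
      refine closure_mono ?_ h1
      rintro x ⟨hx1, hx2⟩
      obtain ⟨β, e1, -, e3⟩ := hφ4 _ (hyu x hx1) hx2
      exact ⟨hx1, β, Tdat_Fx_sub S e1, e3⟩
  -- near automorphisms
  have hfix : ∀ β : ℂ ≃+* ℂ, β ∈ Fx S → SeqInd S fun i => β (T i) := by
    intro β hβ
    have h1 := hT.map β
    rwa [Tdat_image hβ] at h1
  have hnR : ∀ β : ℂ ≃+* ℂ, (∀ x ∈ X, ‖β x - x‖ < min (min R (η / 2)) δ) →
      ∀ x ∈ X, ‖β x - x‖ < R := fun β hβ x hx =>
    (hβ x hx).trans_le ((min_le_left _ _).trans (min_le_left _ _))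
  have hnη : ∀ β : ℂ ≃+* ℂ, (∀ x ∈ X, ‖β x - x‖ < min (min R (η / 2)) δ) →
      ∀ x ∈ X, ‖β x - x‖ < η / 2 := fun β hβ x hx =>
    (hβ x hx).trans_le ((min_le_left _ _).trans (min_le_right _ _))
  set y₀ : Fin (n + 1) → ℂ := fun i => h₀ (T i) with hy₀
  have hy₀R : ∀ i, ‖y₀ i - T i‖ < R := fun i => hnR h₀ hnear₀ _ (hTX i)
  have hres₀ : res X h₀ = φ y₀ := by
    refine hφ3 h₀ hh₀ (hball _ fun i => (hy₀R i).trans_le (by linarith)) fun x hx => ?_
    have := hnη h₀ hnear₀ x hx
    linarith
  refine ⟨X, min (min R (η / 2)) δ, lt_min hρ hδ, y₀ 0, 2 * R,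
    fun τ => c⁻¹ * Q (φ (Function.update y₀ 0 τ)), ?_, ⟨y₀ 0, ?_, ?_⟩, ?_⟩
  · -- holomorphy
    have h1 := hline y₀ (Pi.single 0 (R : ℂ)) (hfix h₀ hh₀) (by
      intro s hs
      refine hball _ fun i => ?_
      have h2 : ‖s‖ < 2 := by simpa using hs
      have h3 : y₀ i + s * (Pi.single 0 (R : ℂ) : Fin (n + 1) → ℂ) i - T i =
        (y₀ i - T i) + s * (Pi.single 0 (R : ℂ) : Fin (n + 1) → ℂ) i := by ring
      rw [h3]
      refine (norm_add_le _ _).trans_lt ?_
      have h4 : ‖(Pi.single 0 (R : ℂ) : Fin (n + 1) → ℂ) i‖ ≤ R := by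
        by_cases hi : i = 0
        · subst hi
          rw [Pi.single_eq_same, Complex.norm_real, Real.norm_of_nonneg hR0.le]
        · rw [Pi.single_eq_of_ne hi, norm_zero]
          exact hR0.le
      have h5 : ‖s * (Pi.single 0 (R : ℂ) : Fin (n + 1) → ℂ) i‖ ≤ 2 * R := by
        rw [norm_mul]
        exact mul_le_mul h2.le h4 (norm_nonneg _) (by norm_num)
      have h6 := hy₀R i
      linarith)
    have h7 : Set.MapsTo (fun τ : ℂ => (τ - y₀ 0) / R) (Metric.ball (y₀ 0) (2 * R))
        (Metric.ball 0 2) := by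
      intro τ hτ
      rw [Metric.mem_ball, dist_eq_norm] at hτ
      rw [Metric.mem_ball, dist_zero_right, norm_div, Complex.norm_real,
        Real.norm_of_nonneg hR0.le, div_lt_iff₀ hR0]
      exact hτ
    have h8 : DifferentiableOn ℂ (fun τ : ℂ => (τ - y₀ 0) / R) (Metric.ball (y₀ 0) (2 * R)) := by
      fun_prop
    refine (h1.comp h8 h7).congr fun τ _ => ?_
    have h9 : Function.update y₀ 0 τ =
        fun i => y₀ i + (τ - y₀ 0) / R * (Pi.single 0 (R : ℂ) : Fin (n + 1) → ℂ) i := by
      funext i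
      by_cases hi : i = 0
      · subst hi
        have h10 : (R : ℂ) ≠ 0 := by exact_mod_cast hR0.ne'
        rw [Function.update_self, Pi.single_eq_same, div_mul_cancel₀ _ h10]
        ring
      · rw [Function.update_of_ne hi, Pi.single_eq_of_ne hi, mul_zero, add_zero]
    simp only [Function.comp_apply]
    rw [h9]
  · exact Metric.mem_ball_self (by positivity)
  · -- not real at the centre
    intro him
    simp only [Function.update_eq_self] at him
    rw [← hres₀, hQ2] at him
    refine hz₀r _ ⟨(c⁻¹ * evc W₀ z₀).re, rfl⟩ ?_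
    have h1 : (((c⁻¹ * evc W₀ z₀).re : ℝ) : ℂ) = c⁻¹ * evc W₀ z₀ := by
      apply Complex.ext
      · simp
      · simp only [Complex.ofReal_im]
        exact him.symm
    rw [h1, mul_inv_cancel_left₀ hpi]
  · -- the bad values
    rintro u ⟨h, hh, hnear, hu, hnInv⟩
    have hut : ‖u - t‖ < R := by
      rw [← hu]
      exact hnR h hnear t htX
    refine ⟨?_, ?_⟩
    · rw [Metric.mem_ball, dist_eq_norm]
      have h1 := hy₀R 0
      rw [hT0] at h1
      have h2 : u - y₀ 0 = (u - t) - (y₀ 0 - t) := by ring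
      rw [h2]
      refine (norm_sub_le _ _).trans_lt ?_
      linarith
    · simp only [Inv, not_forall, not_exists, not_and] at hnInv
      obtain ⟨Y', ε', hε', hbad⟩ := hnInv
      have hbad' : ∀ k ∈ Fx (insert u S), (∀ y ∈ Y', ‖k y - y‖ < ε') →
          PerIn RC (d.conj (h.trans k)).F (d.conj (h.trans k)).k (d.conj (h.trans k)).w :=
        fun k hk hkY => not_not.1 (hbad k hk hkY)
      set y : Fin (n + 1) → ℂ := fun i => h (T i) with hy
      have hyR : ∀ i, ‖y i - T i‖ < R := fun i => hnR h hnear _ (hTX i)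
      have hyS : SeqInd S y := hfix h hh
      set y' : Fin (n + 1) → ℂ := Function.update y₀ 0 u with hy'
      have hy'R : ∀ i, ‖y' i - T i‖ < R := by
        intro i
        by_cases hi : i = 0
        · subst hi
          rw [hy', Function.update_self, hT0]
          exact hut
        · rw [hy', Function.update_of_ne hi]
          exact hy₀R i
      have hyy' : ∀ i, ‖y' i - y i‖ < 2 * R := by
        intro i
        have h1 : y' i - y i = (y' i - T i) - (y i - T i) := by ring
        rw [h1]
        refine (norm_sub_le _ _).trans_lt ?_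
        have h2 := hyR i
        have h3 := hy'R i
        linarith
      have hLball : ∀ s ∈ Metric.ball (0 : ℂ) 2,
          (fun i => y i + s * (y' - y) i) ∈ Metric.ball T r := by
        intro s hs
        refine hball _ fun i => ?_
        have h2 : ‖s‖ < 2 := by simpa using hs
        have h3 : y i + s * (y' - y) i - T i = (y i - T i) + s * (y' i - y i) := by
          rw [Pi.sub_apply]
          ring
        rw [h3]
        refine (norm_add_le _ _).trans_lt ?_
        have h5 : ‖s * (y' i - y i)‖ ≤ 2 * (2 * R) := by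
          rw [norm_mul]
          exact mul_le_mul h2.le (hyy' i).le (norm_nonneg _) (by norm_num)
        have h6 := hyR i
        linarith
      have hg := hline y (y' - y) hyS hLball
      have hy0 : y 0 = u := by
        rw [hy]
        simp only [hT0, hu]
      have hL0 : ∀ s : ℂ, y 0 + s * (y' - y) 0 = u := by
        intro s
        rw [Pi.sub_apply, hy', Function.update_self, hy0, sub_self, mul_zero, add_zero]
      -- the relative constructions over `insert u S`
      have hS' : #(insert u S : Set ℂ) < 𝔠 := by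
        refine (mk_insert_le).trans_lt ?_
        exact add_lt_of_lt aleph0_le_continuum hS (one_lt_aleph0.trans aleph0_lt_continuum)
      have himg : h '' insert t S = insert u S := by
        rw [Set.image_insert_eq, hu, Tdat_image hh]
      have hhb : SeqInd (insert u S) fun i => h (b i) := by
        have h1 := hb.map h
        rwa [himg] at h1
      obtain ⟨ε₃, hε₃, hext⟩ := ext_rel hS' (X.image h) Y' hε'
      obtain ⟨δ', hδ', hnb⟩ := nearby_rel hhb (X := ((X.image h : Finset ℂ) : Set ℂ))
        (Finset.finite_toSet _) (by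
          rw [Finset.coe_image]
          have h1 : h '' (X : Set ℂ) ⊆ h '' cl (insert t S ∪ Set.range b) :=
            Set.image_mono hXb
          rw [image_cl, Set.image_union, himg, ← Set.range_comp] at h1
          exact h1) (η := min ε₃ (η / 2)) (lt_min hε₃ (by positivity))
      have hreal : ∀ s : ℂ, ‖s‖ < min 2 (δ' / (2 * R)) →
          s ∈ {s : ℂ | SeqInd S fun i => y i + s * (y' - y) i} →
          (c⁻¹ * Q (φ fun i => y i + s * (y' - y) i)).im = 0 := by
        intro s hs hsI
        have hs2 : s ∈ Metric.ball (0 : ℂ) 2 := by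
          rw [Metric.mem_ball, dist_zero_right]
          exact hs.trans_le (min_le_left _ _)
        have htl : SeqInd (insert u S) (fun i : Fin n => y i.succ + s * (y' - y) i.succ) :=
          Tdat_tail (y := fun i => y i + s * (y' - y) i) hsI (hL0 s) fun i => rfl
        obtain ⟨k₁, hk₁, hk₁b, hk₁X⟩ := hnb _ htl (by
          intro i
          have h1 : y i.succ + s * (y' - y) i.succ - h (b i) = s * (y' i.succ - y i.succ) := by
            rw [Pi.sub_apply]
            have h2 : y i.succ = h (b i) := by rw [hy]; simp only [hTs]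
            rw [h2]
            ring
          rw [h1, norm_mul]
          have h2 : ‖s‖ < δ' / (2 * R) := hs.trans_le (min_le_right _ _)
          rw [lt_div_iff₀ (by positivity)] at h2
          refine lt_of_le_of_lt ?_ h2
          exact mul_le_mul_of_nonneg_left (hyy' i.succ).le (norm_nonneg _))
        obtain ⟨k, hk, hkX, hkY⟩ := hext k₁ hk₁ (fun x hx =>
          (hk₁X x hx).trans_le (min_le_left _ _))
        have hper : PerIn RC (conjEqs (h.trans k) d.F) d.k (d.w.conj (h.trans k)) :=
          hbad' k hk hkY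
        have hkS : h.trans k ∈ Fx S := Fx_trans hh (Fx_anti (Set.subset_insert _ _) hk)
        have hval : (fun i => (h.trans k) (T i)) = fun i => y i + s * (y' - y) i := by
          funext i
          induction i using Fin.cases with
          | zero =>
            rw [hL0, RingEquiv.trans_apply, hT0, hu]
            exact hk u (subset_cl _ (Set.mem_insert _ _))
          | succ i =>
            rw [RingEquiv.trans_apply, hTs, hkX _ (Finset.mem_image_of_mem _ (hbX ⟨i, rfl⟩))]
            exact hk₁b i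
        have hres : res X (h.trans k) = φ fun i => y i + s * (y' - y) i := by
          have h1 := hφ3 (h.trans k) hkS (by rw [hval]; exact hLball s hs2) (by
            intro x hx
            have h2 : (h.trans k) x - x = (k (h x) - h x) + (h x - x) := by
              rw [RingEquiv.trans_apply]
              ring
            rw [h2]
            refine (norm_add_le _ _).trans_lt ?_
            have hxm : h x ∈ X.image h := Finset.mem_image_of_mem _ hx
            have h3 : ‖k (h x) - h x‖ < η / 2 := by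
              rw [hkX _ hxm]
              exact (hk₁X _ hxm).trans_le (min_le_right _ _)
            have h4 := hnη h hnear x hx
            linarith)
          rw [hval] at h1
          exact h1
        have hdk : dist (res X (h.trans k)) (inc X) < δ := by
          rw [hres]
          exact hφU _ (hLball s hs2)
        obtain ⟨z', hcyc, hev⟩ := hQ1 (h.trans k) hdk
        obtain ⟨W', hW', hz'⟩ := hper
        obtain ⟨a, ⟨a', rfl⟩, he⟩ := hz' z' hcyc
        have h5 : Q (φ fun i => y i + s * (y' - y) i) = c * (a' : ℂ) := by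
          rw [← hres, ← hev W' hW', he]
        rw [h5, inv_mul_cancel_left₀ hpi]
        exact Complex.ofReal_im a'
      -- constancy
      set r' : ℝ := min 2 (δ' / (2 * R)) with hr'
      have hr'0 : 0 < r' := lt_min two_pos (by positivity)
      have hsub : Metric.ball (0 : ℂ) r' ⊆ Metric.ball 0 2 :=
        Metric.ball_subset_ball (min_le_left _ _)
      have hdense' : Metric.ball (0 : ℂ) r' ⊆ closure {s | s ∈ Metric.ball (0 : ℂ) r' ∧
          s ∈ {s : ℂ | SeqInd S fun i => y i + s * (y' - y) i}} := by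
        intro s hs
        exact Metric.isOpen_ball.inter_closure ⟨hs, (hdense y (y' - y) hyS) s⟩
      have hmem0 : (0 : ℂ) ∈ Metric.ball (0 : ℂ) 2 := by simp
      have hmem1 : (1 : ℂ) ∈ Metric.ball (0 : ℂ) 2 := by simp
      have hconst : ∀ s ∈ Metric.ball (0 : ℂ) r',
          c⁻¹ * Q (φ fun i => y i + s * (y' - y) i) =
            c⁻¹ * Q (φ fun i => y i + (0 : ℂ) * (y' - y) i) := fun s hs =>
        const_of_real (f := fun s : ℂ => c⁻¹ * Q (φ fun i => y i + s * (y' - y) i))
          (hg.mono hsub) hdense' (fun s hs hsD => hreal s (by simpa using hs) hsD) hs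
          (by simpa using hr'0)
      have heq : Set.EqOn (fun s : ℂ => c⁻¹ * Q (φ fun i => y i + s * (y' - y) i))
          (fun _ => c⁻¹ * Q (φ fun i => y i + (0 : ℂ) * (y' - y) i)) (Metric.ball 0 2) :=
        (hg.analyticOnNhd Metric.isOpen_ball).eqOn_of_preconnected_of_eventuallyEq
          analyticOnNhd_const (convex_ball 0 2).isPreconnected hmem0
          (Filter.eventuallyEq_of_mem (Metric.ball_mem_nhds 0 hr'0) hconst)
      have h1 : c⁻¹ * Q (φ fun i => y i + (1 : ℂ) * (y' - y) i) =
        c⁻¹ * Q (φ fun i => y i + (0 : ℂ) * (y' - y) i) := heq hmem1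
      have h2 := hreal 0 (by simpa using hr'0) (by simpa using hyS)
      rw [← h1] at h2
      have h3 : (fun i => y i + (1 : ℂ) * (y' - y) i) = y' := by
        funext i
        rw [Pi.sub_apply]
        ring
      rw [h3] at h2
      exact h2

end Pool.Agent.AHT
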