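import Mathlib
import Pool.Agent.AHT.Tdat
import Pool.Agent.AHT.Free

/-!
# Up to automorphisms there are only countably many data

Proof.  Let `u : ℕ → ℂ` be from `exists_indep_seq` for `S = ∅` and `E₀ = cl (range u)`, a countable
set (`cl_countable` in `AHC/Two.lean`).  Let `D₀` be the set of all data `d` such that all coefficients
of the equations `d.F i` are in `E₀`, `d.w p q = fun _ => []` if `p + q ≠ 2 * d.k`, and the numerators of
the rational functions in the terms of `d.w p q I` have coefficients in `E₀`.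
`D₀` is countable: a datum is determined by `N, m, k` and `F`, `w`; for fixed `N, m, k` the set of
the `F` with coefficients in `E₀` is countable (a polynomial with coefficients in the countable set
`E₀` is determined by a finitely supported function with values in `E₀`), rational functions are
pairs of a polynomial and an element of `Fin (N + 1) → ℕ`, lists of elements of a countable set form a
countable set, and `w` is determined by its components with `p ≤ 2 k`, `q = 2 k - p` (finitely many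
`p` and `I`).
Let `d` be a datum with `AllClosed d` and `X` the finite set of the coefficients of `d.F` and of
the components of degree `2 k` of `d.w` (`exists_coeffs`).  `exists_move_fin` gives `α` with
`α '' X ⊆ E₀`.  Let `d'` be `d.conj α` with the components of `w` of degree different from `2 k`
replaced by `[]`; `d' ∈ D₀`.  `IsPer` and so `PerIn`, and `NR`, only depend on the components of
degree `2 k`, also after conjugation; so `AllClosed d'` and `NR d' = NR (d.conj α) = shf α (NR d)`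
(`Datum.conj_conj`), and `NR d = shf α.symm (NR d')`.
-/

namespace Pool.Agent.AHT

open MvPolynomial Pool.Agent.AHC Pool.Agent.AHI Pool.Agent.AHR Pool.Agent.AHU Cardinal

private theorem Cdat_poly {E : Set ℂ} (hE : E.Countable) (n : ℕ) :
    {P : MvPolynomial (Fin n) ℂ | ∀ c ∈ P.coeffs, c ∈ cl E}.Countable := by
  have h1 : Countable (clF E) := (cl_countable hE).to_subtype
  have h2 : Countable (MvPolynomial (Fin n) (clF E)) := by
    refine Cardinal.mk_le_aleph0_iff.1 ?_
    refine (MvPolynomial.cardinalMk_le_max (σ := Fin n) (R := clF E)).trans ?_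
    refine max_le (max_le (Cardinal.mk_le_aleph0_iff.2 h1) ?_) le_rfl
    exact Cardinal.mk_le_aleph0
  refine (Set.countable_range (MvPolynomial.map (σ := Fin n) (algebraMap (clF E) ℂ))).mono ?_
  intro P hP
  rw [MvPolynomial.mem_range_map_iff_coeffs_subset]
  intro c hc
  exact ⟨⟨c, hP c hc⟩, rfl⟩

private theorem Cdat_rat {E : Set ℂ} (hE : E.Countable) (N : ℕ) :
    {f : RatFun N | ∀ c ∈ f.num.coeffs, c ∈ cl E}.Countable := by
  have h1 : ({P : CPoly N | ∀ c ∈ P.coeffs, c ∈ cl E} ×ˢ (Set.univ : Set (Fin (N + 1) → ℕ))).Countable :=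
    (Cdat_poly hE (N + 1)).prod Set.countable_univ
  refine Set.countable_of_injective_of_countable_image (f := fun f : RatFun N => (f.num, f.den))
    ?_ (h1.mono ?_)
  · rintro ⟨a, b⟩ _ ⟨c, d⟩ _ h
    simp only [Prod.mk.injEq] at h
    obtain ⟨rfl, rfl⟩ := h
    rfl
  · rintro _ ⟨f, hf, rfl⟩
    exact ⟨hf, Set.mem_univ _⟩

/-- the terms with coefficients in a countable set -/
private def Cdat_T (E : Set ℂ) (N q : ℕ) : Set (RatFun N × (Fin q → RatFun N)) :=
  {x | (∀ c ∈ x.1.num.coeffs, c ∈ cl E) ∧ ∀ b, ∀ c ∈ (x.2 b).num.coeffs, c ∈ cl E}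

private theorem Cdat_term {E : Set ℂ} (hE : E.Countable) (N q : ℕ) : (Cdat_T E N q).Countable := by
  have h1 : ({f : RatFun N | ∀ c ∈ f.num.coeffs, c ∈ cl E} ×ˢ
      {g : Fin q → RatFun N | ∀ b, g b ∈ {f : RatFun N | ∀ c ∈ f.num.coeffs, c ∈ cl E}}).Countable :=
    (Cdat_rat hE N).prod (Set.countable_pi fun _ => Cdat_rat hE N)
  refine h1.mono ?_
  rintro x ⟨hx1, hx2⟩
  exact ⟨hx1, hx2⟩

private theorem Cdat_list {α : Type*} {s : Set α} (hs : s.Countable) :
    {l : List α | ∀ x ∈ l, x ∈ s}.Countable := by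
  have h1 : Countable s := hs.to_subtype
  rw [← Set.range_list_map_coe]
  exact Set.countable_range _

/-- the cochains of degree `2 k` with coefficients in a countable set -/
private def Cdat_W (E : Set ℂ) (N k : ℕ) : Set (FormCochain N) :=
  {w | (∀ p q, p + q ≠ 2 * k → ∀ I, w p q I = []) ∧
    ∀ p q, p + q = 2 * k → ∀ I, ∀ x ∈ w p q I, x ∈ Cdat_T E N q}

private theorem Cdat_coch {E : Set ℂ} (hE : E.Countable) (N k : ℕ) : (Cdat_W E N k).Countable := by
  have h1 : {g : ∀ p : Fin (2 * k + 1), (Fin ((p : ℕ) + 1) → Fin (N + 1)) → AlgForm N (2 * k - p) |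
      ∀ p : Fin (2 * k + 1), g p ∈ {g' : (Fin ((p : ℕ) + 1) → Fin (N + 1)) → AlgForm N (2 * k - p) |
        ∀ I, g' I ∈ {l : AlgForm N (2 * k - p) | ∀ x ∈ l, x ∈ Cdat_T E N (2 * k - p)}}}.Countable :=
    Set.countable_pi fun p => Set.countable_pi fun I => Cdat_list (Cdat_term hE N _)
  refine Set.countable_of_injective_of_countable_image
    (f := fun (w : FormCochain N) (p : Fin (2 * k + 1)) (I : Fin ((p : ℕ) + 1) → Fin (N + 1)) =>
      w p (2 * k - p) I) ?_ (h1.mono ?_)
  · intro w hw w' hw' h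
    funext p q I
    by_cases hpq : p + q = 2 * k
    · have h2 := congrFun (congrFun h ⟨p, by omega⟩) I
      have h3 : q = 2 * k - p := by omega
      subst h3
      exact h2
    · rw [hw.1 p q hpq I, hw'.1 p q hpq I]
  · rintro _ ⟨w, hw, rfl⟩
    intro p I x hx
    have hp := p.2
    exact hw.2 p (2 * k - p) (by omega) I x hx

/-- the data with coefficients in a countable set -/
private def Cdat_D (E : Set ℂ) : Set Datum :=
  {d | (∀ i, ∀ c ∈ (d.F i).coeffs, c ∈ cl E) ∧ d.w ∈ Cdat_W E d.N d.k}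

private theorem Cdat_count {E : Set ℂ} (hE : E.Countable) : (Cdat_D E).Countable := by
  classical
  have h1 : ∀ N m k : ℕ, {d : Datum | ∃ (F : Fin m → CPoly N) (w : FormCochain N)
      (hs : IsSmoothProjective F) (hh : IsHodgeCochain k w),
      (∀ i, F i ∈ {P : CPoly N | ∀ c ∈ P.coeffs, c ∈ cl E}) ∧ w ∈ Cdat_W E N k ∧
        d = ⟨N, m, F, k, w, hs, hh⟩}.Countable := by
    intro N m k
    let f : ((Fin m → CPoly N) × FormCochain N) → Option Datum := fun x =>
      if h : IsSmoothProjective x.1 ∧ IsHodgeCochain k x.2 then some ⟨N, m, x.1, k, x.2, h.1, h.2⟩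
      else none
    have h2 : ({F : Fin m → CPoly N | ∀ i, F i ∈ {P : CPoly N | ∀ c ∈ P.coeffs, c ∈ cl E}} ×ˢ
        Cdat_W E N k).Countable :=
      (Set.countable_pi fun _ => Cdat_poly hE (N + 1)).prod (Cdat_coch hE N k)
    refine ((h2.image f).preimage (Option.some_injective _)).mono ?_
    rintro d ⟨F, w, hs, hh, hF, hw, rfl⟩
    refine ⟨(F, w), ⟨hF, hw⟩, ?_⟩
    simp only [f]
    rw [dif_pos ⟨hs, hh⟩]
  refine (Set.countable_iUnion fun N => Set.countable_iUnion fun m =>
    Set.countable_iUnion fun k => h1 N m k).mono ?_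
  rintro ⟨N, m, F, k, w, hs, hh⟩ ⟨hF, hw⟩
  simp only [Set.mem_iUnion]
  exact ⟨N, m, k, F, w, hs, hh, hF, hw, rfl⟩

private theorem Cdat_isPer {N m : ℕ} {F : Fin m → CPoly N} {k : ℕ} {w w' : FormCochain N}
    (h : ∀ p q, p + q = 2 * k → ∀ I, w p q I = w' p q I) {W : Gen N → ℂ} (hW : IsPer F k w W) :
    IsPer F k w' W :=
  ⟨fun x hx v hv => by rw [← h x.1 x.2.1 hx]; exact hW.int x hx v hv, hW.bd⟩

private theorem Cdat_perIn {N m : ℕ} {A : Set ℂ} {F : Fin m → CPoly N} {k : ℕ}
    {w w' : FormCochain N} (h : ∀ p q, p + q = 2 * k → ∀ I, w p q I = w' p q I) :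
    PerIn A F k w ↔ PerIn A F k w' := by
  constructor
  · rintro ⟨W, h1, h2⟩
    exact ⟨W, Cdat_isPer h h1, h2⟩
  · rintro ⟨W, h1, h2⟩
    exact ⟨W, Cdat_isPer (fun p q hpq I => (h p q hpq I).symm) h1, h2⟩

open Classical in
/-- the datum without the components of a degree different from `2 k` -/
private noncomputable def Cdat_tr (d : Datum) : Datum where
  N := d.N
  m := d.m
  F := d.F
  k := d.k
  w := fun p q I => if p + q = 2 * d.k then d.w p q I else []
  smooth := d.smooth
  hodge := by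
    constructor
    · intro p q hpq I x hx
      dsimp only at hx
      rw [if_pos hpq] at hx
      exact d.hodge.1 p q hpq I x hx
    · intro p q hpq hq I
      dsimp only
      rw [if_pos hpq]
      exact d.hodge.2 p q hpq hq I

private theorem Cdat_tr_w (d : Datum) (σ : ℂ ≃+* ℂ) (p q : ℕ) (hpq : p + q = 2 * d.k)
    (I : Fin (p + 1) → Fin (d.N + 1)) :
    (d.w.conj σ) p q I = ((Cdat_tr d).w.conj σ) p q I := by
  unfold FormCochain.conj Cdat_tr
  simp only
  rw [if_pos hpq]

private theorem Cdat_tr_closed {d : Datum} (hd : AllClosed d) : AllClosed (Cdat_tr d) := by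
  intro σ
  obtain ⟨W, hW⟩ := hd σ
  exact ⟨W, Cdat_isPer (Cdat_tr_w d σ) hW⟩

private theorem Cdat_tr_NR (d : Datum) : NR (Cdat_tr d) = NR d := by
  funext σ
  exact propext (not_congr (Cdat_perIn (Cdat_tr_w d σ)).symm)

theorem exists_countable_data : ∃ D : Set Datum, D.Countable ∧ (∀ d ∈ D, AllClosed d) ∧
    ∀ d : Datum, AllClosed d → ∃ d' ∈ D, ∃ g : ℂ ≃+* ℂ, NR d = shf g (NR d') := by
  classical
  have h0 : #(∅ : Set ℂ) < 𝔠 := by
    rw [Cardinal.mk_emptyCollection]
    exact Cardinal.aleph0_pos.trans Cardinal.aleph0_lt_continuum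
  obtain ⟨u, hu⟩ := exists_indep_seq h0
  have hE : (∅ ∪ Set.range u : Set ℂ).Countable := Set.countable_empty.union (Set.countable_range u)
  refine ⟨{d | d ∈ Cdat_D (∅ ∪ Set.range u) ∧ AllClosed d},
    (Cdat_count hE).mono fun d hd => hd.1, fun d hd => hd.2, fun d hd => ?_⟩
  obtain ⟨A, hA⟩ := exists_coeffs d.k d.w
  have hX : ((A : Set ℂ) ∪ ⋃ i, ((d.F i).coeffs : Set ℂ)).Finite :=
    A.finite_toSet.union (Set.finite_iUnion fun i => Finset.finite_toSet _)
  obtain ⟨α, -, hα⟩ := exists_move_fin hu hX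
  have hcoef : ∀ {n : ℕ} (P : MvPolynomial (Fin n) ℂ), (∀ c ∈ P.coeffs, α c ∈ cl (∅ ∪ Set.range u)) →
      ∀ c ∈ (MvPolynomial.map (α : ℂ →+* ℂ) P).coeffs, c ∈ cl (∅ ∪ Set.range u) := by
    intro n P hP c hc
    obtain ⟨c', hc', rfl⟩ := MvPolynomial.coe_coeffs_map (α : ℂ →+* ℂ) P hc
    exact hP c' hc'
  have hcl : AllClosed (d.conj α) := by
    intro σ
    rw [Datum.conj_conj]
    exact hd _
  refine ⟨Cdat_tr (d.conj α), ⟨⟨?_, ?_, ?_⟩, Cdat_tr_closed hcl⟩, α.symm, ?_⟩
  · intro i
    exact hcoef (d.F i) fun c hc => hα c (Or.inr (Set.mem_iUnion.2 ⟨i, hc⟩))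
  · intro p q hpq I
    exact if_neg hpq
  · intro p q hpq I x hx
    have hx' : x ∈ (d.w.conj α) p q I := by
      have h1 : (Cdat_tr (d.conj α)).w p q I = (d.w.conj α) p q I := if_pos hpq
      rw [h1] at hx
      exact hx
    unfold FormCochain.conj at hx'
    obtain ⟨y, hy, rfl⟩ := List.mem_map.1 hx'
    have h2 := hA p q hpq I y hy
    exact ⟨hcoef _ fun c hc => hα c (Or.inl (h2.1 hc)),
      fun b => hcoef _ fun c hc => hα c (Or.inl (h2.2 b hc))⟩
  · rw [Cdat_tr_NR]
    funext σ
    have h1 : (d.conj α).conj (α.symm.trans σ) = d.conj σ := by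
      rw [Datum.conj_conj]
      congr 1
      ext z
      simp
    show NR d σ = NR (d.conj α) (α.symm.trans σ)
    unfold NR
    rw [h1]

end Pool.Agent.AHT
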