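import Mathlib
import Pool.Agent.AHT.Tdat
import Pool.Agent.AHT.Cdat

/-!
# The family of the predicates of the data

Proof of `fam_datum`.  `dep`: `sta_perIn` (file `AHU/Sta.lean`).  `shift`: `shf g (NR d) = NR (d.conj g)`
(`Datum.conj_conj`), `AllClosed (d.conj g)`.  `opn`: if there were automorphisms `g` arbitrarily near
the identity with `PerIn RC` for `d.conj g`, then `PerIn RC` for `d` by `perIn_of_frequently isClosed_RC`
(`frequently_nearId_iff`, `Datum.conj_refl`; `d.conj g` has the equations `conjEqs g d.F` and the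
cochain `d.w.conj g` by definition).  `thin`: `thin_datum`.  `count`: `exists_countable_data`.
-/

namespace Pool.Agent.AHT

open MvPolynomial Pool.Agent.AHC Pool.Agent.AHI Pool.Agent.AHR Pool.Agent.AHU Cardinal

/-- the predicates `the conjugate by σ is not real` of all data all of whose conjugates are cocycles -/
def DFam : Set ((ℂ ≃+* ℂ) → Prop) := {P | ∃ d : Datum, AllClosed d ∧ P = NR d}

private theorem famd_shf (d : Datum) (g : ℂ ≃+* ℂ) : shf g (NR d) = NR (d.conj g) := by
  funext h
  rw [shf_apply]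
  unfold NR
  rw [Datum.conj_conj]

private theorem famd_closed {d : Datum} (hd : AllClosed d) (g : ℂ ≃+* ℂ) :
    AllClosed (d.conj g) := by
  intro σ
  rw [Datum.conj_conj]
  exact hd _

theorem fam_datum : Fam DFam where
  dep := by
    rintro P ⟨d, hd, rfl⟩
    obtain ⟨X₀, h⟩ := sta_perIn d
    refine ⟨X₀, fun g k hgk => ?_⟩
    exact not_congr ⟨h RC g k hgk, h RC k g fun x hx => (hgk x hx).symm⟩
  shift := by
    rintro P ⟨d, hd, rfl⟩ g
    exact ⟨d.conj g, famd_closed hd g, famd_shf d g⟩
  opn := by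
    rintro P ⟨d, hd, rfl⟩ h1
    by_contra hc
    push Not at hc
    refine h1 ?_
    rw [Datum.conj_refl]
    refine perIn_of_frequently isClosed_RC d.smooth d.hodge ?_
    rw [frequently_nearId_iff]
    intro Y ε hε
    obtain ⟨g, hg, hP⟩ := hc Y ε hε
    refine ⟨g, hg, ?_⟩
    unfold NR at hP
    rw [not_not] at hP
    exact hP
  thin := by
    rintro P ⟨d, hd, rfl⟩ S hS hI t ht
    exact thin_datum d hd hS hI ht
  count := by
    obtain ⟨D, hD, hcl, h⟩ := exists_countable_data
    refine ⟨NR '' D, ?_, hD.image _, ?_⟩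
    · rintro _ ⟨d, hd, rfl⟩
      exact ⟨d, hcl d hd, rfl⟩
    · rintro P ⟨d, hd, rfl⟩
      obtain ⟨d', hd', g, hg⟩ := h d hd
      exact ⟨NR d', ⟨d', hd', rfl⟩, g, hg⟩

end Pool.Agent.AHT
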