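import Mathlib
import Pool.Agent.AHT.Free

/-!
# The tower

Proof.  `exists_block`: recursion on `ℕ`: `S₀ = S ∪ {p}`, `b (i + 1)` the free element of
`exists_free` for `S ∪ b '' Iic i`.
`exists_tower`: `W = (Cardinal.ord 𝔠).ToType` (all initial segments have cardinality `< 𝔠`:
`Cardinal.mk_Iio_ord_toType`), `e : W ≃ ℂ`.  By well founded recursion let `T a` be the block of
`exists_block` for `S = below T a` (small: at most `#(Iio a) * ℵ₀`) and `p = e a` if `e a ∉ cl S`,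
otherwise any element `p ∉ cl S`.  (For the recursion it is convenient to prove first: if for all `a`
and all `f : {b // b < a} → Y` there is `y` with `Φ a f y`, then there is `F : W → Y` with
`Φ a (F restricted) (F a)` for all `a`, with `WellFounded.fix`.)
-/

namespace Pool.Agent.AHT

open Pool.Agent.AHC Pool.Agent.AHI Pool.Agent.AHR Cardinal

/-- the elements of the blocks before `a` -/
def below {W : Type} [LT W] (T : W → ℕ → ℂ) (a : W) : Set ℂ := {z | ∃ b < a, ∃ m, T b m = z}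

/-- a transcendence basis with a well ordered set of blocks `T a 0, T a 1, ...`; the elements
`T a m`, `m ≠ 0`, are free -/
structure Tower (C : Set ((ℂ ≃+* ℂ) → Prop)) {W : Type} [LinearOrder W] (T : W → ℕ → ℂ) :
    Prop where
  small : ∀ a, #(below T a) < 𝔠
  indep : ∀ a m, T a m ∉ cl (below T a ∪ T a '' Set.Iio m)
  free : ∀ a m, m ≠ 0 → ∀ P ∈ C, Inv (below T a ∪ T a '' Set.Iio m) P →
    Inv (below T a ∪ T a '' Set.Iic m) P
  span : ∀ z, ∃ a, z ∈ cl (insert (T a 0) (below T a))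

theorem Tow_rec {W Y : Type} [LT W] [WellFoundedLT W]
    {Φ : ∀ a : W, (∀ b, b < a → Y) → Y → Prop} (h : ∀ a f, ∃ y, Φ a f y) :
    ∃ F : W → Y, ∀ a, Φ a (fun b _ => F b) (F a) := by
  choose g hg using h
  refine ⟨(wellFounded_lt (α := W)).fix g, fun a => ?_⟩
  have h1 := hg a (fun b _ => (wellFounded_lt (α := W)).fix g b)
  have h2 := WellFounded.fix_eq (wellFounded_lt (α := W)) g a
  rw [h2]
  exact h1

theorem Tow_small {S : Set ℂ} (hS : #S < 𝔠) (b : ℕ → ℂ) (I : Set ℕ) :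
    #(S ∪ b '' I : Set ℂ) < 𝔠 := by
  refine (mk_union_le S (b '' I)).trans_lt (add_lt_of_lt aleph0_le_continuum hS ?_)
  refine lt_of_le_of_lt ?_ aleph0_lt_continuum
  exact (I.to_countable.image b).le_aleph0

theorem exists_block {C : Set ((ℂ ≃+* ℂ) → Prop)} (hC : Fam C) {S : Set ℂ} (hS : #S < 𝔠) {p : ℂ}
    (hp : p ∉ cl S) : ∃ b : ℕ → ℂ, b 0 = p ∧ (∀ m, b m ∉ cl (S ∪ b '' Set.Iio m)) ∧
      ∀ m, m ≠ 0 → ∀ P ∈ C, Inv (S ∪ b '' Set.Iio m) P → Inv (S ∪ b '' Set.Iic m) P := by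
  classical
  have h0 : ∀ A : Set ℂ, ∃ t, #A < 𝔠 → t ∉ cl A ∧ ∀ P ∈ C, Inv A P → Inv (insert t A) P := by
    intro A
    by_cases hA : #A < 𝔠
    · obtain ⟨t, ht⟩ := exists_free hC hA
      exact ⟨t, fun _ => ht⟩
    · exact ⟨0, fun h => absurd h hA⟩
  choose nx hnx using h0
  let s : ℕ → Set ℂ × ℂ := fun n =>
    Nat.rec (S, p) (fun _ x => (insert x.2 x.1, nx (insert x.2 x.1))) n
  have s0 : s 0 = (S, p) := rfl
  have s1 : ∀ n, s (n + 1) = (insert (s n).2 (s n).1, nx (insert (s n).2 (s n).1)) := fun _ => rfl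
  let b : ℕ → ℂ := fun n => (s n).2
  have hA : ∀ n, (s n).1 = S ∪ b '' Set.Iio n := by
    intro n
    induction n with
    | zero => simp [s0]
    | succ n ih =>
      rw [s1, ih]
      ext z
      simp only [Set.mem_insert_iff, Set.mem_union, Set.mem_image, Set.mem_Iio]
      constructor
      · rintro (h | h | ⟨i, hi, h⟩)
        · exact Or.inr ⟨n, Nat.lt_succ_self n, h.symm⟩
        · exact Or.inl h
        · exact Or.inr ⟨i, Nat.lt_succ_of_lt hi, h⟩
      · rintro (h | ⟨i, hi, h⟩)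
        · exact Or.inr (Or.inl h)
        · rcases Nat.lt_succ_iff_lt_or_eq.1 hi with hi | hi
          · exact Or.inr (Or.inr ⟨i, hi, h⟩)
          · exact Or.inl (by rw [← h, hi])
  have hic : ∀ n, insert (b n) (S ∪ b '' Set.Iio n) = S ∪ b '' Set.Iic n := by
    intro n
    ext z
    simp only [Set.mem_insert_iff, Set.mem_union, Set.mem_image, Set.mem_Iio, Set.mem_Iic]
    constructor
    · rintro (h | h | ⟨i, hi, h⟩)
      · exact Or.inr ⟨n, le_refl n, h.symm⟩
      · exact Or.inl h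
      · exact Or.inr ⟨i, hi.le, h⟩
    · rintro (h | ⟨i, hi, h⟩)
      · exact Or.inr (Or.inl h)
      · rcases Nat.lt_or_eq_of_le hi with hi | hi
        · exact Or.inr (Or.inr ⟨i, hi, h⟩)
        · exact Or.inl (by rw [← h, hi])
  have hb : ∀ n, b (n + 1) = nx (S ∪ b '' Set.Iio (n + 1)) := by
    intro n
    rw [← hA (n + 1), s1]
  refine ⟨b, rfl, fun m => ?_, fun m hm P hP h => ?_⟩
  · cases m with
    | zero =>
      have h1 : b '' Set.Iio 0 = ∅ := by simp
      rw [h1, Set.union_empty]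
      exact hp
    | succ n =>
      rw [hb n]
      exact (hnx _ (Tow_small hS b _)).1
  · cases m with
    | zero => exact absurd rfl hm
    | succ n =>
      rw [← hic, hb n]
      exact (hnx _ (Tow_small hS b _)).2 P hP h

theorem exists_tower {C : Set ((ℂ ≃+* ℂ) → Prop)} (hC : Fam C) :
    ∃ (W : Type) (_ : LinearOrder W) (_ : WellFoundedLT W) (T : W → ℕ → ℂ), Tower C T := by
  classical
  let W : Type := (Cardinal.ord 𝔠).ToType
  have hW : #W = #ℂ := by
    rw [Cardinal.mk_complex]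
    exact Cardinal.mk_ord_toType 𝔠
  obtain ⟨e⟩ := Cardinal.eq.1 hW
  have hsm : ∀ (a : W) (f : ∀ b, b < a → ℕ → ℂ),
      #({z | ∃ b, ∃ h : b < a, ∃ m, f b h m = z} : Set ℂ) < 𝔠 := by
    intro a f
    have h1 : ({z | ∃ b, ∃ h : b < a, ∃ m, f b h m = z} : Set ℂ) =
        Set.range (fun x : Set.Iio a × ℕ => f x.1.1 x.1.2 x.2) := by
      ext z
      constructor
      · rintro ⟨b, h, m, hm⟩
        exact ⟨(⟨b, h⟩, m), hm⟩
      · rintro ⟨⟨⟨b, h⟩, m⟩, hm⟩
        exact ⟨b, h, m, hm⟩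
    rw [h1]
    refine Cardinal.mk_range_le.trans_lt ?_
    rw [Cardinal.mk_prod, Cardinal.lift_id, Cardinal.lift_id, Cardinal.mk_nat]
    exact Cardinal.mul_lt_of_lt aleph0_le_continuum (Cardinal.mk_Iio_toType_ord_lt a)
      aleph0_lt_continuum
  obtain ⟨T, hT⟩ := Tow_rec (W := W) (Y := ℕ → ℂ)
    (Φ := fun a f y =>
      (∀ m, y m ∉ cl ({z | ∃ b, ∃ h : b < a, ∃ m, f b h m = z} ∪ y '' Set.Iio m)) ∧
      (∀ m, m ≠ 0 → ∀ P ∈ C, Inv ({z | ∃ b, ∃ h : b < a, ∃ m, f b h m = z} ∪ y '' Set.Iio m) P →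
        Inv ({z | ∃ b, ∃ h : b < a, ∃ m, f b h m = z} ∪ y '' Set.Iic m) P) ∧
      e a ∈ cl (insert (y 0) {z | ∃ b, ∃ h : b < a, ∃ m, f b h m = z})) (by
    intro a f
    have hs := hsm a f
    by_cases he : e a ∈ cl {z | ∃ b, ∃ h : b < a, ∃ m, f b h m = z}
    · obtain ⟨t, ht, -⟩ := exists_free hC hs
      obtain ⟨b, -, h2, h3⟩ := exists_block hC hs ht
      exact ⟨b, h2, h3, cl_mono (Set.subset_insert _ _) he⟩
    · obtain ⟨b, h1, h2, h3⟩ := exists_block hC hs he
      refine ⟨b, h2, h3, ?_⟩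
      rw [h1]
      exact subset_cl _ (Set.mem_insert _ _))
  have hbel : ∀ a, ({z | ∃ b, ∃ h : b < a, ∃ m, T b m = z} : Set ℂ) = below T a := by
    intro a
    ext z
    simp only [below, Set.mem_ofPred_eq, exists_prop]
  refine ⟨W, inferInstance, inferInstance, T, ?_, ?_, ?_, ?_⟩
  · intro a
    rw [← hbel a]
    exact hsm a (fun b _ => T b)
  · intro a m
    have h1 := (hT a).1 m
    rwa [hbel a] at h1
  · intro a m hm P hP h
    have h1 := (hT a).2.1 m hm P hP
    rw [hbel a] at h1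
    exact h1 h
  · intro z
    refine ⟨e.symm z, ?_⟩
    have h1 := (hT (e.symm z)).2.2
    rw [hbel, e.apply_symm_apply] at h1
    exact h1

end Pool.Agent.AHT
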