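import Mathlib
import Pool.Agent.AHT.Tow
import Pool.Agent.AHI.Bas

/-!
# The shift and the counting of the bad powers

Proofs.  `isB_tower`: `b (a, m) = T a m` is a transcendence basis: for a finite set of pairs, ordered
lexicographically, the elements are independent (`SeqInd ∅`, `SeqInd.indep`,
`AlgebraicIndependent.matroid_indep_iff`; algebraic independence can be tested on finite subfamilies),
and `cl (range b) = univ` by `Tower.span`.  `exists_shift`: `extB` with `b' = b ∘ shift`
(`IsB.comp_equiv`).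
`counting`: let `q j = T (a j) (ν.symm (-j))` for `j ∈ J`; these are distinct elements of the
basis.  Let `B₀` be the set of the other elements of the basis.  By strong induction on `a j` (or on the
number of `j' ∈ J` with `a j' < a j`): `q j ∈ cl (B₀ ∪ X)`, because `below T (a j) ⊆ B₀ ∪ {q j' | a j' < a j}`.
So the `J.card` elements `q j`, which are independent over `B₀`, are in `cl (B₀ ∪ range x)`; by exchange
(dimension in the matroid `MC`, or the transcendence degree over `clF B₀`) `J.card ≤ n`.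
-/

namespace Pool.Agent.AHT

open Pool.Agent.AHC Pool.Agent.AHI Pool.Agent.AHR Cardinal

private theorem Cnt_seq {ι : Type} [LinearOrder ι] {b : ι → ℂ}
    (hb : ∀ i, b i ∉ cl (b '' Set.Iio i)) :
    Function.Injective b ∧ MC.Indep (Set.range b) := by
  classical
  have hinj : Function.Injective b := by
    intro i j hij
    by_contra hne
    rcases lt_or_gt_of_ne hne with h | h
    · exact hb j (subset_cl _ ⟨i, h, hij⟩)
    · exact hb i (subset_cl _ ⟨j, h, hij.symm⟩)
  refine ⟨hinj, ?_⟩
  · have hfin : ∀ I : Finset ι, MC.Indep (b '' (I : Set ι)) := by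
      intro I
      induction I using Finset.induction_on_max with
      | empty =>
        rw [Finset.coe_empty, Set.image_empty]
        exact MC.empty_indep
      | insert a I ha ih =>
        rw [Finset.coe_insert, Set.image_insert_eq]
        have h1 : b a ∉ MC.closure (b '' (I : Set ι)) := by
          rw [closure_eq]
          intro h2
          refine hb a (cl_mono (Set.image_mono ?_) h2)
          intro x hx
          exact ha x hx
        exact (ih.notMem_closure_iff.1 h1).1
    apply Matroid.indep_of_forall_finite_subset_indep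
    intro J hJ hJf
    have h2 := hfin (hJf.preimage hinj.injOn).toFinset
    rwa [Set.Finite.coe_toFinset, Set.image_preimage_eq_of_subset hJ] at h2

private theorem Cnt_lex {C : Set ((ℂ ≃+* ℂ) → Prop)} {W : Type} [LinearOrder W]
    {T : W → ℕ → ℂ} (hT : Tower C T) :
    Function.Injective (fun p : W × ℕ => T p.1 p.2) ∧
      MC.Indep (Set.range fun p : W × ℕ => T p.1 p.2) := by
  have h := Cnt_seq (ι := W ×ₗ ℕ) (b := fun p => T (ofLex p).1 (ofLex p).2) (by
    intro p hp
    refine hT.indep (ofLex p).1 (ofLex p).2 (cl_mono ?_ hp)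
    rintro _ ⟨q, hq, rfl⟩
    rcases Prod.Lex.lt_iff.1 (show q < p from hq) with h1 | ⟨h1, h2⟩
    · exact Or.inl ⟨_, h1, _, rfl⟩
    · refine Or.inr ⟨(ofLex q).2, h2, ?_⟩
      change T (ofLex p).1 (ofLex q).2 = T (ofLex q).1 (ofLex q).2
      rw [h1])
  exact h

theorem isB_tower {C : Set ((ℂ ≃+* ℂ) → Prop)} {W : Type} [LinearOrder W] [WellFoundedLT W]
    {T : W → ℕ → ℂ} (hT : Tower C T) : IsB fun p : W × ℕ => T p.1 p.2 := by
  obtain ⟨h1, h2⟩ := Cnt_lex hT
  constructor
  · rw [AlgebraicIndependent.matroid_indep_iff] at h2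
    exact AlgebraicIndependent.of_subtype_range h1 h2
  · apply Set.eq_univ_of_forall
    intro z
    obtain ⟨a, ha⟩ := hT.span z
    refine cl_mono ?_ ha
    rintro y (rfl | ⟨b, -, m, rfl⟩)
    · exact ⟨(a, 0), rfl⟩
    · exact ⟨(b, m), rfl⟩

theorem exists_shift {C : Set ((ℂ ≃+* ℂ) → Prop)} {W : Type} [LinearOrder W] [WellFoundedLT W]
    {T : W → ℕ → ℂ} (hT : Tower C T) (ν : ℕ ≃ ℤ) :
    ∃ τ : RingAut ℂ, τ ∈ GA ∧ ∀ (j : ℤ) a m, (τ ^ j) (T a m) = T a (ν.symm (ν m + j)) := by
  have hB := isB_tower hT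
  obtain ⟨g, hg1, hg2⟩ := extB hB (hB.comp_equiv (Equiv.prodCongr (Equiv.refl W)
    (ν.trans ((Equiv.addRight (1 : ℤ)).trans ν.symm))))
  have hg : ∀ a m, g (T a m) = T a (ν.symm (ν m + 1)) := fun a m => hg2 (a, m)
  refine ⟨g, hg1, ?_⟩
  intro j
  have hstep : ∀ (a : W) (m : ℕ), (g : RingAut ℂ) (T a m) = T a (ν.symm (ν m + 1)) := hg
  have hinv : ∀ (a : W) (m : ℕ), (g : RingAut ℂ)⁻¹ (T a m) = T a (ν.symm (ν m - 1)) := by
    intro a m
    have h1 := hstep a (ν.symm (ν m - 1))
    rw [Equiv.apply_symm_apply, sub_add_cancel, Equiv.symm_apply_apply] at h1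
    rw [← h1]
    exact RingEquiv.symm_apply_apply g _
  induction j using Int.induction_on with
  | zero =>
    intro a m
    rw [zpow_zero, add_zero, Equiv.symm_apply_apply]
    rfl
  | succ i ih =>
    intro a m
    rw [zpow_add_one, RingAut.mul_apply, hstep, ih, Equiv.apply_symm_apply]
    congr 2
    ring
  | pred i ih =>
    intro a m
    rw [zpow_sub_one, RingAut.mul_apply, hinv, ih, Equiv.apply_symm_apply]
    congr 2
    ring

/-- exchange: a bound for the number of independent elements -/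
theorem card_le_of_seqInd {S : Set ℂ} {r n : ℕ} {q : Fin r → ℂ} (hq : SeqInd S q)
    {x : Fin n → ℂ} (h : ∀ i, q i ∈ cl (S ∪ Set.range x)) : r ≤ n := by
  obtain ⟨I, hI⟩ := MC.exists_isBasis S (by simp)
  have hIcl : cl I = cl S := by
    rw [← closure_eq, ← closure_eq]
    exact hI.closure_eq_closure
  have hqI : SeqInd I q := hq.mono hI.subset
  obtain ⟨h1, -⟩ := hqI.indep hI.indep
  have hdisj : Disjoint S (Set.range q) := by
    rw [Set.disjoint_right]
    rintro _ ⟨i, rfl⟩ hi
    exact hq i (subset_cl _ (Or.inl hi))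
  have h2 : (MC.contract S).Indep (Set.range q) := by
    rw [hI.contract_indep_iff]
    exact ⟨by rwa [Set.union_comm], hdisj⟩
  have h3 : Set.range q ⊆ (MC.contract S).closure (Set.range x) := by
    rw [Matroid.contract_closure_eq, closure_eq]
    rintro _ ⟨i, rfl⟩
    refine ⟨?_, fun hi => Set.disjoint_left.1 hdisj hi ⟨i, rfl⟩⟩
    rw [Set.union_comm]
    exact h i
  have h4 : (Set.range q).encard ≤ (Set.range x).encard := by
    rw [← h2.eRk_eq_encard]
    refine ((MC.contract S).eRk_mono h3).trans ?_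
    rw [Matroid.eRk_closure_eq]
    exact (MC.contract S).eRk_le_encard _
  have h5 : (Set.range q).encard = r := by
    rw [← Set.image_univ, hq.injective.encard_image, Set.encard_univ]
    simp
  have h6 : (Set.range x).encard ≤ n := by
    rw [← Set.image_univ]
    refine (Set.encard_image_le _ _).trans ?_
    rw [Set.encard_univ]
    simp
  rw [h5] at h4
  exact_mod_cast h4.trans h6

theorem counting {C : Set ((ℂ ≃+* ℂ) → Prop)} {W : Type} [LinearOrder W] [WellFoundedLT W]
    {T : W → ℕ → ℂ} (hT : Tower C T) (ν : ℕ ≃ ℤ) {n : ℕ} {x : Fin n → ℂ} {X : Set ℂ}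
    (hX : X ⊆ cl (Set.range x)) (J : Finset ℤ)
    (h : ∀ j ∈ J, ∃ a, T a (ν.symm (-j)) ∈ cl (below T a ∪ X)) : J.card ≤ n := by
  obtain ⟨hinj, hind⟩ := Cnt_lex hT
  have hW : Nonempty W := ⟨(hT.span 0).choose⟩
  choose! a ha using h
  set P : Set (W × ℕ) := {p | ∃ j ∈ J, (a j, ν.symm (-j)) = p} with hP
  set B : Set ℂ := {z | ∃ p : W × ℕ, p ∉ P ∧ T p.1 p.2 = z} with hB
  have hmem : ∀ w : W, ∀ j ∈ J, a j = w → T (a j) (ν.symm (-j)) ∈ cl (B ∪ X) := by
    intro w
    induction w using WellFoundedLT.induction with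
    | ind w ih =>
      intro j hj hjw
      refine (cl_subset_iff.2 ?_) (ha j hj)
      rintro y (⟨b, hb, m, rfl⟩ | hy)
      · by_cases hbm : (b, m) ∈ P
        · obtain ⟨j', hj', he⟩ := hbm
          have he1 : a j' = b := (Prod.mk.inj he).1
          have he2 : ν.symm (-j') = m := (Prod.mk.inj he).2
          have h1 := ih b (hjw ▸ hb) j' hj' he1
          rw [he1, he2] at h1
          exact h1
        · exact subset_cl _ (Or.inl ⟨(b, m), hbm, rfl⟩)
      · exact subset_cl _ (Or.inr hy)
  let e : Fin J.card ≃ J := J.equivFin.symm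
  have hq : SeqInd B (fun i : Fin J.card => T (a (e i)) (ν.symm (-(e i : ℤ)))) := by
    intro i hi
    have h1 := hind.notMem_closure_sdiff_of_mem
      (⟨(a (e i), ν.symm (-(e i : ℤ))), rfl⟩ : T (a (e i)) (ν.symm (-(e i : ℤ))) ∈
        Set.range fun p : W × ℕ => T p.1 p.2)
    rw [closure_eq] at h1
    refine h1 (cl_mono ?_ hi)
    rintro z (⟨p, hp, rfl⟩ | ⟨k, hk, rfl⟩)
    · refine ⟨⟨p, rfl⟩, fun h2 => hp ?_⟩
      have h3 : p = (a (e i), ν.symm (-(e i : ℤ))) := hinj h2
      rw [h3]
      exact ⟨e i, (e i).2, rfl⟩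
    · refine ⟨⟨(a (e k), ν.symm (-(e k : ℤ))), rfl⟩, fun h2 => ?_⟩
      have h3 : (a (e k), ν.symm (-(e k : ℤ))) = (a (e i), ν.symm (-(e i : ℤ))) := hinj h2
      have h4 := ν.symm.injective (Prod.mk.inj h3).2
      have h5 : (e k : ℤ) = e i := neg_injective h4
      have h6 : k = i := e.injective (Subtype.ext h5)
      exact (ne_of_lt hk) h6
  refine card_le_of_seqInd hq (x := x) fun i => ?_
  refine (cl_subset_iff.2 ?_) (hmem _ (e i) (e i).2 rfl)
  rintro y (hy | hy)
  · exact subset_cl _ (Or.inl hy)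
  · exact cl_mono Set.subset_union_right (hX hy)

end Pool.Agent.AHT
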