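import Mathlib
import Pool.Agent.AHT.Ind
import Pool.Agent.AHT.Cnt

/-!
# The test automorphism

Proof.  Let `T` be a tower (`exists_tower`), `ν : ℕ ≃ ℤ` with `ν 0 = 0` (compose
`Equiv.intEquivNat.symm` with a swap if necessary) and `τ` from `exists_shift`.  Let `P, X, x, J` be as
in the statement and assume `¬ P (τ ^ j)` for all `j ∈ J`.  `shf (τ ^ j) P` is in `C`, satisfies
`Inv ∅` (`τ ^ j ∈ GA`), has `Dep (X.image (τ ^ j))` and fails at the identity; by `tower_ind` there is `a`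
with `T a 0 ∈ cl (below T a ∪ (τ ^ j) '' X)`.  Apply `τ ^ (-j)` (`map_mem_cl`): `below T a` is mapped to
itself and `T a 0` to `T a (ν.symm (-j))`; so `T a (ν.symm (-j)) ∈ cl (below T a ∪ X)`.  By `counting`
`J.card ≤ n`.
-/

namespace Pool.Agent.AHT

open Pool.Agent.AHC Pool.Agent.AHI Pool.Agent.AHR Cardinal

private theorem Test_zpow {τ : RingAut ℂ} {z : ℂ} (h : τ z = z) (j : ℤ) : (τ ^ j) z = z := by
  have h1 : τ ∈ MulAction.stabilizer (RingAut ℂ) z := h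
  exact (MulAction.stabilizer (RingAut ℂ) z).zpow_mem h1 j

theorem finite_test {C : Set ((ℂ ≃+* ℂ) → Prop)} (hC : Fam C) :
    ∃ τ : RingAut ℂ, τ ∈ GA ∧ ∀ P ∈ C, (∀ g ∈ GA, Inv ∅ (shf g P)) → ∀ X : Finset ℂ, Dep X P →
      ∀ (n : ℕ) (x : Fin n → ℂ), (X : Set ℂ) ⊆ cl (Set.range x) → ∀ J : Finset ℤ, n < J.card →
        ∃ j ∈ J, P (τ ^ j) := by
  classical
  obtain ⟨W, hW1, hW2, T, hT⟩ := exists_tower hC
  obtain ⟨ν, hν⟩ : ∃ ν : ℕ ≃ ℤ, ν 0 = 0 :=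
    ⟨Equiv.intEquivNat.symm.trans (Equiv.swap (Equiv.intEquivNat.symm 0) 0), by simp⟩
  obtain ⟨τ, hτ, hsh⟩ := exists_shift hT ν
  refine ⟨τ, hτ, fun P hP hinv X hX n x hXx J hJ => ?_⟩
  by_contra hcon
  have hcon' : ∀ j ∈ J, ¬ P (τ ^ j) := fun j hj h => hcon ⟨j, hj, h⟩
  have hG : ∀ j : ℤ, (τ ^ j : RingAut ℂ) ∈ GA := fun j z hz => Test_zpow (hτ z hz) j
  refine absurd (counting hT ν hXx J fun j hj => ?_) (not_le.2 hJ)
  by_contra hne
  refine hcon' j hj ?_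
  have h1 : shf (τ ^ j) P (RingEquiv.refl ℂ) := by
    refine tower_ind hC hT (hC.shift P hP _) (hX.shf (τ ^ j)) (hinv _ (hG j)) fun a ha => hne ⟨a, ?_⟩
    have h2 := map_mem_cl (τ ^ (-j) : RingAut ℂ) ha
    rw [hsh (-j) a 0, hν, zero_add] at h2
    refine cl_mono ?_ h2
    rintro _ ⟨z, hz | hz, rfl⟩
    · obtain ⟨b, hb, m, rfl⟩ := hz
      exact Or.inl ⟨b, hb, ν.symm (ν m + -j), (hsh (-j) b m).symm⟩
    · rw [Finset.coe_image] at hz
      obtain ⟨y, hy, rfl⟩ := hz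
      refine Or.inr ?_
      have h3 : (τ ^ (-j) : RingAut ℂ) ((τ ^ j : RingAut ℂ) y) = y := by
        have h4 : (τ ^ (-j) * τ ^ j : RingAut ℂ) = 1 := by
          rw [← zpow_add, neg_add_cancel, zpow_zero]
        calc (τ ^ (-j) : RingAut ℂ) ((τ ^ j : RingAut ℂ) y) = (τ ^ (-j) * τ ^ j : RingAut ℂ) y := rfl
          _ = y := by
            rw [h4]
            rfl
      rw [h3]
      exact hy
  exact h1

end Pool.Agent.AHT
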