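import Mathlib
import Pool.Agent.AHT.Test
import Pool.Agent.AHT.FamD
import Pool.Agent.AHU.Fin

/-!
# Finitely many powers of one automorphism test each class

Proof.  `τ` is from `finite_test fam_datum`.  Let `d, x, J` be as in the statement.  `J` is not
empty, so `AllClosed d` (`allClosed_of_isPer` and `Datum.conj_conj`, or apply it to `d.conj (τ ^ j)`).
Suppose `Inv ∅ (shf g (NR d))` for all `g ∈ GA`.  Let `X` be the finite set of all coefficients of `d.F`
and of the components of degree `2 k` of `d.w` (as in the proof of `sta_perIn`; `Dep X (NR d)`);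
`X ⊆ cl x` and `finite_test` gives `j ∈ J` with `NR d (τ ^ j)`: contradiction to
`isRealClass_iff_perIn`.  So there is `g ∈ GA` with `¬ Inv ∅ (shf g (NR d))`, that is `St d RC g` (write
`β' = g.trans (g.symm.trans β')`).  By `exists_St` and `connected` `St d RC σ` for all `σ ∈ GA` (they agree
on `cl ∅`), so `PerIn RC` for `d.conj σ` for all `σ ∈ GA`.  Let `σ` fix the real algebraic numbers:
`σ ∈ GA` or `σ.trans cc ∈ GA` (`σ i = i` or `σ i = -i` and the algebraic numbers are `a + b i` with `a, b`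
real algebraic, see the proof of `AHR.dihedral` or `AHR.main`), and `PerIn RC`, `IsRational` of `d.conj σ` and
`(d.conj σ).conj cc` are equivalent (complex conjugation: `cc_mem_deRhamPart` for rational classes;
the same proof for real classes, or `perIn`: conjugate the periods, `conj ((2πi)^k a) =
(2πi)^k ((-1)^k conj a)`).  Last statement: if `d.conj σ'` is rational, then `PerIn QC` holds for
`d.conj σ'` or for its complex conjugate, so for `d.conj σ''` with `σ'' ∈ GA`; by `st_rat` `St d QC σ''`,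
and by `exists_St`, `connected` for `A = QC` `St d QC` holds on `GA`, so all `d.conj σ` are rational
(`isRationalClass_of_perIn`).
-/

namespace Pool.Agent.AHT

open MvPolynomial Pool.Agent.AHC Pool.Agent.AHI Pool.Agent.AHR Pool.Agent.AHU Cardinal

/-- the equations and the components of degree `2k` of the cochain have coefficients in `L` -/
def IsDefinedOver (d : Datum) (L : Set ℂ) : Prop :=
  (∀ i, ∀ c ∈ (d.F i).coeffs, c ∈ L) ∧ ∀ p q, p + q = 2 * d.k → ∀ I, ∀ y ∈ d.w p q I,
    (∀ c ∈ y.1.num.coeffs, c ∈ L) ∧ ∀ b, ∀ c ∈ (y.2 b).num.coeffs, c ∈ L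

/-- the automorphism fixes all real algebraic numbers -/
def FixesRealAlg (σ : ℂ ≃+* ℂ) : Prop := ∀ z, IsAlgebraic ℚ z → z.im = 0 → σ z = z

/-- complex conjugation preserves real classes -/
private theorem Fin_real_cc {N m : ℕ} {F : Fin m → CPoly N} {k : ℕ} {w : FormCochain N}
    (h : IsRealClass F k w) : IsRealClass (conjEqs cc F) k (w.conj cc) := by
  obtain ⟨r, b, h1, h2⟩ := h
  refine ⟨fun p q I s => (-1) ^ k * (RingHom.id ℝ) (r p q I fun t => cproj N (s t)),
    fun p q I s => 1 * (starRingEnd ℂ) (b p q I fun t => cproj N (s t)), ?_, ?_⟩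
  · intro p q hpq I s v hv
    rw [totD_cc, h1 p q hpq I _ _ hv.cc, map_zero, mul_zero]
  · intro p q hpq I s v hv
    rw [totD_cc]
    simp only [FormCochain.conj]
    rw [formIntegral_cc, h2 p q hpq I _ _ hv.cc, map_add, map_mul, map_pow]
    congr 1
    · have h3 : (starRingEnd ℂ) (2 * (Real.pi : ℂ) * Complex.I) =
          -1 * (2 * (Real.pi : ℂ) * Complex.I) := by
        rw [map_mul, map_mul, Complex.conj_I, Complex.conj_ofReal, map_ofNat]
        ring
      rw [h3, mul_pow]
      simp only [RingHom.id_apply]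
      push_cast
      simp only [Complex.conj_ofReal]
      ring
    · rw [one_mul]

private theorem Fin_real_cc' (d : Datum) {σ : ℂ ≃+* ℂ}
    (h : IsRealClass (d.conj (σ.trans cc)).F (d.conj (σ.trans cc)).k (d.conj (σ.trans cc)).w) :
    IsRealClass (d.conj σ).F (d.conj σ).k (d.conj σ).w := by
  have h1 : IsRealClass ((d.conj (σ.trans cc)).conj cc).F ((d.conj (σ.trans cc)).conj cc).k
      ((d.conj (σ.trans cc)).conj cc).w := Fin_real_cc h
  have h2 : (σ.trans cc).trans cc = σ := by
    ext z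
    exact cc_cc (σ z)
  rwa [Datum.conj_conj, h2] at h1

private theorem Fin_rat_cc (d : Datum) {σ : ℂ ≃+* ℂ} (h : (d.conj σ).IsRational) :
    (d.conj (σ.trans cc)).IsRational := by
  rw [← Datum.conj_conj]
  exact h.cc

private theorem Fin_rat_cc' (d : Datum) {σ : ℂ ≃+* ℂ} (h : (d.conj (σ.trans cc)).IsRational) :
    (d.conj σ).IsRational := by
  have h1 := Fin_rat_cc d h
  have h2 : (σ.trans cc).trans cc = σ := by
    ext z
    exact cc_cc (σ z)
  rwa [h2] at h1

/-- an automorphism which fixes the real algebraic numbers fixes the algebraic numbers, or is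
complex conjugation on them -/
private theorem Fin_two {σ : ℂ ≃+* ℂ} (h : FixesRealAlg σ) : σ ∈ GA ∨ σ.trans cc ∈ GA := by
  have hI2 : σ Complex.I * σ Complex.I = -1 := by
    rw [← map_mul, Complex.I_mul_I, map_neg, map_one]
  have hI : σ Complex.I = Complex.I ∨ σ Complex.I = -Complex.I := by
    have h1 : (σ Complex.I - Complex.I) * (σ Complex.I + Complex.I) = 0 := by
      have h2 := Complex.I_mul_I
      linear_combination hI2 - h2
    rcases mul_eq_zero.1 h1 with h2 | h2
    · exact Or.inl (sub_eq_zero.1 h2)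
    · exact Or.inr (eq_neg_of_add_eq_zero_left h2)
  have hIalg : Complex.I ∈ cl ∅ := mem_cl_empty Complex.isIntegral_rat_I.isAlgebraic
  -- the real and imaginary parts
  have key : ∀ z ∈ cl ∅, ∃ a b : ℂ, z = a + b * Complex.I ∧ a.im = 0 ∧ b.im = 0 ∧
      σ a = a ∧ σ b = b := by
    intro z hz
    have hc : cc z ∈ cl ∅ := map_cl_empty cc hz
    have h2 : (2 : ℂ)⁻¹ ∈ clF ∅ := (clF ∅).inv_mem ((clF ∅).natCast_mem 2)
    have ha : (2 : ℂ)⁻¹ * (z + cc z) ∈ clF ∅ := (clF ∅).mul_mem h2 ((clF ∅).add_mem hz hc)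
    have hb : (2 : ℂ)⁻¹ * ((cc z - z) * Complex.I) ∈ clF ∅ :=
      (clF ∅).mul_mem h2 ((clF ∅).mul_mem ((clF ∅).sub_mem hc hz) hIalg)
    have ha' : (2 : ℂ)⁻¹ * (z + cc z) = (z.re : ℂ) := by
      rw [cc_apply, Complex.add_conj]
      push_cast
      ring
    have hb' : (2 : ℂ)⁻¹ * ((cc z - z) * Complex.I) = (z.im : ℂ) := by
      have h3 : cc z - z = -(2 * z.im * Complex.I) := by
        rw [cc_apply, ← neg_sub, Complex.sub_conj]
        push_cast
        ring
      rw [h3]
      linear_combination (-(z.im : ℂ)) * Complex.I_mul_I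
    refine ⟨z.re, z.im, (Complex.re_add_im z).symm, Complex.ofReal_im _, Complex.ofReal_im _,
      h _ (isAlgebraic_of_mem_cl_empty ?_) (Complex.ofReal_im _),
      h _ (isAlgebraic_of_mem_cl_empty ?_) (Complex.ofReal_im _)⟩
    · rw [← ha']
      exact ha
    · rw [← hb']
      exact hb
  rcases hI with hI | hI
  · left
    intro z hz
    obtain ⟨a, b, rfl, -, -, h1, h2⟩ := key z hz
    rw [map_add, map_mul, h1, h2, hI]
  · right
    intro z hz
    obtain ⟨a, b, rfl, ha, hb, h1, h2⟩ := key z hz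
    rw [RingEquiv.trans_apply, map_add, map_mul, h1, h2, hI, map_add, map_mul,
      cc_eq_self_iff.2 ha, cc_eq_self_iff.2 hb, map_neg, cc_apply, Complex.conj_I, neg_neg]

/-- the datum depends only on the coefficients -/
private theorem Fin_dep (d : Datum) {L : Set ℂ} (h : IsDefinedOver d L) :
    ∃ X : Finset ℂ, (X : Set ℂ) ⊆ L ∧ Dep X (NR d) := by
  classical
  obtain ⟨A2, hA2⟩ := exists_coeffs d.k d.w
  have key : ∀ (A : Set ℂ) (σ τ : ℂ ≃+* ℂ),
      (∀ x ∈ (A2 ∪ Finset.univ.biUnion fun i => (d.F i).coeffs).filter (· ∈ L), σ x = τ x) →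
      PerIn A (d.conj σ).F (d.conj σ).k (d.conj σ).w →
        PerIn A (d.conj τ).F (d.conj τ).k (d.conj τ).w := by
    intro A σ τ h0 hP
    have hm : ∀ c, c ∈ L → c ∈ A2 ∨ (∃ i, c ∈ (d.F i).coeffs) → σ c = τ c := by
      intro c hc hc'
      refine h0 c (Finset.mem_filter.2 ⟨?_, hc⟩)
      rcases hc' with hc' | ⟨i, hi⟩
      · exact Finset.mem_union_left _ hc'
      · exact Finset.mem_union_right _ (Finset.mem_biUnion.2 ⟨i, Finset.mem_univ _, hi⟩)
    have h1 : conjEqs σ d.F = conjEqs τ d.F := by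
      funext i
      exact map_congr_coeffs fun c hc => hm c (h.1 i c hc) (Or.inr ⟨i, hc⟩)
    have h2 : ∀ p q, p + q = 2 * d.k → ∀ I, d.w.conj σ p q I = d.w.conj τ p q I := by
      intro p q hpq I
      simp only [FormCochain.conj]
      refine List.map_congr_left fun y hy => ?_
      have h3 : y.1.conj σ = y.1.conj τ := by
        simp only [RatFun.conj]
        rw [map_congr_coeffs fun c hc =>
          hm c ((h.2 p q hpq I y hy).1 c hc) (Or.inl ((hA2 p q hpq I y hy).1 hc))]
      have h4 : ∀ b, (y.2 b).conj σ = (y.2 b).conj τ := by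
        intro b
        simp only [RatFun.conj]
        rw [map_congr_coeffs fun c hc =>
          hm c ((h.2 p q hpq I y hy).2 b c hc) (Or.inl ((hA2 p q hpq I y hy).2 b hc))]
      rw [h3]
      simp only [h4]
    change PerIn A (conjEqs τ d.F) d.k (d.w.conj τ)
    have hP' : PerIn A (conjEqs σ d.F) d.k (d.w.conj σ) := hP
    rw [h1] at hP'
    obtain ⟨W, hW, hr⟩ := hP'
    refine ⟨W, ⟨fun x hx v hv => ?_, hW.bd⟩, hr⟩
    rw [← h2 x.1 x.2.1 hx]
    exact hW.int x hx v hv
  refine ⟨(A2 ∪ Finset.univ.biUnion fun i => (d.F i).coeffs).filter (· ∈ L), fun x hx => ?_,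
    fun g k hgk => ?_⟩
  · exact (Finset.mem_filter.1 (Finset.mem_coe.1 hx)).2
  · exact not_congr ⟨key RC g k hgk, key RC k g fun x hx => (hgk x hx).symm⟩

/-- the status is the same for all automorphisms over the algebraic numbers -/
private theorem Fin_all (d : Datum) (hd : AllClosed d) {A : Set ℂ} (hA : A ⊆ RC) {g : ℂ ≃+* ℂ}
    (hg : g ∈ GA) (h : St d A g) {σ : ℂ ≃+* ℂ} (hσ : σ ∈ GA) : St d A σ := by
  obtain ⟨X₀, hdep, hloc⟩ := exists_St d hd hA
  obtain ⟨N, hN, hc⟩ := connected hdep hloc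
  exact (hc g σ fun z hz => by rw [hg z (hN z hz), hσ z (hN z hz)]).1 h

private theorem Fin_st {d : Datum} {A : Set ℂ} {σ : ℂ ≃+* ℂ} (h : St d A σ) :
    PerIn A (d.conj σ).F (d.conj σ).k (d.conj σ).w := by
  obtain ⟨X₂, ε₂, hε₂, h1⟩ := h
  exact h1 σ (fun _ _ => rfl) fun x _ => by simpa using hε₂

theorem final : ∃ τ : RingAut ℂ, FixesAlg τ ∧ ∀ (d : Datum) (x : Finset ℂ),
    IsDefinedOver d (cl x) → ∀ J : Finset ℤ, x.card < J.card →
      (∀ j ∈ J, IsRealClass (d.conj (τ ^ j)).F (d.conj (τ ^ j)).k (d.conj (τ ^ j)).w) →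
      ∀ σ : ℂ ≃+* ℂ, FixesRealAlg σ →
        IsRealClass (d.conj σ).F (d.conj σ).k (d.conj σ).w ∧
        ∀ σ' : ℂ ≃+* ℂ, FixesRealAlg σ' → ((d.conj σ').IsRational → (d.conj σ).IsRational) := by
  classical
  obtain ⟨τ, hτ, htest⟩ := finite_test fam_datum
  refine ⟨τ, fixesAlg_iff.2 hτ, ?_⟩
  intro d x hdef J hJ hreal
  -- all conjugates are cocycles
  have hJ0 : J.Nonempty := Finset.card_pos.1 (lt_of_le_of_lt (Nat.zero_le _) hJ)
  obtain ⟨j₀, hj₀⟩ := hJ0
  have hd : AllClosed d := by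
    obtain ⟨W, hW, -⟩ := isRealClass_iff_perIn.1 (hreal j₀ hj₀)
    exact allClosed_of_isPer d hW
  obtain ⟨X, hXL, hX⟩ := Fin_dep d hdef
  -- the test
  have hex : ∃ g ∈ GA, ¬ Inv ∅ (shf g (NR d)) := by
    by_contra hcon
    push Not at hcon
    have hr : (x : Set ℂ) = Set.range (fun i : Fin x.card => (x.equivFin.symm i : ℂ)) := by
      ext z
      constructor
      · intro hz
        exact ⟨x.equivFin ⟨z, Finset.mem_coe.1 hz⟩, by simp⟩
      · rintro ⟨i, rfl⟩
        exact Finset.mem_coe.2 (x.equivFin.symm i).2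
    obtain ⟨j, hj, h1⟩ := htest (NR d) ⟨d, hd, rfl⟩ hcon X hX x.card
      (fun i : Fin x.card => (x.equivFin.symm i : ℂ)) (by rw [← hr]; exact hXL) J hJ
    exact h1 (isRealClass_iff_perIn.1 (hreal j hj))
  obtain ⟨g, hg, hng⟩ := hex
  have hSt : St d RC g := by
    unfold Inv at hng
    push Not at hng
    obtain ⟨Y, ε, hε, h1⟩ := hng
    refine ⟨Y.image g.symm, ε, hε, fun β' hcl hnear => ?_⟩
    have h2 := h1 (g.symm.trans β') (fun z hz => ?_) fun y hy => ?_
    · have h3 : g.trans (g.symm.trans β') = β' := by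
        ext z
        simp
      have h4 : ¬ NR d (g.trans (g.symm.trans β')) := h2
      rw [h3] at h4
      exact not_not.1 h4
    · have h3 : g.symm z = z := by rw [RingEquiv.symm_apply_eq, hg z hz]
      rw [RingEquiv.trans_apply, h3, hcl z hz, hg z hz]
    · have h3 := hnear (g.symm y) (Finset.mem_image_of_mem _ hy)
      rw [RingEquiv.apply_symm_apply] at h3
      exact h3
  have hStall : ∀ σ ∈ GA, St d RC σ := fun σ hσ => Fin_all d hd subset_rfl hg hSt hσ
  intro σ hσ
  refine ⟨?_, fun σ' hσ' hrat => ?_⟩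
  · rcases Fin_two hσ with h | h
    · exact isRealClass_iff_perIn.2 (Fin_st (hStall σ h))
    · exact Fin_real_cc' d (isRealClass_iff_perIn.2 (Fin_st (hStall _ h)))
  · -- a rational conjugate by an automorphism over the algebraic numbers
    obtain ⟨κ, hκ, hκr⟩ : ∃ κ ∈ GA, (d.conj κ).IsRational := by
      rcases Fin_two hσ' with h | h
      · exact ⟨σ', h, hrat⟩
      · exact ⟨_, h, Fin_rat_cc d hrat⟩
    have h1 : St d QC κ := st_rat d hd (hStall κ hκ) (perIn_of_isRationalClass hκr)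
    have h2 : ∀ σ ∈ GA, (d.conj σ).IsRational := fun σ hσ =>
      isRationalClass_of_perIn (Fin_st (Fin_all d hd QC_subset_RC hκ h1 hσ))
    rcases Fin_two hσ with h | h
    · exact h2 σ h
    · exact Fin_rat_cc' d (h2 _ h)

end Pool.Agent.AHT
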