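import Mathlib
import Pool.Agent.AHU.RealP
import Pool.Agent.AHR.Flat
import Pool.Agent.AHU.Clo

/-!
# Linear combinations of cochains of algebraic forms, frames

Proofs.  `isClosedClass_iff`: `W (p, q, I, s) = r p q I s` (`cg`, `evc_bd`, see `AHU/RealP.lean`).
`isExactClass_iff`: as `RealP_fwd`, `RealP_bwd` in `AHU/RealP.lean` with the additive subgroup `{0}`
(`⊥`) of `ℂ` in `duality_subgroup`.
`formIntegral_comb`: `formIntegral` of a list is the sum of the `termIntegral`s, the value of
`C e * f` is `e` times the value of `f`.  `isPer_comb`: from `formIntegral_comb`; `evc` is linear in the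
cochain.
-/

namespace Pool.Agent.AHT

open MvPolynomial Pool.Agent.AHC Pool.Agent.AHI Pool.Agent.AHR Pool.Agent.AHU

variable {N m r : ℕ}

/-- the algebraic form multiplied by a constant -/
noncomputable def scale {q : ℕ} (e : ℂ) (w : AlgForm N q) : AlgForm N q :=
  w.map fun y => (⟨C e * y.1.num, y.1.den⟩, y.2)

/-- the linear combination `∑ e_j ω_j` of cochains of algebraic forms -/
noncomputable def comb (e : Fin r → ℂ) (ω : Fin r → FormCochain N) : FormCochain N :=
  fun p q I => (List.ofFn fun j => scale (e j) (ω j p q I)).flatten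

/-- the integrals of the cochain of algebraic forms `w` of total degree `2k` form a cocycle of the
Čech–singular complex -/
def IsClosedClass (F : Fin m → CPoly N) (k : ℕ) (w : FormCochain N) : Prop :=
  ∃ c : SingCochain N ℂ,
    (∀ p q, p + q = 2 * k + 1 → ∀ I s v, IsLift F I s v → totD c p q I s = 0) ∧
    ∀ p q, p + q = 2 * k → ∀ I s v, IsLift F I s v → formIntegral (w p q I) v = c p q I s

/-- the integrals of the cochain of algebraic forms `w` of total degree `2k` form a coboundary of the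
Čech–singular complex -/
def IsExactClass (F : Fin m → CPoly N) (k : ℕ) (w : FormCochain N) : Prop :=
  ∃ b : SingCochain N ℂ,
    ∀ p q, p + q = 2 * k → ∀ I s v, IsLift F I s v → formIntegral (w p q I) v = totD b p q I s

theorem isClosedClass_iff {F : Fin m → CPoly N} {k : ℕ} {w : FormCochain N} :
    IsClosedClass F k w ↔ ∃ W, IsPer F k w W := by
  constructor
  · rintro ⟨c, h1, h2⟩
    refine ⟨cg c, ⟨?_, ?_⟩⟩
    · rintro ⟨p, q, I, s⟩ hpq v hv
      exact h2 p q hpq I s v hv
    · rintro ⟨p, q, I, s⟩ ⟨v, hv⟩ hpq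
      rw [evc_bd]
      exact h1 p q hpq I s v hv
  · rintro ⟨W, hW⟩
    refine ⟨fun p q I s => W ⟨p, q, I, s⟩, ?_, ?_⟩
    · intro p q hpq I s v hv
      have h1 := evc_bd (fun p q I (s : Simplex N q) => W ⟨p, q, I, s⟩) (⟨p, q, I, s⟩ : Gen N)
      have h2 : evc W (AHI.bd (⟨p, q, I, s⟩ : Gen N)) = 0 := hW.bd ⟨p, q, I, s⟩ ⟨v, hv⟩ hpq
      exact h1.symm.trans h2
    · intro p q hpq I s v hv
      exact hW.int ⟨p, q, I, s⟩ hpq v hv

theorem isExactClass_iff {F : Fin m → CPoly N} {k : ℕ} {w : FormCochain N} :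
    IsExactClass F k w ↔ PerIn {0} F k w := by
  classical
  constructor
  · rintro ⟨b, h2⟩
    refine ⟨fun x => evc (cg b) (AHI.bd x), ⟨?_, ?_⟩, ?_⟩
    · rintro ⟨p, q, I, s⟩ hpq v hv
      rw [evc_bd]
      exact h2 p q hpq I s v hv
    · intro x _ _
      exact evc_evc_bd_bd (cg b) x
    · intro z hz
      refine ⟨0, rfl, ?_⟩
      rw [evc_evc_bd_of_cycle _ _ hz.bd, mul_zero]
  · rintro ⟨W, hW, hcyc⟩
    let ι := {x : Gen N // Liftable F x ∧ x.1 + x.2.1 = 2 * k}
    obtain ⟨b0, hb0⟩ := duality_subgroup ⊥ (fun x : ι => AHI.bd x.1) (fun x : ι => W x.1) (by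
      intro z hz
      have h1 : Finsupp.linearCombination ℤ (AHI.bd : Gen N → (Gen N →₀ ℤ))
          (Finsupp.mapDomain Subtype.val z) = 0 := by
        rw [Finsupp.linearCombination_mapDomain]
        exact hz
      obtain ⟨a, ha, hn⟩ := hcyc (Finsupp.mapDomain Subtype.val z) ⟨by
        intro y hy
        obtain ⟨x, -, rfl⟩ := Finset.mem_image.1 (Finsupp.mapDomain_support hy)
        exact x.2, h1⟩
      have ha' : a = 0 := ha
      rw [ha', mul_zero] at hn
      have h2 : Finsupp.linearCombination ℤ (fun x : ι => W x.1) z =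
          evc W (Finsupp.mapDomain Subtype.val z) := by
        unfold evc
        rw [Finsupp.linearCombination_mapDomain]
        rfl
      rw [h2, hn]
      exact AddSubgroup.zero_mem _)
    refine ⟨fun p q I s => b0 ⟨p, q, I, s⟩, ?_⟩
    intro p q hpq I s v hv
    have h1 := evc_bd (fun p q I (s : Simplex N q) => b0 ⟨p, q, I, s⟩) (⟨p, q, I, s⟩ : Gen N)
    have h3 : formIntegral (w p q I) v = W ⟨p, q, I, s⟩ := hW.int ⟨p, q, I, s⟩ hpq v hv
    have h4 : W ⟨p, q, I, s⟩ - evc b0 (AHI.bd ⟨p, q, I, s⟩) = 0 :=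
      hb0 ⟨⟨p, q, I, s⟩, ⟨v, hv⟩, hpq⟩
    rw [h3, sub_eq_zero.mp h4]
    exact h1

/-- the integral of a multiple -/
private theorem Frm_scale {q : ℕ} (e : ℂ) (w : AlgForm N q)
    (v : (Fin (q + 1) → ℝ) → (Fin (N + 1) → ℂ)) :
    formIntegral (scale e w) v = e * formIntegral w v := by
  unfold formIntegral scale
  rw [List.map_map, ← List.sum_map_mul_left]
  congr 1
  refine List.map_congr_left fun x _ => ?_
  show termIntegral ⟨C e * x.1.num, x.1.den⟩ x.2 v = e * termIntegral x.1 x.2 v
  unfold termIntegral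
  rw [← MeasureTheory.integral_const_mul]
  congr 1
  funext t
  have h1 : RatFun.val ⟨C e * x.1.num, x.1.den⟩ (v (bary t)) = e * x.1.val (v (bary t)) := by
    unfold RatFun.val
    rw [map_mul, eval_C, mul_div_assoc]
  rw [h1, mul_assoc]

theorem formIntegral_comb (e : Fin r → ℂ) (ω : Fin r → FormCochain N) (p q : ℕ)
    (I : Fin (p + 1) → Fin (N + 1)) (v : (Fin (q + 1) → ℝ) → (Fin (N + 1) → ℂ)) :
    formIntegral (comb e ω p q I) v = ∑ j, e j * formIntegral (ω j p q I) v := by
  have h1 : ∀ l : List (AlgForm N q), formIntegral l.flatten v =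
      (l.map fun w => formIntegral w v).sum := by
    intro l
    induction l with
    | nil => simp [formIntegral]
    | cons a l ih =>
      rw [List.flatten_cons, List.map_cons, List.sum_cons, ← ih]
      unfold formIntegral
      rw [List.map_append, List.sum_append]
  unfold comb
  rw [h1, List.map_ofFn, List.sum_ofFn]
  refine Finset.sum_congr rfl fun j _ => ?_
  exact Frm_scale _ _ _

theorem isHodgeCochain_comb {k : ℕ} (e : Fin r → ℂ) {ω : Fin r → FormCochain N}
    (h : ∀ j, IsHodgeCochain k (ω j)) : IsHodgeCochain k (comb e ω) := by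
  constructor
  · intro p q hpq I x hx
    obtain ⟨l, hl, hxl⟩ := List.mem_flatten.mp hx
    obtain ⟨j, rfl⟩ := (List.mem_ofFn' _ _).mp hl
    obtain ⟨y, hy, rfl⟩ := List.mem_map.mp hxl
    obtain ⟨h1, h2⟩ := (h j).1 p q hpq I y hy
    refine ⟨⟨?_, h1.2⟩, h2⟩
    have h3 := (isHomogeneous_C (Fin (N + 1)) (e j)).mul h1.1
    rw [zero_add] at h3
    exact h3
  · intro p q hpq hq I
    unfold comb
    rw [List.flatten_eq_nil_iff]
    intro l hl
    obtain ⟨j, rfl⟩ := (List.mem_ofFn' _ _).mp hl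
    show scale (e j) (ω j p q I) = []
    rw [(h j).2 p q hpq hq I]
    rfl

theorem conj_comb (σ : ℂ ≃+* ℂ) (e : Fin r → ℂ) (ω : Fin r → FormCochain N) :
    (comb e ω).conj σ = comb (fun j => σ (e j)) fun j => (ω j).conj σ := by
  funext p q I
  unfold comb FormCochain.conj
  rw [List.map_flatten, List.map_ofFn]
  congr 2
  funext j
  show ((scale (e j) (ω j p q I)).map fun x => (x.1.conj σ, fun b => (x.2 b).conj σ)) =
    scale (σ (e j)) ((ω j p q I).map fun x => (x.1.conj σ, fun b => (x.2 b).conj σ))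
  unfold scale
  rw [List.map_map, List.map_map]
  refine List.map_congr_left fun x _ => ?_
  show ((⟨C (e j) * x.1.num, x.1.den⟩ : RatFun N).conj σ, fun b => (x.2 b).conj σ) =
    ((⟨C (σ (e j)) * (x.1.conj σ).num, (x.1.conj σ).den⟩ : RatFun N), fun b => (x.2 b).conj σ)
  unfold RatFun.conj
  rw [map_mul, map_C]
  rfl

private theorem Frm_evc (e : Fin r → ℂ) (W : Fin r → Gen N → ℂ) (z : Gen N →₀ ℤ) :
    evc (fun x => ∑ j, e j * W j x) z = ∑ j, e j * evc (W j) z := by
  rw [evc_eq_sum]
  have h1 : ∀ j, e j * evc (W j) z = ∑ y ∈ z.support, e j * ((z y : ℂ) * W j y) := by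
    intro j
    rw [evc_eq_sum, Finset.mul_sum]
  rw [Finset.sum_congr rfl fun j _ => h1 j, Finset.sum_comm]
  refine Finset.sum_congr rfl fun y _ => ?_
  rw [Finset.mul_sum]
  refine Finset.sum_congr rfl fun j _ => ?_
  ring

theorem isPer_comb {F : Fin m → CPoly N} {k : ℕ} (e : Fin r → ℂ) {ω : Fin r → FormCochain N}
    {W : Fin r → Gen N → ℂ} (h : ∀ j, IsPer F k (ω j) (W j)) :
    IsPer F k (comb e ω) fun x => ∑ j, e j * W j x := by
  constructor
  · intro x hx v hv
    rw [formIntegral_comb]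
    exact Finset.sum_congr rfl fun j _ => by rw [(h j).int x hx v hv]
  · intro x hx hk
    rw [Frm_evc]
    exact Finset.sum_eq_zero fun j _ => by rw [(h j).bd x hx hk, mul_zero]

theorem evc_comb (e : Fin r → ℂ) (W : Fin r → Gen N → ℂ) (z : Gen N →₀ ℤ) :
    evc (fun x => ∑ j, e j * W j x) z = ∑ j, e j * evc (W j) z :=
  Frm_evc e W z

/-- a smooth projective variety `Y` with a family of representatives of classes in
`F^k H^{2k}_{dR}(Y/ℂ)`, such that the conjugates of the classes by every automorphism of `ℂ` are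
linearly independent -/
structure Frame where
  N : ℕ
  m : ℕ
  F : Fin m → CPoly N
  k : ℕ
  r : ℕ
  ω : Fin r → FormCochain N
  smooth : IsSmoothProjective F
  hodge : ∀ j, IsHodgeCochain k (ω j)
  closed : ∀ j, IsClosedClass F k (ω j)
  indep : ∀ (σ : ℂ ≃+* ℂ) (e : Fin r → ℂ),
    IsExactClass (conjEqs σ F) k (comb e fun j => (ω j).conj σ) → e = 0

/-- the variety with the class `∑ e_j ω_j` -/
noncomputable def Frame.datum (f : Frame) (e : Fin f.r → ℂ) : Datum :=
  ⟨f.N, f.m, f.F, f.k, comb e f.ω, f.smooth, isHodgeCochain_comb e f.hodge⟩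

end Pool.Agent.AHT
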