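import Mathlib
import Pool.Agent.AHT.Frm
import Pool.Agent.AHT.FamD

/-!
# The coordinates of a flat class in a frame

Proof of `coord_mem`.  Let `K = S ∪ X`.  Suppose `e i₀ ∉ cl K`.  Let `b` be a basis of `range e` over `K`
(`exists_basis`, `range b ⊆ range e`, `n ≥ 1` elements, `range e ⊆ cl (K ∪ range b)`), `E` the finite set
`range e`, and `r, η, φ` from `chart` (over `K`, for `b`, `E`).  By `h` there are `Y, ε > 0` such that
the periods of the conjugate by `g` are real for all `g ∈ Fx S` within `ε` of the identity on `Y`.  For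
`y` near `b`, independent over `K`, there is `g ∈ Fx K` with `g b = y`, near the identity on `Y` and on
`E` (`nearby_rel` over `K` for `E`, then `ext_rel` with `X := E`, `X₂ := Y`), so
`g (e j) = φ y ⟨e j, _⟩` (third statement of `chart`).  `g` fixes the coefficients of `F` and the `ω j`
(they are in `X`), so the conjugate by `g` is `(F, comb (g ∘ e) ω)` (`conj_comb`, `map_congr_coeffs`; the
components of degree different from `2k` play no role: compare `sta_perIn`), and its period over a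
cycle `z` is `∑ j, g (e j) * evc (W j) z` (`isPer_comb`, `evc_comb`).  So on the line `y = b + s u`,
`u = fun _ => 1`, the function `f s = ((2πi)^k)⁻¹ * ∑ j, φ (b + s u) ⟨e j, _⟩ * evc (W j) z`, which is
holomorphic near `0`, is real for a dense set of `s` (`mk_not_seqInd`, `dense_compl_small`), so it is
constant near `0` (`const_of_real`), for all cycles `z` (on the same disc).  Fix a small `s ≠ 0` in this
disc; then `c j = φ (b + s u) ⟨e j, _⟩ - e j` satisfies `∑ j, c j * evc (W j) z = 0` for all cycles, so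
`comb c ω` is exact (`isExactClass_iff`), so `c = 0` by `hind`.  But for `e j = b 0`:
`φ (b + s u) ⟨b 0, _⟩ = b 0 + s` (for the `s` with `b + s u` independent by the choice of `φ`:
`g (b 0) = b 0 + s`; choose such an `s`): contradiction.
-/

namespace Pool.Agent.AHT

open MvPolynomial Pool.Agent.AHC Pool.Agent.AHI Pool.Agent.AHR Pool.Agent.AHU Cardinal

variable {N m r : ℕ}

private theorem Frc_map {n : ℕ} {β : ℂ ≃+* ℂ} {P : MvPolynomial (Fin n) ℂ}
    (h : ∀ c ∈ P.coeffs, β c = c) : map (β : ℂ →+* ℂ) P = P := by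
  have h1 := map_congr_coeffs (σ := β) (τ := RingEquiv.refl ℂ) (P := P) fun c hc => h c hc
  rw [h1]
  have h2 : ((RingEquiv.refl ℂ : ℂ ≃+* ℂ) : ℂ →+* ℂ) = RingHom.id ℂ := rfl
  rw [h2, MvPolynomial.map_id]

private theorem Frc_rat {β : ℂ ≃+* ℂ} {f : RatFun N} (h : ∀ c ∈ f.num.coeffs, β c = c) :
    f.conj β = f := by
  obtain ⟨num, den⟩ := f
  simp only [RatFun.conj]
  rw [Frc_map h]

private theorem Frc_form {β : ℂ ≃+* ℂ} {w : FormCochain N} {p q : ℕ} {I : Fin (p + 1) → Fin (N + 1)}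
    (h : ∀ y ∈ w p q I, (∀ c ∈ y.1.num.coeffs, β c = c) ∧ ∀ b, ∀ c ∈ (y.2 b).num.coeffs, β c = c) :
    w.conj β p q I = w p q I := by
  have h1 : w.conj β p q I = (w p q I).map id := by
    simp only [FormCochain.conj]
    refine List.map_congr_left fun y hy => ?_
    obtain ⟨h2, h3⟩ := h y hy
    rw [Frc_rat h2]
    have h4 : (fun b => (y.2 b).conj β) = y.2 := funext fun b => Frc_rat (h3 b)
    rw [h4]
    rfl
  rw [h1, List.map_id]

/-- the periods of the conjugate by an automorphism which fixes the coefficients -/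
private theorem Frc_per {F : Fin m → CPoly N} {k : ℕ} {ω : Fin r → FormCochain N}
    {W : Fin r → Gen N → ℂ} (hW : ∀ j, IsPer F k (ω j) (W j)) {X : Set ℂ}
    (hF : ∀ i, ∀ c ∈ (F i).coeffs, c ∈ X)
    (hω : ∀ j p q, p + q = 2 * k → ∀ I, ∀ y ∈ ω j p q I,
      (∀ c ∈ y.1.num.coeffs, c ∈ X) ∧ ∀ b, ∀ c ∈ (y.2 b).num.coeffs, c ∈ X)
    (e : Fin r → ℂ) {β : ℂ ≃+* ℂ} (hβ : ∀ c ∈ X, β c = c)
    (hper : PerIn RC (conjEqs β F) k ((comb e ω).conj β)) {z : Gen N →₀ ℤ} (hz : IsCyc F k z) :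
    ∃ a : ℝ, ∑ j, β (e j) * evc (W j) z = (2 * Real.pi * Complex.I) ^ k * a := by
  have h1 : conjEqs β F = F := by
    funext i
    exact Frc_map fun c hc => hβ c (hF i c hc)
  rw [h1, conj_comb] at hper
  obtain ⟨W', hW', hr⟩ := hper
  obtain ⟨_, ⟨a, rfl⟩, ha⟩ := hr z hz
  refine ⟨a, ?_⟩
  rw [← ha, ← evc_comb]
  refine evc_congr fun x hx => ?_
  obtain ⟨⟨v, hv⟩, hdeg⟩ := hz.lift x hx
  rw [← hW'.int x hdeg v hv, formIntegral_comb]
  refine Finset.sum_congr rfl fun j _ => ?_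
  rw [← (hW j).int x hdeg v hv]
  congr 2
  exact (Frc_form fun y hy => ⟨fun c hc => hβ c ((hω j _ _ hdeg _ y hy).1 c hc),
    fun b c hc => hβ c ((hω j _ _ hdeg _ y hy).2 b c hc)⟩).symm

theorem coord_mem {F : Fin m → CPoly N} {k : ℕ} {ω : Fin r → FormCochain N}
    {W : Fin r → Gen N → ℂ} (hW : ∀ j, IsPer F k (ω j) (W j))
    (hind : ∀ c : Fin r → ℂ, IsExactClass F k (comb c ω) → c = 0) {X : Set ℂ} (hXf : X.Finite)
    (hF : ∀ i, ∀ c ∈ (F i).coeffs, c ∈ X)
    (hω : ∀ j p q, p + q = 2 * k → ∀ I, ∀ y ∈ ω j p q I,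
      (∀ c ∈ y.1.num.coeffs, c ∈ X) ∧ ∀ b, ∀ c ∈ (y.2 b).num.coeffs, c ∈ X)
    (e : Fin r → ℂ) {S : Set ℂ} (hS : #S < 𝔠)
    (h : ¬ Inv S fun σ => ¬ PerIn RC (conjEqs σ F) k ((comb e ω).conj σ)) (i : Fin r) :
    e i ∈ cl (S ∪ X) := by
  classical
  by_contra hei
  have hK : #(S ∪ X : Set ℂ) < 𝔠 := by
    refine (mk_union_le S X).trans_lt ?_
    exact add_lt_of_lt aleph0_le_continuum hS ((lt_aleph0_iff_set_finite.2 hXf).trans aleph0_lt_continuum)
  set K : Set ℂ := S ∪ X with hKd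
  have hXK : ∀ β ∈ Fx K, ∀ c ∈ X, β c = c := fun β hβ c hc => hβ c (subset_cl _ (Or.inr hc))
  obtain ⟨n, b, hb, hbe, heb⟩ := exists_basis K (Set.finite_range e)
  obtain ⟨i₁⟩ : Nonempty (Fin n) := by
    by_contra hn
    rw [not_nonempty_iff] at hn
    have h1 := heb ⟨i, rfl⟩
    rw [Set.range_eq_empty, Set.union_empty] at h1
    exact hei h1
  obtain ⟨j₁, hj₁⟩ := hbe ⟨i₁, rfl⟩
  set E : Finset ℂ := Finset.univ.image e with hE
  have hEm : ∀ j, e j ∈ E := fun j => Finset.mem_image_of_mem _ (Finset.mem_univ j)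
  have hEe : (E : Set ℂ) = Set.range e := by
    rw [hE, Finset.coe_image, Finset.coe_univ, Set.image_univ]
  have hEb : (E : Set ℂ) ⊆ cl (K ∪ Set.range b) := by rw [hEe]; exact heb
  obtain ⟨ρ, η, φ, hρ, hη, hφd, -, hφ3, -⟩ := chart hb E hEb (U := Set.univ) Filter.univ_mem
  simp only [Inv, not_forall, not_exists, not_and, not_not] at h
  obtain ⟨Y, ε, hε, hbad⟩ := h
  obtain ⟨ε₃, hε₃, hext⟩ := ext_rel hK E Y hε
  obtain ⟨δ, hδ, hnb⟩ := nearby_rel hb (X := (E : Set ℂ)) E.finite_toSet hEb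
    (η := min ε₃ η) (lt_min hε₃ hη)
  -- the line
  have hLn : ∀ s : ℂ, ∀ i, (b i + s * 1) - b i = s := fun s i => by ring
  have key : ∀ s : ℂ, ‖s‖ < min ρ δ → SeqInd K (fun i => b i + s * 1) →
      (∀ j, φ (fun i => b i + s * 1) ⟨e j, hEm j⟩ = e j + s ∨ b i₁ ≠ e j) ∧
      ∀ z, IsCyc F k z → ∃ a : ℝ, ∑ j, φ (fun i => b i + s * 1) ⟨e j, hEm j⟩ * evc (W j) z =
        (2 * Real.pi * Complex.I) ^ k * a := by
    intro s hs hsI
    obtain ⟨β, hβ, hβb, hβE⟩ := hnb _ hsI fun i => by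
      rw [hLn]
      exact hs.trans_le (min_le_right _ _)
    have h1 : res E β = φ fun i => b i + s * 1 := by
      have h2 := hφ3 β hβ (by
        rw [Metric.mem_ball, dist_pi_lt_iff hρ]
        intro i
        rw [dist_eq_norm, hβb, hLn]
        exact hs.trans_le (min_le_left _ _)) fun x hx => (hβE x hx).trans_le (min_le_right _ _)
      rw [h2]
      congr 1
      funext i
      exact hβb i
    have h3 : ∀ j, φ (fun i => b i + s * 1) ⟨e j, hEm j⟩ = β (e j) := fun j => by
      rw [← h1]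
      rfl
    obtain ⟨β₃, hβ₃, hβ₃E, hβ₃Y⟩ := hext β hβ fun x hx => (hβE x hx).trans_le (min_le_left _ _)
    have hper := hbad β₃ (Fx_anti Set.subset_union_left hβ₃) hβ₃Y
    refine ⟨fun j => ?_, fun z hz => ?_⟩
    · by_cases hj : b i₁ = e j
      · left
        rw [h3, ← hj, hβb, mul_one]
      · right
        exact hj
    · obtain ⟨a, ha⟩ := Frc_per hW hF hω e (hXK β₃ hβ₃) hper hz
      refine ⟨a, ?_⟩
      rw [← ha]
      refine Finset.sum_congr rfl fun j _ => ?_
      rw [h3, hβ₃E _ (hEm j)]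
  have hdense : Dense {s : ℂ | SeqInd K fun i => b i + s * 1} := by
    have h1 := dense_compl_small (mk_not_seqInd hK (fun _ => (1 : ℂ)) hb)
    have h2 : {s : ℂ | ¬ SeqInd K fun i => b i + s * 1}ᶜ = {s : ℂ | SeqInd K fun i => b i + s * 1} := by
      ext s
      simp
    rwa [h2] at h1
  have hφ0 : ∀ j, φ (fun i => b i + (0 : ℂ) * 1) ⟨e j, hEm j⟩ = e j := by
    intro j
    have h2 := hφ3 (RingEquiv.refl ℂ) (refl_mem_Fx K) (by
      have h3 : (fun i => (RingEquiv.refl ℂ) (b i)) = b := rfl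
      rw [h3]
      exact Metric.mem_ball_self hρ) fun x _ => by
        rw [RingEquiv.refl_apply, sub_self, norm_zero]
        exact hη
    have h4 : (fun i => b i + (0 : ℂ) * 1) = fun i => (RingEquiv.refl ℂ) (b i) := by
      funext i
      rw [zero_mul, add_zero]
      rfl
    rw [h4, ← h2]
    rfl
  have hr0 : 0 < min ρ δ := lt_min hρ hδ
  have hpi : (2 * (Real.pi : ℂ) * Complex.I) ^ k ≠ 0 :=
    pow_ne_zero _ (by simp [Real.pi_ne_zero])
  -- constancy of the periods
  have hconst : ∀ z, IsCyc F k z → ∀ s : ℂ, ‖s‖ < min ρ δ →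
      ∑ j, φ (fun i => b i + s * 1) ⟨e j, hEm j⟩ * evc (W j) z = ∑ j, e j * evc (W j) z := by
    intro z hz s hs
    have h1 := const_of_real (r := min ρ δ)
      (f := fun s : ℂ => ((2 * (Real.pi : ℂ) * Complex.I) ^ k)⁻¹ *
        ∑ j, φ (fun i => b i + s * 1) ⟨e j, hEm j⟩ * evc (W j) z)
      (by
        refine DifferentiableOn.const_mul ?_ _
        refine DifferentiableOn.fun_sum fun j _ => ?_
        refine DifferentiableOn.mul_const ?_ _
        have h2 : DifferentiableOn ℂ (fun s : ℂ => φ fun i => b i + s * 1) (Metric.ball 0 (min ρ δ)) := by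
          refine hφd.comp (g := φ) (f := fun (s : ℂ) i => b i + s * 1) ?_ ?_
          · refine differentiableOn_pi.2 fun i => ?_
            fun_prop
          · intro s hs
            rw [Metric.mem_ball, dist_pi_lt_iff hρ]
            intro i
            rw [dist_eq_norm, hLn]
            rw [Metric.mem_ball, dist_zero_right] at hs
            exact hs.trans_le (min_le_left _ _)
        exact differentiableOn_pi.1 h2 _)
      (D := {s : ℂ | SeqInd K fun i => b i + s * 1})
      (fun s hs => Metric.isOpen_ball.inter_closure ⟨hs, hdense s⟩)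
      (fun s hs hsI => by
        rw [Metric.mem_ball, dist_zero_right] at hs
        obtain ⟨a, ha⟩ := (key s hs hsI).2 z hz
        rw [ha, inv_mul_cancel_left₀ hpi]
        exact Complex.ofReal_im a)
      (a := s) (b := 0) (by rwa [Metric.mem_ball, dist_zero_right]) (Metric.mem_ball_self hr0)
    have h2 := mul_left_cancel₀ (inv_ne_zero hpi) h1
    rw [h2]
    refine Finset.sum_congr rfl fun j _ => ?_
    rw [hφ0]
  -- a non-zero parameter
  obtain ⟨s, hsI, hs0, hs⟩ : ∃ s : ℂ, SeqInd K (fun i => b i + s * 1) ∧ s ≠ 0 ∧ ‖s‖ < min ρ δ := by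
    have hopen : IsOpen (Metric.ball (0 : ℂ) (min ρ δ) \ {0}) :=
      Metric.isOpen_ball.sdiff isClosed_singleton
    have hne : (Metric.ball (0 : ℂ) (min ρ δ) \ {0}).Nonempty := by
      refine ⟨((min ρ δ / 2 : ℝ) : ℂ), ?_, ?_⟩
      · rw [Metric.mem_ball, dist_zero_right, Complex.norm_real, Real.norm_of_nonneg (by positivity)]
        linarith
      · rw [Set.mem_singleton_iff]
        have : min ρ δ / 2 ≠ 0 := by positivity
        exact_mod_cast this
    obtain ⟨s, hs1, hs2⟩ := hdense.inter_open_nonempty _ hopen hne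
    refine ⟨s, hs2, fun h0 => hs1.2 h0, ?_⟩
    have h3 := hs1.1
    rwa [Metric.mem_ball, dist_zero_right] at h3
  have hc := hind (fun j => φ (fun i => b i + s * 1) ⟨e j, hEm j⟩ - e j) (by
    rw [isExactClass_iff]
    refine ⟨_, isPer_comb _ hW, fun z hz => ⟨0, rfl, ?_⟩⟩
    rw [evc_comb, mul_zero]
    simp only [sub_mul]
    rw [Finset.sum_sub_distrib, hconst z hz s hs, sub_self])
  have h1 := congrFun hc j₁
  simp only [Pi.zero_apply] at h1
  rcases (key s hs hsI).1 j₁ with h2 | h2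
  · rw [h2, add_sub_cancel_left] at h1
    exact hs0 h1
  · exact h2 hj₁.symm

end Pool.Agent.AHT
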