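import Mathlib
import Pool.Agent.AHT.Ind

/-!
# Induction along the tower, second form

Proofs.  `drop_mem`: if `t ∉ cl (S ∪ X)`, a basis `v` of `X` over `S` (`exists_basis`) is independent over
`insert t S` (see `Ind_insert` in `AHT/Ind.lean`), and `inv_up` gives `Inv (insert t S) P`.
`tower_ind2`: the proof of `tower_ind` (file `AHT/Ind.lean`) uses the hypothesis only in `Ind_block` for
the step from `below T a` to `IndL T a 1 = insert (T a 0) (below T a)`; this step is now the
hypothesis `h`.  Copy the private lemmas with a new prefix.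
-/

namespace Pool.Agent.AHT

open Pool.Agent.AHC Pool.Agent.AHI Pool.Agent.AHR Cardinal

private theorem Ind2_insert {S : Set ℂ} {t : ℂ} {n : ℕ} {v : Fin n → ℂ} (hv : SeqInd S v)
    (ht : t ∉ cl (S ∪ Set.range v)) : SeqInd (insert t S) v := by
  intro i hi
  rw [Set.insert_union] at hi
  have h1 := cl_exchange hi (hv i)
  refine ht (cl_mono ?_ h1)
  rintro z (rfl | hz | ⟨j, -, rfl⟩)
  · exact Or.inr ⟨i, rfl⟩
  · exact Or.inl hz
  · exact Or.inr ⟨j, rfl⟩

private theorem Ind2_base {S V X : Set ℂ} (hX : X.Finite) (h : X ⊆ cl (S ∪ V)) :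
    ∃ S₀ ⊆ S, S₀.Finite ∧ X ⊆ cl (S₀ ∪ V) := by
  induction X, hX using Set.Finite.induction_on with
  | empty => exact ⟨∅, Set.empty_subset _, Set.finite_empty, Set.empty_subset _⟩
  | @insert a A _ _ ih =>
    obtain ⟨S₀, h1, h2, h3⟩ := ih ((Set.subset_insert _ _).trans h)
    obtain ⟨I, hI, hIf, -, haI⟩ := exists_finite_of_mem_cl (h (Set.mem_insert a A))
    refine ⟨S₀ ∪ (I ∩ S), Set.union_subset h1 Set.inter_subset_right,
      h2.union (hIf.subset Set.inter_subset_left), ?_⟩
    rintro z (rfl | hz)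
    · refine cl_mono ?_ haI
      intro w hw
      rcases hI hw with h4 | h4
      · exact Or.inl (Or.inr ⟨hw, h4⟩)
      · exact Or.inr h4
    · exact cl_mono (Set.union_subset_union_left _ Set.subset_union_left) (h3 hz)

/-- the elements of the blocks before `a` and the first `m` elements of the block `a` -/
private def Ind2L {W : Type} [LT W] (T : W → ℕ → ℂ) (a : W) (m : ℕ) : Set ℂ :=
  below T a ∪ T a '' Set.Iio m

private theorem Ind2L_sub_below {W : Type} [LinearOrder W] {T : W → ℕ → ℂ} {a b : W} (h : b < a)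
    (m : ℕ) : Ind2L T b m ⊆ below T a := by
  rintro z (⟨c, hc, k, rfl⟩ | ⟨k, -, rfl⟩)
  · exact ⟨c, hc.trans h, k, rfl⟩
  · exact ⟨b, h, k, rfl⟩

private theorem Ind2L_mono {W : Type} [LinearOrder W] {T : W → ℕ → ℂ} (a b : W) (m k : ℕ) :
    ∃ c l, Ind2L T a m ⊆ Ind2L T c l ∧ Ind2L T b k ⊆ Ind2L T c l ∧ (c = a ∨ c = b) := by
  rcases lt_trichotomy a b with h | rfl | h
  · exact ⟨b, k, (Ind2L_sub_below h m).trans Set.subset_union_left, subset_rfl, Or.inr rfl⟩
  · refine ⟨a, max m k, ?_, ?_, Or.inl rfl⟩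
    · exact Set.union_subset_union_right _ (Set.image_mono (Set.Iio_subset_Iio (le_max_left _ _)))
    · exact Set.union_subset_union_right _ (Set.image_mono (Set.Iio_subset_Iio (le_max_right _ _)))
  · exact ⟨a, m, subset_rfl, (Ind2L_sub_below h k).trans Set.subset_union_left, Or.inl rfl⟩

private theorem Ind2_fin {W : Type} [LinearOrder W] {T : W → ℕ → ℂ} {a : W} {S : Set ℂ}
    (hS : S.Finite) (h : S ⊆ below T a) : S = ∅ ∨ ∃ b < a, ∃ m, S ⊆ Ind2L T b m := by
  induction S, hS using Set.Finite.induction_on with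
  | empty => exact Or.inl rfl
  | @insert z A _ _ ih =>
    right
    obtain ⟨b, hb, m, hz⟩ := h (Set.mem_insert z A)
    have hz' : z ∈ Ind2L T b (m + 1) := Or.inr ⟨m, Nat.lt_succ_self m, hz⟩
    rcases ih ((Set.subset_insert _ _).trans h) with rfl | ⟨b', hb', m', h'⟩
    · refine ⟨b, hb, m + 1, ?_⟩
      rintro w (rfl | hw)
      · exact hz'
      · exact hw.elim
    · obtain ⟨c, l, h1, h2, h3⟩ := Ind2L_mono (T := T) b b' (m + 1) m'
      refine ⟨c, ?_, l, ?_⟩
      · rcases h3 with rfl | rfl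
        · exact hb
        · exact hb'
      · rintro w (rfl | hw)
        · exact h1 hz'
        · exact h2 (h' hw)

private theorem Ind2_span {W : Type} [LinearOrder W] {T : W → ℕ → ℂ}
    (hT : ∀ z, ∃ a, z ∈ cl (insert (T a 0) (below T a))) {S : Set ℂ} (hS : S.Finite) :
    S = ∅ ∨ ∃ b, ∃ m, S ⊆ cl (Ind2L T b m) := by
  induction S, hS using Set.Finite.induction_on with
  | empty => exact Or.inl rfl
  | @insert z A _ _ ih =>
    right
    obtain ⟨b, hb⟩ := hT z
    have hz' : z ∈ cl (Ind2L T b 1) := by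
      refine cl_mono ?_ hb
      rintro w (rfl | hw)
      · exact Or.inr ⟨0, Nat.zero_lt_one, rfl⟩
      · exact Or.inl hw
    rcases ih with rfl | ⟨b', m', h'⟩
    · refine ⟨b, 1, ?_⟩
      rintro w (rfl | hw)
      · exact hz'
      · exact hw.elim
    · obtain ⟨c, l, h1, h2, -⟩ := Ind2L_mono (T := T) b b' 1 m'
      refine ⟨c, l, ?_⟩
      rintro w (rfl | hw)
      · exact cl_mono h1 hz'
      · exact cl_mono h2 (h' hw)

private theorem Ind2L_small {C : Set ((ℂ ≃+* ℂ) → Prop)} {W : Type} [LinearOrder W]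
    {T : W → ℕ → ℂ} (hT : Tower C T) (a : W) (m : ℕ) : #(Ind2L T a m) < 𝔠 := by
  have h1 : #(Ind2L T a m) ≤ #(below T a) + #(T a '' Set.Iio m : Set ℂ) := mk_union_le _ _
  refine h1.trans_lt (add_lt_of_lt aleph0_le_continuum (hT.small a) ?_)
  have h2 : (T a '' Set.Iio m).Finite := (Set.finite_Iio m).image _
  exact (Set.Finite.lt_aleph0 h2).trans aleph0_lt_continuum

private theorem Ind2_block {C : Set ((ℂ ≃+* ℂ) → Prop)} (hC : Fam C) {W : Type} [LinearOrder W]
    {T : W → ℕ → ℂ} (hT : Tower C T) {P : (ℂ ≃+* ℂ) → Prop} (hP : P ∈ C)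
    {X : Finset ℂ} (hX : Dep X P) (a : W) (h : Inv (below T a) P → Inv (insert (T a 0) (below T a)) P)
    (h1 : Inv (below T a) P) : ∀ m, Inv (Ind2L T a m) P
  | 0 => by
    have h2 : Ind2L T a 0 = below T a := by
      have : Set.Iio (0 : ℕ) = ∅ := by
        ext k
        simp
      rw [Ind2L, this, Set.image_empty, Set.union_empty]
    rw [h2]
    exact h1
  | 1 => by
    have h3 : Ind2L T a 1 = insert (T a 0) (below T a) := by
      have : Set.Iio (1 : ℕ) = {0} := by
        ext k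
        simp
      rw [Ind2L, this, Set.image_singleton, Set.union_singleton]
    rw [h3]
    exact h h1
  | m + 2 => by
    have h2 := hT.free a (m + 1) (Nat.succ_ne_zero m) P hP
      (Ind2_block hC hT hP hX a h h1 (m + 1))
    have h3 : Set.Iic (m + 1) = Set.Iio (m + 2) := by
      ext k
      simp only [Set.mem_Iic, Set.mem_Iio]
      omega
    rw [h3] at h2
    exact h2

theorem drop_mem {C : Set ((ℂ ≃+* ℂ) → Prop)} (hC : Fam C) {P : (ℂ ≃+* ℂ) → Prop} (hP : P ∈ C)
    {X : Finset ℂ} (hX : Dep X P) {S : Set ℂ} {t : ℂ} (hS : #(insert t S : Set ℂ) < 𝔠)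
    (h1 : Inv S P) (h2 : ¬ Inv (insert t S) P) : t ∈ cl (S ∪ X) := by
  by_contra ht
  obtain ⟨n, v, hv, hvX, hXv⟩ := exists_basis S X.finite_toSet
  have h3 : SeqInd (insert t S) v :=
    Ind2_insert hv fun h4 => ht (cl_mono (Set.union_subset_union_right _ hvX) h4)
  exact h2 (inv_up hC hP hX (Set.subset_insert _ _) hS h3 hXv h1)

theorem tower_ind2 {C : Set ((ℂ ≃+* ℂ) → Prop)} (hC : Fam C) {W : Type} [LinearOrder W]
    [WellFoundedLT W] {T : W → ℕ → ℂ} (hT : Tower C T) {P : (ℂ ≃+* ℂ) → Prop} (hP : P ∈ C)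
    {X : Finset ℂ} (hX : Dep X P) (h0 : Inv ∅ P)
    (h : ∀ a, Inv (below T a) P → Inv (insert (T a 0) (below T a)) P) :
    P (RingEquiv.refl ℂ) := by
  have key : ∀ a, Inv (below T a) P := by
    intro a
    induction a using WellFoundedLT.induction with
    | ind a ih =>
      obtain ⟨n, v, hv, -, hXv⟩ := exists_basis (below T a) X.finite_toSet
      obtain ⟨S₀, h1, h2, h3⟩ := Ind2_base X.finite_toSet hXv
      rcases Ind2_fin h2 h1 with rfl | ⟨b, hb, m, h4⟩
      · exact inv_up hC hP hX (Set.empty_subset _) (hT.small a) hv h3 h0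
      · exact inv_up hC hP hX (Ind2L_sub_below hb m) (hT.small a) hv
          (h3.trans (cl_mono (Set.union_subset_union_left _ h4)))
          (Ind2_block hC hT hP hX b (h b) (ih b hb) m)
  rcases Ind2_span hT.span X.finite_toSet with h1 | ⟨a, m, h1⟩
  · obtain ⟨g, -, -, hg⟩ := h0 ∅ 1 one_pos
    refine (hX g (RingEquiv.refl ℂ) fun x hx => ?_).1 hg
    have : x ∈ (X : Set ℂ) := hx
    rw [h1] at this
    exact this.elim
  · obtain ⟨g, hg1, -, hg⟩ := Ind2_block hC hT hP hX a (h a) (key a) m ∅ 1 one_pos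
    refine (hX g (RingEquiv.refl ℂ) fun x hx => ?_).1 hg
    rw [hg1 x (h1 hx)]
    rfl

end Pool.Agent.AHT
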