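import Mathlib
import Pool.Agent.AHT.Ind2
import Pool.Agent.AHT.Test

/-!
# The test automorphism, second form

`X` is the set of the coefficients of the variety (and of a frame), `X'` the set of the coordinates of
the class in the frame.

Proofs.  `counting2`: if `J` is empty this is clear; otherwise choose the `a j`, let `j₀ ∈ J` with
`a j₀` minimal (`Finset.exists_min_image`) and `q = T (a j₀) (ν.symm (-j₀))`.  For `j ∈ J`:
`X' ⊆ cl (insert q (below T (a j₀) ∪ X)) ⊆ cl (below T (a j) ∪ insert q X)`, so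
`T (a j) (ν.symm (-j)) ∈ cl (below T (a j) ∪ insert q X)`, and `counting` for `insert q X` and
`Fin.cons q x` gives `J.card ≤ n + 1`.
`finite_test2`: as `finite_test` (file `AHT/Test.lean`).  Let `P, X, X', x, J` be as in the statement and
assume `¬ P (τ ^ j)` for all `j ∈ J`.  By `tower_ind2` for `shf (τ ^ j) P` there is `a` with
`Inv (below T a) (shf (τ ^ j) P)`, `¬ Inv (insert (T a 0) (below T a)) (shf (τ ^ j) P)`.  By `drop_mem`
`T a 0 ∈ cl (below T a ∪ (τ ^ j) '' (X ∪ X'))`, and the hypothesis `hst` for `g = τ ^ j`,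
`S = insert (T a 0) (below T a)` gives `(τ ^ j) x' ∈ cl (S ∪ (τ ^ j) '' X)` for `x' ∈ X'`.  Apply `τ ^ (-j)`
to both (it maps `below T a` to itself and `T a 0` to `T a (ν.symm (-j))`) and use `counting2`.
-/

namespace Pool.Agent.AHT

open Pool.Agent.AHC Pool.Agent.AHI Pool.Agent.AHR Cardinal

private theorem Test2_zpow {τ : RingAut ℂ} {z : ℂ} (h : τ z = z) (j : ℤ) : (τ ^ j) z = z := by
  have h1 : τ ∈ MulAction.stabilizer (RingAut ℂ) z := h
  exact (MulAction.stabilizer (RingAut ℂ) z).zpow_mem h1 j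

private theorem Test2_inv (τ : RingAut ℂ) (j : ℤ) (y : ℂ) :
    (τ ^ (-j) : RingAut ℂ) ((τ ^ j : RingAut ℂ) y) = y := by
  have h4 : (τ ^ (-j) * τ ^ j : RingAut ℂ) = 1 := by
    rw [← zpow_add, neg_add_cancel, zpow_zero]
  calc (τ ^ (-j) : RingAut ℂ) ((τ ^ j : RingAut ℂ) y) = (τ ^ (-j) * τ ^ j : RingAut ℂ) y := rfl
    _ = y := by
      rw [h4]
      rfl

theorem counting2 {C : Set ((ℂ ≃+* ℂ) → Prop)} {W : Type} [LinearOrder W] [WellFoundedLT W]
    {T : W → ℕ → ℂ} (hT : Tower C T) (ν : ℕ ≃ ℤ) {n : ℕ} {x : Fin n → ℂ} {X X' : Set ℂ}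
    (hX : X ⊆ cl (Set.range x)) (J : Finset ℤ)
    (h : ∀ j ∈ J, ∃ a, T a (ν.symm (-j)) ∈ cl (below T a ∪ (X ∪ X')) ∧
      X' ⊆ cl (insert (T a (ν.symm (-j))) (below T a ∪ X))) : J.card ≤ n + 1 := by
  rcases J.eq_empty_or_nonempty with rfl | hJ
  · simp
  have hW : Nonempty W := ⟨(hT.span 0).choose⟩
  choose! a ha1 ha2 using h
  obtain ⟨j₀, hj₀, hmin⟩ := Finset.exists_min_image J a hJ
  refine counting hT ν (x := (Fin.cons (T (a j₀) (ν.symm (-j₀))) x : Fin (n + 1) → ℂ))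
    (X := insert (T (a j₀) (ν.symm (-j₀))) X) ?_ J fun j hj => ⟨a j, ?_⟩
  · rw [Fin.range_cons]
    rintro y (rfl | hy)
    · exact subset_cl _ (Set.mem_insert _ _)
    · exact cl_mono (Set.subset_insert _ _) (hX hy)
  · refine (cl_subset_iff.2 ?_) (ha1 j hj)
    have h1 : below T (a j₀) ⊆ below T (a j) := by
      rintro z ⟨b, hb, m, rfl⟩
      exact ⟨b, lt_of_lt_of_le hb (hmin j hj), m, rfl⟩
    rintro y (hy | hy | hy)
    · exact subset_cl _ (Or.inl hy)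
    · exact subset_cl _ (Or.inr (Set.mem_insert_of_mem _ hy))
    · refine cl_mono ?_ (ha2 j₀ hj₀ hy)
      rintro z (rfl | hz | hz)
      · exact Or.inr (Set.mem_insert _ _)
      · exact Or.inl (h1 hz)
      · exact Or.inr (Set.mem_insert_of_mem _ hz)

theorem finite_test2 {C : Set ((ℂ ≃+* ℂ) → Prop)} (hC : Fam C) :
    ∃ τ : RingAut ℂ, τ ∈ GA ∧ ∀ P ∈ C, (∀ g ∈ GA, Inv ∅ (shf g P)) →
      ∀ X X' : Finset ℂ, Dep (X ∪ X') P →
      (∀ g ∈ GA, ∀ S : Set ℂ, #S < 𝔠 → ¬ Inv S (shf g P) →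
        ∀ y ∈ X', g y ∈ cl (S ∪ g '' (X : Set ℂ))) →
      ∀ (n : ℕ) (x : Fin n → ℂ), (X : Set ℂ) ⊆ cl (Set.range x) →
        ∀ J : Finset ℤ, n + 1 < J.card → ∃ j ∈ J, P (τ ^ j) := by
  classical
  obtain ⟨W, hW1, hW2, T, hT⟩ := exists_tower hC
  obtain ⟨ν, hν⟩ : ∃ ν : ℕ ≃ ℤ, ν 0 = 0 :=
    ⟨Equiv.intEquivNat.symm.trans (Equiv.swap (Equiv.intEquivNat.symm 0) 0), by simp⟩
  obtain ⟨τ, hτ, hsh⟩ := exists_shift hT ν
  refine ⟨τ, hτ, fun P hP hinv X X' hX hst n x hXx J hJ => ?_⟩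
  by_contra hcon
  have hcon' : ∀ j ∈ J, ¬ P (τ ^ j) := fun j hj h => hcon ⟨j, hj, h⟩
  have hG : ∀ j : ℤ, (τ ^ j : RingAut ℂ) ∈ GA := fun j z hz => Test2_zpow (hτ z hz) j
  refine absurd (counting2 hT ν (X' := (X' : Set ℂ)) hXx J fun j hj => ?_) (not_le.2 hJ)
  -- a block at which the invariance is lost
  obtain ⟨a, ha1, ha2⟩ : ∃ a, Inv (below T a) (shf (τ ^ j : RingAut ℂ) P) ∧
      ¬ Inv (insert (T a 0) (below T a)) (shf (τ ^ j : RingAut ℂ) P) := by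
    by_contra hne
    refine hcon' j hj ?_
    have h1 : shf (τ ^ j) P (RingEquiv.refl ℂ) := by
      refine tower_ind2 hC hT (hC.shift P hP _) (hX.shf (τ ^ j)) (hinv _ (hG j)) fun a ha => ?_
      by_contra hb
      exact hne ⟨a, ha, hb⟩
    exact h1
  have hbelow : ∀ z ∈ below T a, (τ ^ (-j) : RingAut ℂ) z ∈ below T a := by
    rintro z ⟨b, hb, m, rfl⟩
    exact ⟨b, hb, ν.symm (ν m + -j), (hsh (-j) b m).symm⟩
  have hT0 : (τ ^ (-j) : RingAut ℂ) (T a 0) = T a (ν.symm (-j)) := by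
    rw [hsh (-j) a 0, hν, zero_add]
  have hsmall : #(insert (T a 0) (below T a) : Set ℂ) < 𝔠 := by
    refine (mk_insert_le).trans_lt (add_lt_of_lt aleph0_le_continuum (hT.small a) ?_)
    exact one_lt_aleph0.trans aleph0_lt_continuum
  refine ⟨a, ?_, ?_⟩
  · have h2 := map_mem_cl (τ ^ (-j) : RingAut ℂ)
      (drop_mem hC (hC.shift P hP _) (hX.shf (τ ^ j)) hsmall ha1 ha2)
    rw [hT0] at h2
    refine cl_mono ?_ h2
    rintro _ ⟨z, hz | hz, rfl⟩
    · exact Or.inl (hbelow z hz)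
    · rw [Finset.coe_image] at hz
      obtain ⟨y, hy, rfl⟩ := hz
      rw [Finset.coe_union] at hy
      refine Or.inr ?_
      rw [Test2_inv]
      exact hy
  · intro y hy
    have h2 := map_mem_cl (τ ^ (-j) : RingAut ℂ) (hst _ (hG j) _ hsmall ha2 y hy)
    rw [Test2_inv] at h2
    refine cl_mono ?_ h2
    rintro _ ⟨z, (rfl | hz) | hz, rfl⟩
    · rw [hT0]
      exact Set.mem_insert _ _
    · exact Set.mem_insert_of_mem _ (Or.inl (hbelow z hz))
    · obtain ⟨y', hy', rfl⟩ := hz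
      refine Set.mem_insert_of_mem _ (Or.inr ?_)
      rw [Test2_inv]
      exact hy'

end Pool.Agent.AHT
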