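import Mathlib
import Pool.Agent.AHT.Frc
import Pool.Agent.AHT.Test2
import Pool.Agent.AHT.Fin

/-!
# Finitely many powers of one automorphism test each class; the number depends only on the variety

Proof.  `of_not_inv` is the second half of the proof of `final` in `AHT/Fin.lean` (from the statement
`∃ g ∈ GA, ¬ Inv ∅ (shf g (NR d))` on); copy it.
`final2`: `τ` is from `finite_test2 fam_datum`.  Let `f, x, e, J` be as in the statement and
`d = f.datum e`; `AllClosed d` by `allClosed_of_isPer` (`isPer_comb`, `isClosedClass_iff` or from `hreal`).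
If `¬ Inv ∅ (shf g (NR d))` for some `g ∈ GA` use `of_not_inv`.  Otherwise apply `finite_test2` to `NR d`,
`X` = the finite set of the coefficients of `f.F` and of the components of degree `2k` of the `f.ω j`
(`exists_coeffs`, filtered by `∈ cl x` as in `Fin_dep`), `X'` = the set of the `e j`.
`Dep (X ∪ X') (NR d)`: `(comb e ω).conj g = comb (g ∘ e) (ω.conj g)` (`conj_comb`), and `comb` of cochains
which agree in degree `2k`.  The hypothesis of `finite_test2`: for `g ∈ GA` apply `coord_mem` to the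
conjugates by `g` of `f.F` and `f.ω j` (they are closed: `allClosed_of_isPer` for the datum of the single
cochain `ω j`; independent: `f.indep g`), `g '' X` and `g ∘ e`; `shf g (NR d) σ` is
`¬ PerIn RC (conjEqs (g.trans σ) f.F) ..` and `conjEqs (g.trans σ) F = conjEqs σ (conjEqs g F)`
(`Datum.conj_conj` and its proof).  So there is `j ∈ J` with `NR d (τ ^ j)`: contradiction.
-/

namespace Pool.Agent.AHT

open MvPolynomial Pool.Agent.AHC Pool.Agent.AHI Pool.Agent.AHR Pool.Agent.AHU Cardinal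

/-- the equations and the cochains of the frame have coefficients in `L` -/
def Frame.IsDefinedOver (f : Frame) (L : Set ℂ) : Prop :=
  (∀ i, ∀ c ∈ (f.F i).coeffs, c ∈ L) ∧ ∀ j p q, p + q = 2 * f.k → ∀ I, ∀ y ∈ f.ω j p q I,
    (∀ c ∈ y.1.num.coeffs, c ∈ L) ∧ ∀ b, ∀ c ∈ (y.2 b).num.coeffs, c ∈ L

/-- the class is real: it lies in `(2πi)^k H^{2k}(Y, ℝ)` -/
def IsReal (d : Datum) : Prop := IsRealClass d.F d.k d.w

/-- complex conjugation preserves real classes -/
private theorem FinF_real_cc {N m : ℕ} {F : Fin m → CPoly N} {k : ℕ} {w : FormCochain N}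
    (h : IsRealClass F k w) : IsRealClass (conjEqs cc F) k (w.conj cc) := by
  obtain ⟨r, b, h1, h2⟩ := h
  refine ⟨fun p q I s => (-1) ^ k * (RingHom.id ℝ) (r p q I fun t => cproj N (s t)),
    fun p q I s => 1 * (starRingEnd ℂ) (b p q I fun t => cproj N (s t)), ?_, ?_⟩
  · intro p q hpq I s v hv
    rw [totD_cc, h1 p q hpq I _ _ hv.cc, map_zero, mul_zero]
  · intro p q hpq I s v hv
    rw [totD_cc]
    simp only [FormCochain.conj]
    rw [formIntegral_cc, h2 p q hpq I _ _ hv.cc, map_add, map_mul, map_pow]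
    congr 1
    · have h3 : (starRingEnd ℂ) (2 * (Real.pi : ℂ) * Complex.I) =
          -1 * (2 * (Real.pi : ℂ) * Complex.I) := by
        rw [map_mul, map_mul, Complex.conj_I, Complex.conj_ofReal, map_ofNat]
        ring
      rw [h3, mul_pow]
      simp only [RingHom.id_apply]
      push_cast
      simp only [Complex.conj_ofReal]
      ring
    · rw [one_mul]

private theorem FinF_real_cc' (d : Datum) {σ : ℂ ≃+* ℂ}
    (h : IsRealClass (d.conj (σ.trans cc)).F (d.conj (σ.trans cc)).k (d.conj (σ.trans cc)).w) :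
    IsRealClass (d.conj σ).F (d.conj σ).k (d.conj σ).w := by
  have h1 : IsRealClass ((d.conj (σ.trans cc)).conj cc).F ((d.conj (σ.trans cc)).conj cc).k
      ((d.conj (σ.trans cc)).conj cc).w := FinF_real_cc h
  have h2 : (σ.trans cc).trans cc = σ := by
    ext z
    exact cc_cc (σ z)
  rwa [Datum.conj_conj, h2] at h1

private theorem FinF_rat_cc (d : Datum) {σ : ℂ ≃+* ℂ} (h : (d.conj σ).IsRational) :
    (d.conj (σ.trans cc)).IsRational := by
  rw [← Datum.conj_conj]
  exact h.cc

private theorem FinF_rat_cc' (d : Datum) {σ : ℂ ≃+* ℂ} (h : (d.conj (σ.trans cc)).IsRational) :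
    (d.conj σ).IsRational := by
  have h1 := FinF_rat_cc d h
  have h2 : (σ.trans cc).trans cc = σ := by
    ext z
    exact cc_cc (σ z)
  rwa [h2] at h1

/-- an automorphism which fixes the real algebraic numbers fixes the algebraic numbers, or is
complex conjugation on them -/
private theorem FinF_two {σ : ℂ ≃+* ℂ} (h : FixesRealAlg σ) : σ ∈ GA ∨ σ.trans cc ∈ GA := by
  have hI2 : σ Complex.I * σ Complex.I = -1 := by
    rw [← map_mul, Complex.I_mul_I, map_neg, map_one]
  have hI : σ Complex.I = Complex.I ∨ σ Complex.I = -Complex.I := by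
    have h1 : (σ Complex.I - Complex.I) * (σ Complex.I + Complex.I) = 0 := by
      have h2 := Complex.I_mul_I
      linear_combination hI2 - h2
    rcases mul_eq_zero.1 h1 with h2 | h2
    · exact Or.inl (sub_eq_zero.1 h2)
    · exact Or.inr (eq_neg_of_add_eq_zero_left h2)
  have hIalg : Complex.I ∈ cl ∅ := mem_cl_empty Complex.isIntegral_rat_I.isAlgebraic
  -- the real and imaginary parts
  have key : ∀ z ∈ cl ∅, ∃ a b : ℂ, z = a + b * Complex.I ∧ a.im = 0 ∧ b.im = 0 ∧
      σ a = a ∧ σ b = b := by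
    intro z hz
    have hc : cc z ∈ cl ∅ := map_cl_empty cc hz
    have h2 : (2 : ℂ)⁻¹ ∈ clF ∅ := (clF ∅).inv_mem ((clF ∅).natCast_mem 2)
    have ha : (2 : ℂ)⁻¹ * (z + cc z) ∈ clF ∅ := (clF ∅).mul_mem h2 ((clF ∅).add_mem hz hc)
    have hb : (2 : ℂ)⁻¹ * ((cc z - z) * Complex.I) ∈ clF ∅ :=
      (clF ∅).mul_mem h2 ((clF ∅).mul_mem ((clF ∅).sub_mem hc hz) hIalg)
    have ha' : (2 : ℂ)⁻¹ * (z + cc z) = (z.re : ℂ) := by
      rw [cc_apply, Complex.add_conj]
      push_cast
      ring
    have hb' : (2 : ℂ)⁻¹ * ((cc z - z) * Complex.I) = (z.im : ℂ) := by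
      have h3 : cc z - z = -(2 * z.im * Complex.I) := by
        rw [cc_apply, ← neg_sub, Complex.sub_conj]
        push_cast
        ring
      rw [h3]
      linear_combination (-(z.im : ℂ)) * Complex.I_mul_I
    refine ⟨z.re, z.im, (Complex.re_add_im z).symm, Complex.ofReal_im _, Complex.ofReal_im _,
      h _ (isAlgebraic_of_mem_cl_empty ?_) (Complex.ofReal_im _),
      h _ (isAlgebraic_of_mem_cl_empty ?_) (Complex.ofReal_im _)⟩
    · rw [← ha']
      exact ha
    · rw [← hb']
      exact hb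
  rcases hI with hI | hI
  · left
    intro z hz
    obtain ⟨a, b, rfl, -, -, h1, h2⟩ := key z hz
    rw [map_add, map_mul, h1, h2, hI]
  · right
    intro z hz
    obtain ⟨a, b, rfl, ha, hb, h1, h2⟩ := key z hz
    rw [RingEquiv.trans_apply, map_add, map_mul, h1, h2, hI, map_add, map_mul,
      cc_eq_self_iff.2 ha, cc_eq_self_iff.2 hb, map_neg, cc_apply, Complex.conj_I, neg_neg]

/-- the status is the same for all automorphisms over the algebraic numbers -/
private theorem FinF_all (d : Datum) (hd : AllClosed d) {A : Set ℂ} (hA : A ⊆ RC) {g : ℂ ≃+* ℂ}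
    (hg : g ∈ GA) (h : St d A g) {σ : ℂ ≃+* ℂ} (hσ : σ ∈ GA) : St d A σ := by
  obtain ⟨X₀, hdep, hloc⟩ := exists_St d hd hA
  obtain ⟨N, hN, hc⟩ := connected hdep hloc
  exact (hc g σ fun z hz => by rw [hg z (hN z hz), hσ z (hN z hz)]).1 h

private theorem FinF_st {d : Datum} {A : Set ℂ} {σ : ℂ ≃+* ℂ} (h : St d A σ) :
    PerIn A (d.conj σ).F (d.conj σ).k (d.conj σ).w := by
  obtain ⟨X₂, ε₂, hε₂, h1⟩ := h
  exact h1 σ (fun _ _ => rfl) fun x _ => by simpa using hε₂

private theorem FinF_coeffs (f : Frame) {L : Set ℂ} (h : f.IsDefinedOver L) :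
    ∃ X : Finset ℂ, (X : Set ℂ) ⊆ L ∧ f.IsDefinedOver X := by
  classical
  choose A hA using fun j => exists_coeffs f.k (f.ω j)
  refine ⟨(Finset.univ.biUnion A ∪ Finset.univ.biUnion fun i => (f.F i).coeffs).filter (· ∈ L),
    fun x hx => (Finset.mem_filter.1 (Finset.mem_coe.1 hx)).2, ?_, ?_⟩
  · intro i c hc
    exact Finset.mem_coe.2 (Finset.mem_filter.2
      ⟨Finset.mem_union_right _ (Finset.mem_biUnion.2 ⟨i, Finset.mem_univ _, hc⟩), h.1 i c hc⟩)
  · intro j p q hpq I y hy
    refine ⟨fun c hc => ?_, fun b c hc => ?_⟩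
    · exact Finset.mem_coe.2 (Finset.mem_filter.2
        ⟨Finset.mem_union_left _ (Finset.mem_biUnion.2
          ⟨j, Finset.mem_univ _, (hA j p q hpq I y hy).1 hc⟩), (h.2 j p q hpq I y hy).1 c hc⟩)
    · exact Finset.mem_coe.2 (Finset.mem_filter.2
        ⟨Finset.mem_union_left _ (Finset.mem_biUnion.2
          ⟨j, Finset.mem_univ _, (hA j p q hpq I y hy).2 b hc⟩), (h.2 j p q hpq I y hy).2 b c hc⟩)

private theorem FinF_dep (f : Frame) (e : Fin f.r → ℂ) {X : Finset ℂ} (h : f.IsDefinedOver X) :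
    Dep (X ∪ Finset.univ.image e) (NR (f.datum e)) := by
  classical
  have key : ∀ σ τ : ℂ ≃+* ℂ, (∀ x ∈ X ∪ Finset.univ.image e, σ x = τ x) →
      PerIn RC ((f.datum e).conj σ).F ((f.datum e).conj σ).k ((f.datum e).conj σ).w →
        PerIn RC ((f.datum e).conj τ).F ((f.datum e).conj τ).k ((f.datum e).conj τ).w := by
    intro σ τ h0 hP
    have hm : ∀ c, c ∈ (X : Set ℂ) → σ c = τ c := fun c hc =>
      h0 c (Finset.mem_union_left _ (Finset.mem_coe.1 hc))
    have h1 : conjEqs σ f.F = conjEqs τ f.F := by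
      funext i
      exact map_congr_coeffs fun c hc => hm c (h.1 i c hc)
    have h2 : ∀ p q, p + q = 2 * f.k → ∀ I,
        (comb e f.ω).conj σ p q I = (comb e f.ω).conj τ p q I := by
      intro p q hpq I
      rw [conj_comb, conj_comb]
      unfold comb
      congr 2
      funext j
      have he : σ (e j) = τ (e j) :=
        h0 _ (Finset.mem_union_right _ (Finset.mem_image_of_mem e (Finset.mem_univ j)))
      change scale (σ (e j)) ((f.ω j).conj σ p q I) = scale (τ (e j)) ((f.ω j).conj τ p q I)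
      rw [he]
      congr 1
      simp only [FormCochain.conj]
      refine List.map_congr_left fun y hy => ?_
      have h3 : y.1.conj σ = y.1.conj τ := by
        simp only [RatFun.conj]
        rw [map_congr_coeffs fun c hc => hm c ((h.2 j p q hpq I y hy).1 c hc)]
      have h4 : ∀ b, (y.2 b).conj σ = (y.2 b).conj τ := by
        intro b
        simp only [RatFun.conj]
        rw [map_congr_coeffs fun c hc => hm c ((h.2 j p q hpq I y hy).2 b c hc)]
      rw [h3]
      simp only [h4]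
    change PerIn RC (conjEqs τ f.F) f.k ((comb e f.ω).conj τ)
    have hP' : PerIn RC (conjEqs σ f.F) f.k ((comb e f.ω).conj σ) := hP
    rw [h1] at hP'
    obtain ⟨W, hW, hr⟩ := hP'
    refine ⟨W, ⟨fun x hx v hv => ?_, hW.bd⟩, hr⟩
    rw [← h2 x.1 x.2.1 hx]
    exact hW.int x hx v hv
  intro g k hgk
  exact not_congr ⟨key g k hgk, key k g fun x hx => (hgk x hx).symm⟩

/-- the conjugates of the cochains of a frame have periods -/
private theorem FinF_isPer (f : Frame) (g : ℂ ≃+* ℂ) :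
    ∃ W : Fin f.r → Gen f.N → ℂ, ∀ j, IsPer (conjEqs g f.F) f.k ((f.ω j).conj g) (W j) := by
  refine Classical.axiomOfChoice fun j => ?_
  let dj : Datum := ⟨f.N, f.m, f.F, f.k, f.ω j, f.smooth, f.hodge j⟩
  have h1 : ∃ W, IsPer (dj.conj (RingEquiv.refl ℂ)).F (dj.conj (RingEquiv.refl ℂ)).k
      (dj.conj (RingEquiv.refl ℂ)).w W := by
    rw [Datum.conj_refl]
    exact isClosedClass_iff.1 (f.closed j)
  obtain ⟨W, hW⟩ := h1
  exact allClosed_of_isPer dj hW g

private theorem FinF_coord (f : Frame) (e : Fin f.r → ℂ) {X : Finset ℂ} (h : f.IsDefinedOver X)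
    (g : ℂ ≃+* ℂ) {S : Set ℂ} (hS : #S < 𝔠) (hI : ¬ Inv S (shf g (NR (f.datum e)))) (i : Fin f.r) :
    g (e i) ∈ cl (S ∪ g '' (X : Set ℂ)) := by
  classical
  obtain ⟨W, hW⟩ := FinF_isPer f g
  have himg : ∀ P : MvPolynomial (Fin (f.N + 1)) ℂ, (∀ c ∈ P.coeffs, c ∈ (X : Set ℂ)) →
      ∀ c ∈ (map (g : ℂ →+* ℂ) P).coeffs, c ∈ g '' (X : Set ℂ) := by
    intro P hP c hc
    rw [MvPolynomial.mem_coeffs_iff] at hc
    obtain ⟨n, hn, rfl⟩ := hc
    rw [mem_support_iff, coeff_map] at hn
    refine ⟨coeff n P, hP _ ?_, by rw [coeff_map]; rfl⟩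
    rw [MvPolynomial.mem_coeffs_iff]
    refine ⟨n, ?_, rfl⟩
    rw [mem_support_iff]
    intro h0
    rw [h0, map_zero] at hn
    exact hn rfl
  refine coord_mem (F := conjEqs g f.F) (k := f.k) (ω := fun j => (f.ω j).conj g) (W := W) hW
    (f.indep g) (X := g '' (X : Set ℂ)) ((Finset.finite_toSet X).image g)
    (fun i c hc => himg _ (h.1 i) c hc) ?_ (fun j => g (e j)) hS ?_ i
  · intro j p q hpq I y hy
    simp only [FormCochain.conj, List.mem_map] at hy
    obtain ⟨z, hz, rfl⟩ := hy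
    exact ⟨fun c hc => himg _ ((h.2 j p q hpq I z hz).1) c hc,
      fun b c hc => himg _ ((h.2 j p q hpq I z hz).2 b) c hc⟩
  · have h1 : shf g (NR (f.datum e)) = fun σ => ¬ PerIn RC (conjEqs σ (conjEqs g f.F)) f.k
        ((comb (fun j => g (e j)) fun j => (f.ω j).conj g).conj σ) := by
      funext σ
      rw [← conj_comb]
      change (¬ PerIn RC ((f.datum e).conj (g.trans σ)).F ((f.datum e).conj (g.trans σ)).k
        ((f.datum e).conj (g.trans σ)).w) = (¬ PerIn RC (((f.datum e).conj g).conj σ).F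
          (((f.datum e).conj g).conj σ).k (((f.datum e).conj g).conj σ).w)
      rw [Datum.conj_conj]
    rw [h1] at hI
    exact hI

theorem of_not_inv (d : Datum) (hd : AllClosed d) {g : ℂ ≃+* ℂ} (hg : g ∈ GA)
    (h : ¬ Inv ∅ (shf g (NR d))) {σ : ℂ ≃+* ℂ} (hσ : FixesRealAlg σ) :
    IsReal (d.conj σ) ∧
      ∀ σ' : ℂ ≃+* ℂ, FixesRealAlg σ' → ((d.conj σ').IsRational → (d.conj σ).IsRational) := by
  classical
  have hng := h
  have hSt : St d RC g := by
    unfold Inv at hng
    push Not at hng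
    obtain ⟨Y, ε, hε, h1⟩ := hng
    refine ⟨Y.image g.symm, ε, hε, fun β' hcl hnear => ?_⟩
    have h2 := h1 (g.symm.trans β') (fun z hz => ?_) fun y hy => ?_
    · have h3 : g.trans (g.symm.trans β') = β' := by
        ext z
        simp
      have h4 : ¬ NR d (g.trans (g.symm.trans β')) := h2
      rw [h3] at h4
      exact not_not.1 h4
    · have h3 : g.symm z = z := by rw [RingEquiv.symm_apply_eq, hg z hz]
      rw [RingEquiv.trans_apply, h3, hcl z hz, hg z hz]
    · have h3 := hnear (g.symm y) (Finset.mem_image_of_mem _ hy)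
      rw [RingEquiv.apply_symm_apply] at h3
      exact h3
  have hStall : ∀ σ ∈ GA, St d RC σ := fun σ hσ => FinF_all d hd subset_rfl hg hSt hσ
  refine ⟨?_, fun σ' hσ' hrat => ?_⟩
  · rcases FinF_two hσ with h | h
    · exact isRealClass_iff_perIn.2 (FinF_st (hStall σ h))
    · exact FinF_real_cc' d (isRealClass_iff_perIn.2 (FinF_st (hStall _ h)))
  · -- a rational conjugate by an automorphism over the algebraic numbers
    obtain ⟨κ, hκ, hκr⟩ : ∃ κ ∈ GA, (d.conj κ).IsRational := by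
      rcases FinF_two hσ' with h | h
      · exact ⟨σ', h, hrat⟩
      · exact ⟨_, h, FinF_rat_cc d hrat⟩
    have h1 : St d QC κ := st_rat d hd (hStall κ hκ) (perIn_of_isRationalClass hκr)
    have h2 : ∀ σ ∈ GA, (d.conj σ).IsRational := fun σ hσ =>
      isRationalClass_of_perIn (FinF_st (FinF_all d hd QC_subset_RC hκ h1 hσ))
    rcases FinF_two hσ with h | h
    · exact h2 σ h
    · exact FinF_rat_cc' d (h2 _ h)

theorem final2 : ∃ τ : RingAut ℂ, FixesAlg τ ∧ ∀ (f : Frame) (x : Finset ℂ),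
    f.IsDefinedOver (cl x) → ∀ (e : Fin f.r → ℂ) (J : Finset ℤ), x.card + 1 < J.card →
      (∀ j ∈ J, IsReal ((f.datum e).conj (τ ^ j))) →
      ∀ σ : ℂ ≃+* ℂ, FixesRealAlg σ → IsReal ((f.datum e).conj σ) ∧
        ∀ σ' : ℂ ≃+* ℂ, FixesRealAlg σ' →
          (((f.datum e).conj σ').IsRational → ((f.datum e).conj σ).IsRational) := by
  classical
  obtain ⟨τ, hτ, htest⟩ := finite_test2 fam_datum
  refine ⟨τ, fixesAlg_iff.2 hτ, ?_⟩
  intro f x hdef e J hJ hreal σ hσ
  have hJ0 : J.Nonempty := Finset.card_pos.1 (lt_of_le_of_lt (Nat.zero_le _) hJ)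
  obtain ⟨j₀, hj₀⟩ := hJ0
  have hd : AllClosed (f.datum e) := by
    obtain ⟨W, hW, -⟩ := isRealClass_iff_perIn.1 (hreal j₀ hj₀)
    exact allClosed_of_isPer (f.datum e) hW
  have hex : ∃ g ∈ GA, ¬ Inv ∅ (shf g (NR (f.datum e))) := by
    by_contra hcon
    push Not at hcon
    obtain ⟨X, hXL, hX⟩ := FinF_coeffs f hdef
    have hr : (x : Set ℂ) = Set.range (fun i : Fin x.card => (x.equivFin.symm i : ℂ)) := by
      ext z
      constructor
      · intro hz
        exact ⟨x.equivFin ⟨z, Finset.mem_coe.1 hz⟩, by simp⟩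
      · rintro ⟨i, rfl⟩
        exact Finset.mem_coe.2 (x.equivFin.symm i).2
    obtain ⟨j, hj, h1⟩ := htest (NR (f.datum e)) ⟨f.datum e, hd, rfl⟩ hcon X
      (Finset.univ.image e) (FinF_dep f e hX) (fun g _ S hS hI y hy => by
        obtain ⟨i, -, rfl⟩ := Finset.mem_image.1 hy
        exact FinF_coord f e hX g hS hI i) x.card
      (fun i : Fin x.card => (x.equivFin.symm i : ℂ)) (by rw [← hr]; exact hXL) J hJ
    exact h1 (isRealClass_iff_perIn.1 (hreal j hj))
  obtain ⟨g, hg, hng⟩ := hex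
  exact of_not_inv (f.datum e) hd hg hng hσ

end Pool.Agent.AHT
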